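import Mathlib

/-!
PROJECT QA (MP_6cd5f1_al, Quillen's conjecture on Andre-Quillen homology, the case `n_0 = 4`).
Definitions. DONE.

`BB R b V`: the free graded commutative algebra, exterior algebra of `V` tensor polynomial ring in
`b` variables. `xx v`: the element `v` of degree one, `XX j`: the `j`-th polynomial variable,
`eps`: the parity involution, `con m`: contraction with the functional `m`, `par j`: the partial
derivative in the `j`-th polynomial variable, `emb f` the algebra map induced by a linear map.
`Dat`: the data of a differential, `Dat.z k = q k + rho k`,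
`Dat.D = con phi + ∑ xx (s j) * par j + ∑ z k * con (lambda k)` on `BB R b (U × (Fin c → R))`.
`Zm`, `Bm`, `Hm`: cycles, boundaries, homology of a parity graded complex `(d, ε)`, `e = 1` or `-1`.
-/

set_option autoImplicit false

open scoped TensorProduct

namespace Pool.Agent.Helper44.QA

noncomputable section

universe u

/-- Exterior algebra of `V` tensor the polynomial ring in `b` variables. -/
def BB (R : Type u) [CommRing R] (b : ℕ) (V : Type u) [AddCommGroup V] [Module R V] : Type u :=
  ExteriorAlgebra R V ⊗[R] MvPolynomial (Fin b) R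

instance (R : Type u) [CommRing R] (b : ℕ) (V : Type u) [AddCommGroup V] [Module R V] :
    Ring (BB R b V) := inferInstanceAs (Ring (ExteriorAlgebra R V ⊗[R] MvPolynomial (Fin b) R))

instance (R : Type u) [CommRing R] (b : ℕ) (V : Type u) [AddCommGroup V] [Module R V] :
    Algebra R (BB R b V) :=
  inferInstanceAs (Algebra R (ExteriorAlgebra R V ⊗[R] MvPolynomial (Fin b) R))

section Ops

variable {R : Type u} [CommRing R] {b : ℕ} {V : Type u} [AddCommGroup V] [Module R V]

/-- The product `x p` of an element of the exterior algebra and a polynomial. -/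
def tm (x : ExteriorAlgebra R V) (p : MvPolynomial (Fin b) R) : BB R b V := x ⊗ₜ[R] p

/-- The element of degree one. -/
def xx (v : V) : BB R b V := tm (ExteriorAlgebra.ι R v) 1

/-- The polynomial variable. -/
def XX (j : Fin b) : BB R b V := tm 1 (MvPolynomial.X j)

/-- The inclusion of the exterior algebra. -/
def inE (R : Type u) [CommRing R] (b : ℕ) (V : Type u) [AddCommGroup V] [Module R V] :
    ExteriorAlgebra R V →ₐ[R] BB R b V := Algebra.TensorProduct.includeLeft

/-- The inclusion of the polynomial ring. -/
def inP (R : Type u) [CommRing R] (b : ℕ) (V : Type u) [AddCommGroup V] [Module R V] :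
    MvPolynomial (Fin b) R →ₐ[R] BB R b V := Algebra.TensorProduct.includeRight

/-- The parity involution. -/
def eps (R : Type u) [CommRing R] (b : ℕ) (V : Type u) [AddCommGroup V] [Module R V] :
    BB R b V →ₐ[R] BB R b V :=
  Algebra.TensorProduct.map (CliffordAlgebra.involute) (AlgHom.id R (MvPolynomial (Fin b) R))

/-- Contraction. -/
def con (m : V →ₗ[R] R) : BB R b V →ₗ[R] BB R b V :=
  TensorProduct.map (CliffordAlgebra.contractLeft (Q := (0 : QuadraticForm R V)) m) LinearMap.id

/-- Partial derivative. -/
def par (j : Fin b) : BB R b V →ₗ[R] BB R b V :=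
  TensorProduct.map LinearMap.id (MvPolynomial.pderiv j).toLinearMap

/-- The algebra map induced by a linear map. -/
def emb (b : ℕ) {V' : Type u} [AddCommGroup V'] [Module R V'] (f : V →ₗ[R] V') :
    BB R b V →ₐ[R] BB R b V' :=
  Algebra.TensorProduct.map (ExteriorAlgebra.map f) (AlgHom.id R (MvPolynomial (Fin b) R))

end Ops

section Hom

variable {R : Type u} [CommRing R] {M : Type u} [AddCommGroup M] [Module R M]

/-- Cycles of parity `e`. -/
def Zm (d ε : M →ₗ[R] M) (e : R) : Submodule R M :=
  LinearMap.ker d ⊓ LinearMap.ker (ε - e • LinearMap.id)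

/-- Boundaries of elements of parity `-e`. -/
def Bm (d ε : M →ₗ[R] M) (e : R) : Submodule R M :=
  (LinearMap.ker (ε + e • LinearMap.id)).map d

/-- Homology of parity `e`. -/
abbrev Hm (d ε : M →ₗ[R] M) (e : R) : Type u :=
  Zm d ε e ⧸ (Bm d ε e).comap (Zm d ε e).subtype

theorem mem_Zm {d ε : M →ₗ[R] M} {e : R} {m : M} : m ∈ Zm d ε e ↔ d m = 0 ∧ ε m = e • m := by
  unfold Zm
  rw [Submodule.mem_inf, LinearMap.mem_ker, LinearMap.mem_ker, LinearMap.sub_apply,
    LinearMap.smul_apply, LinearMap.id_apply, sub_eq_zero]

theorem mem_Bm {d ε : M →ₗ[R] M} {e : R} {m : M} :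
    m ∈ Bm d ε e ↔ ∃ n, ε n = -(e • n) ∧ d n = m := by
  unfold Bm
  rw [Submodule.mem_map]
  refine exists_congr fun n => and_congr_left fun _ => ?_
  rw [LinearMap.mem_ker, LinearMap.add_apply, LinearMap.smul_apply, LinearMap.id_apply,
    add_eq_zero_iff_eq_neg]

/-- A linear map commuting with `d` and `ε` acts on homology. -/
def Hz (d ε z : M →ₗ[R] M) (hd : ∀ m, z (d m) = d (z m)) (he : ∀ m, z (ε m) = ε (z m)) (e : R) :
    Hm d ε e →ₗ[R] Hm d ε e :=
  Submodule.mapQ _ _
    (z.restrict (p := Zm d ε e) (q := Zm d ε e) (fun m hm => by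
      rw [mem_Zm] at hm ⊢
      rw [← hd, ← he, hm.1, hm.2, map_zero, map_smul]
      exact ⟨rfl, rfl⟩))
    (by
      rintro ⟨m, hm⟩ hb
      rw [Submodule.mem_comap, Submodule.subtype_apply, mem_Bm] at hb
      obtain ⟨n, hn, hnm⟩ := hb
      rw [Submodule.mem_comap, Submodule.mem_comap, Submodule.subtype_apply, mem_Bm]
      refine ⟨z n, ?_, ?_⟩
      · rw [← he, hn, map_neg, map_smul]
      · rw [← hd, hnm]
        rfl)

theorem Hz_mk (d ε z : M →ₗ[R] M) (hd : ∀ m, z (d m) = d (z m)) (he : ∀ m, z (ε m) = ε (z m))
    (e : R) (m : M) (hm : m ∈ Zm d ε e) (hm' : z m ∈ Zm d ε e) :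
    Hz d ε z hd he e (Submodule.Quotient.mk ⟨m, hm⟩) = Submodule.Quotient.mk ⟨z m, hm'⟩ := rfl

end Hom

section Data

variable (R : Type u) [CommRing R] (b c : ℕ) (U : Type u) [AddCommGroup U] [Module R U]

/-- The data of the differential. -/
structure Dat where
  /-- the values on the generators of degree one -/
  phi : U →ₗ[R] R
  /-- the values on the polynomial variables -/
  s : Fin b → U
  /-- the decomposable part of the values on the last generators -/
  q : Fin c → ExteriorAlgebra R U
  /-- the polynomial part of the values on the last generators -/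
  rho : Fin c → MvPolynomial (Fin b) R

variable {R b c U}

/-- The coordinate functional of the last generators. -/
def lam (R : Type u) [CommRing R] {c : ℕ} (U : Type u) [AddCommGroup U] [Module R U]
    (m : (Fin c → R) →ₗ[R] R) : (U × (Fin c → R)) →ₗ[R] R :=
  m ∘ₗ LinearMap.snd R U (Fin c → R)

/-- The inclusion of the subalgebra without the last generators. -/
def inA (R : Type u) [CommRing R] (b c : ℕ) (U : Type u) [AddCommGroup U] [Module R U] :
    BB R b U →ₐ[R] BB R b (U × (Fin c → R)) := emb b (LinearMap.inl R U (Fin c → R))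

/-- The value on the last generator `k`, in the subalgebra. -/
def Dat.z (T : Dat R b c U) (k : Fin c) : BB R b U := inE R b U (T.q k) + inP R b U (T.rho k)

/-- The differential of the subalgebra. -/
def Dat.dA (T : Dat R b c U) : BB R b U →ₗ[R] BB R b U :=
  con T.phi + ∑ j, LinearMap.mulLeft R (xx (T.s j)) ∘ₗ par j

/-- The differential. -/
def Dat.D (T : Dat R b c U) : BB R b (U × (Fin c → R)) →ₗ[R] BB R b (U × (Fin c → R)) :=
  con (T.phi ∘ₗ LinearMap.fst R U (Fin c → R)) +
    (∑ j, LinearMap.mulLeft R (xx ((T.s j, 0) : U × (Fin c → R))) ∘ₗ par j) +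
    ∑ k, LinearMap.mulLeft R (inA R b c U (T.z k)) ∘ₗ con (lam R U (LinearMap.proj k))

/-- The extension by one generator `τ` of degree one with value `t`. -/
def Dat.ext (T : Dat R b c U) (t : R) : Dat R b c (U × R) where
  phi := T.phi.coprod (LinearMap.mulLeft R t)
  s j := (T.s j, 0)
  q k := ExteriorAlgebra.map (LinearMap.inl R U R) (T.q k)
  rho := T.rho

/-- Good data: `D` squares to zero, the `q k` are quadratic, the `rho k` have no constant term. -/
structure Good (T : Dat R b c U) : Prop where
  sq : ∀ w, T.D (T.D w) = 0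
  quad : ∀ k, T.q k ∈ (LinearMap.range (ExteriorAlgebra.ι R (M := U))) ^ 2
  cst : ∀ k, MvPolynomial.constantCoeff (T.rho k) = 0

/-- Homology of `D` of parity `e`. -/
abbrev HH (T : Dat R b c U) (e : R) : Type u :=
  Hm T.D (eps R b (U × (Fin c → R))).toLinearMap e

/-- Multiplication with a scalar. -/
abbrev mt (t : R) (N : Type u) [AddCommGroup N] [Module R N] : N →ₗ[R] N := LinearMap.lsmul R N t

/-- Contraction on the exterior algebra. -/
abbrev ctr (f : U →ₗ[R] R) : ExteriorAlgebra R U →ₗ[R] ExteriorAlgebra R U :=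
  CliffordAlgebra.contractLeft (Q := (0 : QuadraticForm R U)) f

/-- The span of the products of elements of `C` and polynomials. -/
def CP (b : ℕ) (C : Submodule R (ExteriorAlgebra R U)) : Submodule R (BB R b U) :=
  Submodule.span R {w | ∃ x ∈ C, ∃ p : MvPolynomial (Fin b) R, tm x p = w}

end Data

end

end Pool.Agent.Helper44.QA
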