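import Mathlib
import Pool.Agent.Helper44.QA.Defs

/-!
PROJECT QA. Computation rules on generators and the induction principle. DONE.
-/

set_option autoImplicit false

open scoped TensorProduct

namespace Pool.Agent.Helper44.QA

universe u

variable {R : Type u} [CommRing R] {b : ℕ} {V : Type u} [AddCommGroup V] [Module R V]

theorem tm_add (x : ExteriorAlgebra R V) (p q : MvPolynomial (Fin b) R) :
    tm x (p + q) = tm x p + tm x q := TensorProduct.tmul_add _ _ _

theorem add_tm (x y : ExteriorAlgebra R V) (p : MvPolynomial (Fin b) R) :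
    tm (x + y) p = tm x p + tm y p := TensorProduct.add_tmul _ _ _

theorem tm_zero (x : ExteriorAlgebra R V) : tm x (0 : MvPolynomial (Fin b) R) = 0 :=
  TensorProduct.tmul_zero _ _

theorem zero_tm (p : MvPolynomial (Fin b) R) : tm (0 : ExteriorAlgebra R V) p = 0 :=
  TensorProduct.zero_tmul _ _

theorem smul_tm (r : R) (x : ExteriorAlgebra R V) (p : MvPolynomial (Fin b) R) :
    tm (r • x) p = r • tm x p := TensorProduct.smul_tmul' _ _ _

theorem tm_smul (r : R) (x : ExteriorAlgebra R V) (p : MvPolynomial (Fin b) R) :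
    tm x (r • p) = r • tm x p := TensorProduct.tmul_smul _ _ _

theorem sub_tm (x y : ExteriorAlgebra R V) (p : MvPolynomial (Fin b) R) :
    tm (x - y) p = tm x p - tm y p := TensorProduct.sub_tmul _ _ _

theorem neg_tm (x : ExteriorAlgebra R V) (p : MvPolynomial (Fin b) R) :
    tm (-x) p = -tm x p := TensorProduct.neg_tmul _ _

theorem tm_mul (x y : ExteriorAlgebra R V) (p q : MvPolynomial (Fin b) R) :
    tm x p * tm y q = tm (x * y) (p * q) := Algebra.TensorProduct.tmul_mul_tmul _ _ _ _

theorem tm_one : tm (1 : ExteriorAlgebra R V) (1 : MvPolynomial (Fin b) R) = 1 := rfl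

theorem inE_apply (x : ExteriorAlgebra R V) : inE R b V x = tm x 1 := rfl

theorem inP_apply (p : MvPolynomial (Fin b) R) : inP R b V p = tm 1 p := rfl

/-- Additive induction. -/
theorem tm_ind {p : BB R b V → Prop} (hadd : ∀ u w, p u → p w → p (u + w))
    (ht : ∀ x q, p (tm x q)) (w : BB R b V) : p w := by
  refine TensorProduct.induction_on (motive := p) w ?_ ht hadd
  have := ht 0 0
  rwa [zero_tm] at this

theorem con_tm (m : V →ₗ[R] R) (x : ExteriorAlgebra R V) (p : MvPolynomial (Fin b) R) :
    con m (tm x p) = tm (CliffordAlgebra.contractLeft (Q := (0 : QuadraticForm R V)) m x) p :=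
  rfl

theorem par_tm (j : Fin b) (x : ExteriorAlgebra R V) (p : MvPolynomial (Fin b) R) :
    par j (tm x p) = tm x (MvPolynomial.pderiv j p) := rfl

theorem eps_tm (x : ExteriorAlgebra R V) (p : MvPolynomial (Fin b) R) :
    eps R b V (tm x p) = tm (CliffordAlgebra.involute (Q := (0 : QuadraticForm R V)) x) p :=
  rfl

theorem emb_tm {V' : Type u} [AddCommGroup V'] [Module R V'] (f : V →ₗ[R] V')
    (x : ExteriorAlgebra R V) (p : MvPolynomial (Fin b) R) :
    emb b f (tm x p) = tm (ExteriorAlgebra.map f x) p := rfl

theorem xx_add (v w : V) : (xx (v + w) : BB R b V) = xx v + xx w := by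
  unfold xx
  rw [map_add, add_tm]

theorem xx_smul (r : R) (v : V) : (xx (r • v) : BB R b V) = r • xx v := by
  unfold xx
  rw [map_smul, smul_tm]

theorem xx_zero : (xx (0 : V) : BB R b V) = 0 := by
  unfold xx
  rw [map_zero, zero_tm]

theorem con_one (m : V →ₗ[R] R) : con m (1 : BB R b V) = 0 := by
  rw [← tm_one, con_tm, CliffordAlgebra.contractLeft_one, zero_tm]

theorem xx_mul_tm (v : V) (x : ExteriorAlgebra R V) (p : MvPolynomial (Fin b) R) :
    (xx v : BB R b V) * tm x p = tm (ExteriorAlgebra.ι R v * x) p := by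
  unfold xx
  rw [tm_mul, one_mul]

theorem XX_mul_tm (j : Fin b) (x : ExteriorAlgebra R V) (p : MvPolynomial (Fin b) R) :
    (XX j : BB R b V) * tm x p = tm x (MvPolynomial.X j * p) := by
  unfold XX
  rw [tm_mul, one_mul]

theorem con_xx_mul (m : V →ₗ[R] R) (v : V) (w : BB R b V) :
    con m (xx v * w) = m v • w - xx v * con m w := by
  induction w using tm_ind with
  | hadd x y hx hy =>
    rw [mul_add, map_add, hx, hy, map_add, mul_add, smul_add]
    abel
  | ht x p =>
    rw [xx_mul_tm, con_tm, con_tm, xx_mul_tm]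
    erw [CliffordAlgebra.contractLeft_ι_mul]
    rw [sub_tm, smul_tm]

theorem con_XX_mul (m : V →ₗ[R] R) (j : Fin b) (w : BB R b V) :
    con m (XX j * w) = XX j * con m w := by
  induction w using tm_ind with
  | hadd x y hx hy => rw [mul_add, map_add, hx, hy, map_add, mul_add]
  | ht x p => rw [XX_mul_tm, con_tm, con_tm, XX_mul_tm]

theorem par_one (j : Fin b) : par j (1 : BB R b V) = 0 := by
  rw [← tm_one, par_tm, Derivation.map_one_eq_zero, tm_zero]

theorem par_xx_mul (j : Fin b) (v : V) (w : BB R b V) :
    par j (xx v * w) = xx v * par j w := by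
  induction w using tm_ind with
  | hadd x y hx hy => rw [mul_add, map_add, hx, hy, map_add, mul_add]
  | ht x p => rw [xx_mul_tm, par_tm, par_tm, xx_mul_tm]

theorem par_XX_mul (j i : Fin b) (w : BB R b V) :
    par j (XX i * w) = (if i = j then w else 0) + XX i * par j w := by
  induction w using tm_ind with
  | hadd x y hx hy =>
    rw [mul_add, map_add, hx, hy, map_add, mul_add]
    split_ifs
    · abel
    · abel
  | ht x p =>
    rw [XX_mul_tm, par_tm, par_tm, XX_mul_tm, Derivation.leibniz, MvPolynomial.pderiv_X,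
      smul_eq_mul, smul_eq_mul, tm_add, add_comm]
    congr 1
    by_cases h : i = j
    · subst h
      simp
    · simp [h, tm_zero]

theorem eps_xx (v : V) : eps R b V (xx v) = -xx v := by
  unfold xx
  rw [eps_tm]
  erw [CliffordAlgebra.involute_ι]
  rw [neg_tm]

theorem eps_XX (j : Fin b) : eps R b V (XX j) = XX j := by
  unfold XX
  rw [eps_tm, map_one]

theorem emb_xx {V' : Type u} [AddCommGroup V'] [Module R V'] (f : V →ₗ[R] V') (v : V) :
    emb b f (xx v) = xx (f v) := by
  unfold xx
  rw [emb_tm, ExteriorAlgebra.map_apply_ι]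

theorem emb_XX {V' : Type u} [AddCommGroup V'] [Module R V'] (f : V →ₗ[R] V') (j : Fin b) :
    emb b f (XX j) = XX j := by
  unfold XX
  rw [emb_tm, map_one]

theorem xx_mul_xx_swap (v w : V) : (xx v * xx w : BB R b V) = -(xx w * xx v) := by
  unfold xx
  rw [tm_mul, tm_mul, ← neg_tm,
    eq_neg_of_add_eq_zero_left (ExteriorAlgebra.ι_add_mul_swap v w)]

theorem xx_mul_self (v : V) : (xx v * xx v : BB R b V) = 0 := by
  unfold xx
  rw [tm_mul, ExteriorAlgebra.ι_sq_zero, zero_tm]

theorem XX_mul_comm (j : Fin b) (w : BB R b V) : XX j * w = w * XX j := by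
  induction w using tm_ind with
  | hadd x y hx hy => rw [mul_add, add_mul, hx, hy]
  | ht x p =>
    rw [XX_mul_tm]
    unfold XX
    rw [tm_mul, mul_one, mul_comm]

/-- Induction principle: `1`, sums, multiples, left multiplication with the generators. -/
theorem BB_ind {p : BB R b V → Prop} (h1 : p 1) (hadd : ∀ u w, p u → p w → p (u + w))
    (hsmul : ∀ (r : R) w, p w → p (r • w)) (hx : ∀ v w, p w → p (xx v * w))
    (hX : ∀ j w, p w → p (XX j * w)) (w : BB R b V) : p w := by
  induction w using tm_ind with
  | hadd x y hx' hy' => exact hadd _ _ hx' hy'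
  | ht x q =>
    have hP : ∀ q : MvPolynomial (Fin b) R, p (tm (1 : ExteriorAlgebra R V) q) := by
      intro q
      induction q using MvPolynomial.induction_on with
      | C a =>
        have h2 : tm (1 : ExteriorAlgebra R V) (MvPolynomial.C a : MvPolynomial (Fin b) R) =
            a • (1 : BB R b V) := by
          rw [← tm_one, ← tm_smul]
          congr 1
          rw [MvPolynomial.smul_eq_C_mul, mul_one]
        rw [h2]
        exact hsmul _ _ h1
      | add q r hq hr =>
        rw [tm_add]
        exact hadd _ _ hq hr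
      | mul_X q j hq =>
        rw [mul_comm, ← XX_mul_tm]
        exact hX _ _ hq
    have hE : ∀ x : ExteriorAlgebra R V, ∀ y : ExteriorAlgebra R V,
        (∀ q : MvPolynomial (Fin b) R, p (tm y q)) →
          ∀ q : MvPolynomial (Fin b) R, p (tm (x * y) q) := by
      intro x
      induction x using ExteriorAlgebra.induction with
      | algebraMap r =>
        intro y hy q
        rw [← Algebra.smul_def, smul_tm]
        exact hsmul _ _ (hy q)
      | ι v =>
        intro y hy q
        rw [← xx_mul_tm]
        exact hx _ _ (hy q)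
      | mul a a' ha ha' =>
        intro y hy q
        rw [mul_assoc]
        exact ha _ (ha' _ hy) q
      | add a a' ha ha' =>
        intro y hy q
        rw [add_mul, add_tm]
        exact hadd _ _ (ha _ hy q) (ha' _ hy q)
    have := hE x 1 hP q
    rwa [mul_one] at this

end Pool.Agent.Helper44.QA
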