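import Mathlib
import Pool.Agent.Helper44.QA.Defs
import Pool.Agent.Helper44.QA.Rules

/-!
PROJECT QA. Calculus on the free graded commutative algebra `BB R b V`. DONE.
-/

set_option autoImplicit false

open scoped TensorProduct

namespace Pool.Agent.Helper44.QA

universe u

variable {R : Type u} [CommRing R] {b : ℕ} {V : Type u} [AddCommGroup V] [Module R V]

theorem eps_eps (w : BB R b V) : eps R b V (eps R b V w) = w := by
  induction w using BB_ind with
  | h1 => rw [map_one, map_one]
  | hadd u w hu hw => rw [map_add, map_add, hu, hw]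
  | hsmul r w hw => rw [map_smul, map_smul, hw]
  | hx v w hw => rw [map_mul, map_mul, hw, eps_xx, map_neg, eps_xx, neg_neg]
  | hX j w hw => rw [map_mul, map_mul, hw, eps_XX, eps_XX]

/-- Odd generators commute with everything up to the parity involution. -/
theorem mul_xx (v : V) (w : BB R b V) : w * xx v = xx v * eps R b V w := by
  induction w using BB_ind with
  | h1 => rw [map_one, one_mul, mul_one]
  | hadd u w hu hw => rw [add_mul, map_add, mul_add, hu, hw]
  | hsmul r w hw => rw [map_smul, smul_mul_assoc, mul_smul_comm, hw]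
  | hx v' w hw =>
    rw [mul_assoc, hw, map_mul, eps_xx, ← mul_assoc, ← mul_assoc, xx_mul_xx_swap v' v, mul_neg,
      neg_mul]
  | hX j w hw =>
    rw [mul_assoc, hw, map_mul, eps_XX, ← mul_assoc, ← mul_assoc, XX_mul_comm j (xx v)]

theorem con_eps (m : V →ₗ[R] R) (w : BB R b V) :
    con m (eps R b V w) = -eps R b V (con m w) := by
  induction w using BB_ind with
  | h1 => rw [map_one, con_one, map_zero, neg_zero]
  | hadd u w hu hw => rw [map_add, map_add, hu, hw, map_add, map_add, neg_add]
  | hsmul r w hw => rw [map_smul, map_smul, hw, map_smul, map_smul, smul_neg]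
  | hx v w hw =>
    rw [map_mul, eps_xx, neg_mul, map_neg, con_xx_mul, con_xx_mul, hw, map_sub, map_smul, map_mul,
      eps_xx, mul_neg, neg_mul]
  | hX j w hw => rw [map_mul, eps_XX, con_XX_mul, con_XX_mul, map_mul, eps_XX, hw, mul_neg]

theorem par_eps (j : Fin b) (w : BB R b V) :
    par j (eps R b V w) = eps R b V (par j w) := by
  induction w using BB_ind with
  | h1 => rw [map_one, par_one, map_zero]
  | hadd u w hu hw => rw [map_add, map_add, hu, hw, map_add, map_add]
  | hsmul r w hw => rw [map_smul, map_smul, hw, map_smul, map_smul]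
  | hx v w hw =>
    rw [map_mul, eps_xx, neg_mul, map_neg, par_xx_mul, par_xx_mul, hw, map_mul, eps_xx, neg_mul]
  | hX i w hw =>
    rw [map_mul, eps_XX, par_XX_mul, par_XX_mul, hw, map_add, map_mul, eps_XX]
    split_ifs
    · rfl
    · rw [map_zero]

theorem con_mul (m : V →ₗ[R] R) (u w : BB R b V) :
    con m (u * w) = con m u * w + eps R b V u * con m w := by
  induction u using BB_ind with
  | h1 => rw [one_mul, con_one, zero_mul, zero_add, map_one, one_mul]
  | hadd u u' hu hu' =>
    rw [add_mul, map_add, hu, hu', map_add, map_add, add_mul, add_mul]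
    abel
  | hsmul r u hu =>
    rw [smul_mul_assoc, map_smul, hu, map_smul, map_smul, smul_mul_assoc, smul_mul_assoc, smul_add]
  | hx v u hu =>
    rw [mul_assoc, con_xx_mul, hu, con_xx_mul, map_mul, eps_xx, mul_add, sub_mul, smul_mul_assoc,
      mul_assoc, neg_mul, neg_mul, mul_assoc]
    abel
  | hX j u hu =>
    rw [mul_assoc, con_XX_mul, hu, con_XX_mul, map_mul, eps_XX, mul_add, mul_assoc, mul_assoc]

theorem par_mul (j : Fin b) (u w : BB R b V) :
    par j (u * w) = par j u * w + u * par j w := by
  induction u using BB_ind with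
  | h1 => rw [one_mul, par_one, zero_mul, zero_add, one_mul]
  | hadd u u' hu hu' =>
    rw [add_mul, map_add, hu, hu', map_add, add_mul, add_mul]
    abel
  | hsmul r u hu =>
    rw [smul_mul_assoc, map_smul, hu, map_smul, smul_mul_assoc, smul_mul_assoc, smul_add]
  | hx v u hu =>
    rw [mul_assoc, par_xx_mul, hu, par_xx_mul, mul_add, mul_assoc, mul_assoc]
  | hX i u hu =>
    rw [mul_assoc, par_XX_mul, hu, par_XX_mul, mul_add, add_mul, mul_assoc, mul_assoc]
    split_ifs
    · abel
    · rw [zero_mul]
      abel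

theorem con_con (m n : V →ₗ[R] R) (w : BB R b V) :
    con m (con n w) = -con n (con m w) := by
  induction w using BB_ind with
  | h1 => rw [con_one, con_one, map_zero, map_zero, neg_zero]
  | hadd u w hu hw => rw [map_add, map_add, hu, hw, map_add, map_add, neg_add]
  | hsmul r w hw => rw [map_smul, map_smul, hw, map_smul, map_smul, smul_neg]
  | hx v w hw =>
    rw [con_xx_mul, con_xx_mul, map_sub, map_sub, map_smul, map_smul, con_xx_mul, con_xx_mul, hw,
      mul_neg]
    abel
  | hX j w hw => rw [con_XX_mul, con_XX_mul, con_XX_mul, con_XX_mul, hw, mul_neg]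

theorem con_self (m : V →ₗ[R] R) (w : BB R b V) : con m (con m w) = 0 := by
  induction w using BB_ind with
  | h1 => rw [con_one, map_zero]
  | hadd u w hu hw => rw [map_add, map_add, hu, hw, add_zero]
  | hsmul r w hw => rw [map_smul, map_smul, hw, smul_zero]
  | hx v w hw =>
    rw [con_xx_mul, map_sub, map_smul, con_xx_mul, hw, mul_zero, sub_zero, sub_self]
  | hX j w hw => rw [con_XX_mul, con_XX_mul, hw, mul_zero]

theorem con_par (m : V →ₗ[R] R) (j : Fin b) (w : BB R b V) :
    con m (par j w) = par j (con m w) := by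
  induction w using BB_ind with
  | h1 => rw [con_one, par_one, map_zero, map_zero]
  | hadd u w hu hw => rw [map_add, map_add, hu, hw, map_add, map_add]
  | hsmul r w hw => rw [map_smul, map_smul, hw, map_smul, map_smul]
  | hx v w hw =>
    rw [par_xx_mul, con_xx_mul, con_xx_mul, map_sub, map_smul, par_xx_mul, hw]
  | hX i w hw =>
    rw [par_XX_mul, con_XX_mul, map_add, par_XX_mul, con_XX_mul, hw]
    split_ifs
    · rfl
    · rw [map_zero]

theorem con_zero_left (w : BB R b V) : con (0 : V →ₗ[R] R) w = 0 := by
  induction w using BB_ind with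
  | h1 => rw [con_one]
  | hadd u w hu hw => rw [map_add, hu, hw, add_zero]
  | hsmul r w hw => rw [map_smul, hw, smul_zero]
  | hx v w hw => rw [con_xx_mul, hw, mul_zero, sub_zero, LinearMap.zero_apply, zero_smul]
  | hX j w hw => rw [con_XX_mul, hw, mul_zero]

theorem con_smul_left (r : R) (m : V →ₗ[R] R) (w : BB R b V) : con (r • m) w = r • con m w := by
  induction w using BB_ind with
  | h1 => rw [con_one, con_one, smul_zero]
  | hadd u w hu hw => rw [map_add, hu, hw, map_add, smul_add]
  | hsmul s w hw => rw [map_smul, hw, map_smul, smul_comm]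
  | hx v w hw =>
    rw [con_xx_mul, hw, con_xx_mul, smul_sub, LinearMap.smul_apply, smul_assoc, mul_smul_comm]
  | hX j w hw => rw [con_XX_mul, hw, con_XX_mul, mul_smul_comm]

section Emb

variable {V' : Type u} [AddCommGroup V'] [Module R V'] (f : V →ₗ[R] V')

theorem con_emb (m : V' →ₗ[R] R) (w : BB R b V) :
    con m (emb b f w) = emb b f (con (m ∘ₗ f) w) := by
  induction w using BB_ind with
  | h1 => rw [map_one, con_one, con_one, map_zero]
  | hadd u w hu hw => rw [map_add, map_add, hu, hw, map_add, map_add]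
  | hsmul r w hw => rw [map_smul, map_smul, hw, map_smul, map_smul]
  | hx v w hw =>
    rw [map_mul, emb_xx, con_xx_mul, hw, con_xx_mul, map_sub, map_smul, map_mul, emb_xx]
    rfl
  | hX j w hw => rw [map_mul, emb_XX, con_XX_mul, hw, con_XX_mul, map_mul, emb_XX]

theorem par_emb (j : Fin b) (w : BB R b V) :
    par j (emb b f w) = emb b f (par j w) := by
  induction w using BB_ind with
  | h1 => rw [map_one, par_one, par_one, map_zero]
  | hadd u w hu hw => rw [map_add, map_add, hu, hw, map_add, map_add]
  | hsmul r w hw => rw [map_smul, map_smul, hw, map_smul, map_smul]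
  | hx v w hw =>
    rw [map_mul, emb_xx, par_xx_mul, hw, par_xx_mul, map_mul, emb_xx]
  | hX i w hw =>
    rw [map_mul, emb_XX, par_XX_mul, hw, par_XX_mul, map_add, map_mul, emb_XX]
    split_ifs
    · rfl
    · rw [map_zero]

theorem eps_emb (w : BB R b V) : eps R b V' (emb b f w) = emb b f (eps R b V w) := by
  induction w using BB_ind with
  | h1 => rw [map_one, map_one, map_one, map_one]
  | hadd u w hu hw => rw [map_add, map_add, hu, hw, map_add, map_add]
  | hsmul r w hw => rw [map_smul, map_smul, hw, map_smul, map_smul]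
  | hx v w hw =>
    rw [map_mul, map_mul, emb_xx, eps_xx, hw, map_mul, map_mul, eps_xx, map_neg, emb_xx]
  | hX j w hw => rw [map_mul, map_mul, emb_XX, eps_XX, hw, map_mul, map_mul, eps_XX, emb_XX]

theorem emb_emb {V'' : Type u} [AddCommGroup V''] [Module R V''] (g : V' →ₗ[R] V'')
    (w : BB R b V) : emb b g (emb b f w) = emb b (g ∘ₗ f) w := by
  induction w using BB_ind with
  | h1 => rw [map_one, map_one, map_one]
  | hadd u w hu hw => rw [map_add, map_add, hu, hw, map_add]
  | hsmul r w hw => rw [map_smul, map_smul, hw, map_smul]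
  | hx v w hw => rw [map_mul, map_mul, emb_xx, emb_xx, hw, map_mul, emb_xx]; rfl
  | hX j w hw => rw [map_mul, map_mul, emb_XX, emb_XX, hw, map_mul, emb_XX]

theorem emb_id (w : BB R b V) : emb b (LinearMap.id : V →ₗ[R] V) w = w := by
  induction w using BB_ind with
  | h1 => rw [map_one]
  | hadd u w hu hw => rw [map_add, hu, hw]
  | hsmul r w hw => rw [map_smul, hw]
  | hx v w hw => rw [map_mul, emb_xx, hw]; rfl
  | hX j w hw => rw [map_mul, emb_XX, hw]

theorem emb_injective (g : V' →ₗ[R] V) (h : g ∘ₗ f = LinearMap.id) :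
    Function.Injective (emb b f) := by
  intro u w huw
  rw [← emb_id u, ← emb_id w, ← h, ← emb_emb, ← emb_emb, huw]

theorem emb_inE (q : ExteriorAlgebra R V) :
    emb b f (inE R b V q) = inE R b V' (ExteriorAlgebra.map f q) := by
  rw [inE_apply, emb_tm, inE_apply]

theorem emb_inP (p : MvPolynomial (Fin b) R) :
    emb b f (inP R b V p) = inP R b V' p := by
  rw [inP_apply, emb_tm, map_one, inP_apply]

end Emb

/-- Quadratic elements are even and central. -/
theorem quad_even (q : ExteriorAlgebra R V)
    (hq : q ∈ (LinearMap.range (ExteriorAlgebra.ι R (M := V))) ^ 2) :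
    eps R b V (inE R b V q) = inE R b V q ∧
      ∀ w : BB R b V, inE R b V q * w = w * inE R b V q := by
  rw [pow_two] at hq
  refine Submodule.mul_induction_on hq ?_ ?_
  · rintro _ ⟨v, rfl⟩ _ ⟨v', rfl⟩
    have h : inE R b V (ExteriorAlgebra.ι R v * ExteriorAlgebra.ι R v') = xx v * xx v' := by
      rw [map_mul]
      rfl
    rw [h]
    refine ⟨?_, fun w => ?_⟩
    · rw [map_mul, eps_xx, eps_xx, neg_mul_neg]
    · rw [mul_assoc, ← mul_assoc w, mul_xx v w, mul_assoc, mul_xx v' (eps R b V w), eps_eps]
  · rintro x y ⟨hx, hx'⟩ ⟨hy, hy'⟩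
    rw [map_add]
    refine ⟨?_, fun w => ?_⟩
    · rw [map_add, hx, hy]
    · rw [add_mul, mul_add, hx', hy']

/-- Polynomials are even and central. -/
theorem inP_even (p : MvPolynomial (Fin b) R) :
    eps R b V (inP R b V p) = inP R b V p ∧
      ∀ w : BB R b V, inP R b V p * w = w * inP R b V p := by
  refine ⟨?_, fun w => ?_⟩
  · rw [inP_apply, eps_tm, map_one]
  · rw [inP_apply]
    induction w using tm_ind with
    | hadd x y hx hy => rw [mul_add, add_mul, hx, hy]
    | ht x q => rw [tm_mul, tm_mul, one_mul, mul_one, mul_comm]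

end Pool.Agent.Helper44.QA
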