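import Mathlib
import Pool.Agent.Helper44.QA.Defs
import Pool.Agent.Helper44.QA.Rules
import Pool.Agent.Helper44.QA.Calc

/-!
PROJECT QA. The differential `Dat.D`: values, Leibniz rule, commutation rules. DONE.
-/

set_option autoImplicit false

open scoped TensorProduct

namespace Pool.Agent.Helper44.QA

universe u

variable {R : Type u} [CommRing R] {b c : ℕ} {U : Type u} [AddCommGroup U] [Module R U]
  (T : Dat R b c U)

theorem D_apply (w : BB R b (U × (Fin c → R))) :
    T.D w = con (T.phi ∘ₗ LinearMap.fst R U (Fin c → R)) w +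
      (∑ j, xx (T.s j, 0) * par j w) +
      ∑ k, inA R b c U (T.z k) * con (lam R U (LinearMap.proj k)) w := by
  unfold Dat.D
  simp only [LinearMap.add_apply, LinearMap.sum_apply, LinearMap.comp_apply,
    LinearMap.mulLeft_apply]

theorem dA_apply (w : BB R b U) :
    T.dA w = con T.phi w + ∑ j, xx (T.s j) * par j w := by
  unfold Dat.dA
  simp only [LinearMap.add_apply, LinearMap.sum_apply, LinearMap.comp_apply,
    LinearMap.mulLeft_apply]

theorem z_even (hq : ∀ k, T.q k ∈ (LinearMap.range (ExteriorAlgebra.ι R (M := U))) ^ 2)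
    (k : Fin c) : eps R b U (T.z k) = T.z k ∧ ∀ w, T.z k * w = w * T.z k := by
  obtain ⟨h1, h2⟩ := quad_even (b := b) (T.q k) (hq k)
  obtain ⟨h3, h4⟩ := inP_even (V := U) (T.rho k)
  refine ⟨?_, fun w => ?_⟩
  · unfold Dat.z
    rw [map_add, h1, h3]
  · unfold Dat.z
    rw [add_mul, mul_add, h2, h4]

theorem quad_map {V V' : Type u} [AddCommGroup V] [Module R V] [AddCommGroup V'] [Module R V']
    (f : V →ₗ[R] V') (q : ExteriorAlgebra R V)
    (hq : q ∈ (LinearMap.range (ExteriorAlgebra.ι R (M := V))) ^ 2) :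
    ExteriorAlgebra.map f q ∈ (LinearMap.range (ExteriorAlgebra.ι R (M := V'))) ^ 2 := by
  rw [pow_two] at hq ⊢
  refine Submodule.mul_induction_on hq ?_ ?_
  · rintro _ ⟨v, rfl⟩ _ ⟨v', rfl⟩
    rw [map_mul, ExteriorAlgebra.map_apply_ι, ExteriorAlgebra.map_apply_ι]
    exact Submodule.mul_mem_mul ⟨_, rfl⟩ ⟨_, rfl⟩
  · intro x y hx hy
    rw [map_add]
    exact Submodule.add_mem _ hx hy

theorem inA_z_even (hq : ∀ k, T.q k ∈ (LinearMap.range (ExteriorAlgebra.ι R (M := U))) ^ 2)
    (k : Fin c) : eps R b _ (inA R b c U (T.z k)) = inA R b c U (T.z k) ∧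
      ∀ w, inA R b c U (T.z k) * w = w * inA R b c U (T.z k) := by
  have h := z_even T hq k
  refine ⟨?_, fun w => ?_⟩
  · unfold inA
    rw [eps_emb, h.1]
  · unfold inA Dat.z
    rw [map_add, emb_inE, emb_inP, add_mul, mul_add, (inP_even (T.rho k)).2,
      (quad_even _ (quad_map _ _ (hq k))).2]

theorem D_one : T.D 1 = 0 := by
  rw [D_apply, con_one, Finset.sum_eq_zero, Finset.sum_eq_zero, add_zero, add_zero]
  · intro k _
    rw [con_one, mul_zero]
  · intro j _
    rw [par_one, mul_zero]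

theorem D_xx_mul (hq : ∀ k, T.q k ∈ (LinearMap.range (ExteriorAlgebra.ι R (M := U))) ^ 2)
    (v : U × (Fin c → R)) (w : BB R b (U × (Fin c → R))) :
    T.D (xx v * w) = T.phi v.1 • w + (∑ k, v.2 k • inA R b c U (T.z k)) * w - xx v * T.D w := by
  rw [D_apply, D_apply, con_xx_mul]
  have h1 : ∑ j, xx (T.s j, 0) * par j (xx v * w) = -(xx v * ∑ j, xx (T.s j, 0) * par j w) := by
    rw [Finset.mul_sum, ← Finset.sum_neg_distrib]
    refine Finset.sum_congr rfl fun j _ => ?_
    rw [par_xx_mul, ← mul_assoc, ← mul_assoc, xx_mul_xx_swap, neg_mul]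
  have h2 : ∑ k, inA R b c U (T.z k) * con (lam R U (LinearMap.proj k)) (xx v * w) =
      (∑ k, v.2 k • inA R b c U (T.z k)) * w -
        xx v * ∑ k, inA R b c U (T.z k) * con (lam R U (LinearMap.proj k)) w := by
    rw [Finset.mul_sum, Finset.sum_mul, ← Finset.sum_sub_distrib]
    refine Finset.sum_congr rfl fun k _ => ?_
    rw [con_xx_mul, mul_sub, mul_smul_comm, smul_mul_assoc, ← mul_assoc, ← mul_assoc,
      (inA_z_even T hq k).2 (xx v)]
    rfl
  rw [h1, h2, mul_add, mul_add]
  change T.phi v.1 • w - _ + _ + _ = _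
  abel

theorem D_XX_mul (j : Fin b) (w : BB R b (U × (Fin c → R))) :
    T.D (XX j * w) = xx (T.s j, 0) * w + XX j * T.D w := by
  rw [D_apply, D_apply, con_XX_mul]
  have h1 : ∑ i, xx (T.s i, 0) * par i (XX j * w) =
      xx (T.s j, 0) * w + XX j * ∑ i, xx (T.s i, 0) * par i w := by
    have h3 : ∀ i, xx (T.s i, 0) * par i (XX j * w) =
        (if j = i then xx (T.s i, 0) * w else 0) + XX j * (xx (T.s i, 0) * par i w) := by
      intro i
      rw [par_XX_mul, mul_add, mul_ite, mul_zero, ← mul_assoc, ← mul_assoc,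
        XX_mul_comm j (xx (T.s i, 0))]
    rw [Finset.sum_congr rfl fun i _ => h3 i, Finset.sum_add_distrib, Finset.sum_ite_eq,
      if_pos (Finset.mem_univ _), Finset.mul_sum]
  have h2 : ∑ k, inA R b c U (T.z k) * con (lam R U (LinearMap.proj k)) (XX j * w) =
      XX j * ∑ k, inA R b c U (T.z k) * con (lam R U (LinearMap.proj k)) w := by
    rw [Finset.mul_sum]
    refine Finset.sum_congr rfl fun k _ => ?_
    rw [con_XX_mul, ← mul_assoc, ← mul_assoc, XX_mul_comm]
  rw [h1, h2, mul_add, mul_add]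
  abel

/-- The Leibniz rule. -/
theorem D_mul (hq : ∀ k, T.q k ∈ (LinearMap.range (ExteriorAlgebra.ι R (M := U))) ^ 2)
    (u w : BB R b (U × (Fin c → R))) :
    T.D (u * w) = T.D u * w + eps R b _ u * T.D w := by
  induction u using BB_ind with
  | h1 => rw [one_mul, D_one, zero_mul, zero_add, map_one, one_mul]
  | hadd u u' hu hu' =>
    rw [add_mul, map_add, hu, hu', map_add, map_add, add_mul, add_mul]
    abel
  | hsmul r u hu =>
    rw [smul_mul_assoc, map_smul, hu, map_smul, map_smul, smul_mul_assoc, smul_mul_assoc, smul_add]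
  | hx v u hu =>
    rw [mul_assoc, D_xx_mul T hq, hu, D_xx_mul T hq, map_mul, eps_xx, mul_add, sub_mul, add_mul,
      smul_mul_assoc, mul_assoc, mul_assoc, neg_mul, neg_mul, mul_assoc]
    abel
  | hX j u hu =>
    rw [mul_assoc, D_XX_mul, hu, D_XX_mul, map_mul, eps_XX, mul_add, add_mul, mul_assoc, mul_assoc,
      mul_assoc]
    abel

theorem D_eps (hq : ∀ k, T.q k ∈ (LinearMap.range (ExteriorAlgebra.ι R (M := U))) ^ 2)
    (w : BB R b (U × (Fin c → R))) : T.D (eps R b _ w) = -eps R b _ (T.D w) := by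
  rw [D_apply, D_apply, map_add, map_add, map_sum, map_sum, neg_add, neg_add, con_eps,
    ← Finset.sum_neg_distrib, ← Finset.sum_neg_distrib]
  congr 1
  · congr 1
    refine Finset.sum_congr rfl fun j _ => ?_
    rw [par_eps, map_mul, eps_xx, neg_mul, neg_neg]
  · refine Finset.sum_congr rfl fun k _ => ?_
    rw [con_eps, map_mul, (inA_z_even T hq k).1, mul_neg]

/-- Contractions with functionals of the last generators anticommute with `D`. -/
theorem con_D (hq : ∀ k, T.q k ∈ (LinearMap.range (ExteriorAlgebra.ι R (M := U))) ^ 2)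
    (m : (Fin c → R) →ₗ[R] R) (w : BB R b (U × (Fin c → R))) :
    con (lam R U m) (T.D w) = -T.D (con (lam R U m) w) := by
  rw [D_apply, D_apply, map_add, map_add, map_sum, map_sum, neg_add, neg_add, con_con,
    ← Finset.sum_neg_distrib, ← Finset.sum_neg_distrib]
  congr 1
  · congr 1
    refine Finset.sum_congr rfl fun j _ => ?_
    have h : lam R U m (T.s j, 0) = 0 := map_zero m
    rw [con_xx_mul, con_par, h, zero_smul, zero_sub]
  · refine Finset.sum_congr rfl fun k _ => ?_
    have h : con (lam R U m) (inA R b c U (T.z k)) = 0 := by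
      have h0 : lam R U m ∘ₗ LinearMap.inl R U (Fin c → R) = 0 := by
        ext v
        exact map_zero m
      unfold inA
      rw [con_emb, h0, con_zero_left, map_zero]
    rw [con_mul, h, zero_mul, zero_add, (inA_z_even T hq k).1, con_con, mul_neg]

theorem D_inA (w : BB R b U) : T.D (inA R b c U w) = inA R b c U (T.dA w) := by
  rw [D_apply, dA_apply, map_add, map_sum]
  have h1 : (T.phi ∘ₗ LinearMap.fst R U (Fin c → R)) ∘ₗ LinearMap.inl R U (Fin c → R) =
      T.phi := by
    ext v
    rfl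
  have h2 : ∀ k, con (lam R U (LinearMap.proj k : (Fin c → R) →ₗ[R] R))
      (inA R b c U w) = 0 := by
    intro k
    have h0 : lam R U (LinearMap.proj k : (Fin c → R) →ₗ[R] R) ∘ₗ
        LinearMap.inl R U (Fin c → R) = 0 := by
      ext v
      rfl
    unfold inA
    rw [con_emb, h0, con_zero_left, map_zero]
  have h3 : ∑ k, inA R b c U (T.z k) * con (lam R U (LinearMap.proj k)) (inA R b c U w) = 0 :=
    Finset.sum_eq_zero fun k _ => by rw [h2 k, mul_zero]
  rw [h3, add_zero]
  unfold inA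
  rw [con_emb, h1]
  congr 1
  refine Finset.sum_congr rfl fun j _ => ?_
  rw [par_emb, map_mul, emb_xx]
  rfl

theorem inA_injective : Function.Injective (inA R b c U) :=
  emb_injective _ (LinearMap.fst R U (Fin c → R)) (LinearMap.fst_comp_inl R U (Fin c → R))

end Pool.Agent.Helper44.QA
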