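import Mathlib
import Pool.Agent.Helper44.QA.Defs
import Pool.Agent.Helper44.QA.Rules
import Pool.Agent.Helper44.QA.Leib

/-!
PROJECT QA, module QA-05. Coefficients of elements of `BB R b U` with respect to monomials.

PROOF. `cf α = (TensorProduct.rid R _) ∘ (TensorProduct.map id (MvPolynomial.lcoeff R α))` (already
defined). All identities are additive in `w`, check them for `w = tm x p` (`tm_ind`).
`cf_par`: `coeff α (pderiv j p) = (α j + 1) * coeff (α + single j 1) p` (`MvPolynomial` induction on
monomials, `MvPolynomial.pderiv_monomial`; or `MvPolynomial.coeff_pderiv` if present).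
`cf_sum`: `w = ∑ α ∈ s, tm (cf α w) (monomial α 1)`, `s` containing all `α` with nonzero coefficient:
for `tm x p` take `p.support`; for a sum take the union, extra terms vanish. Or use
`TensorProduct.equivFinsuppOfBasisRight (MvPolynomial.basisMonomials (Fin b) R)`.
`cf_mem`: span induction; `cf α (tm x p) = coeff α p • x`. `mem_CP`: from `cf_sum`.
`CP_dA`: for `tm x p`, `x ∈ C`: `con φ (tm x p) = tm (ctr φ x) p`, `xx (s j) * par j (tm x p) =
tm (ι (s j) * x) (pderiv j p)`.
-/

set_option autoImplicit false

open scoped TensorProduct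

namespace Pool.Agent.Helper44.QA

universe u

variable {R : Type u} [CommRing R] {b : ℕ} {U : Type u} [AddCommGroup U] [Module R U]

/-- Coefficient of the monomial `α`. -/
noncomputable def cf (α : Fin b →₀ ℕ) : BB R b U →ₗ[R] ExteriorAlgebra R U :=
  (TensorProduct.rid R (ExteriorAlgebra R U)).toLinearMap ∘ₗ
    TensorProduct.map LinearMap.id (MvPolynomial.lcoeff R α)

theorem cf_tm (α : Fin b →₀ ℕ) (x : ExteriorAlgebra R U) (p : MvPolynomial (Fin b) R) :
    cf α (tm x p) = p.coeff α • x := by
  change (TensorProduct.rid R (ExteriorAlgebra R U)) (x ⊗ₜ[R] p.coeff α) = _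
  rw [TensorProduct.rid_tmul]

theorem cf_con (φ : U →ₗ[R] R) (α : Fin b →₀ ℕ) (w : BB R b U) :
    cf α (con φ w) = ctr φ (cf α w) := by
  induction w using tm_ind with
  | hadd u w hu hw => rw [map_add, map_add, hu, hw, map_add, map_add]
  | ht x p => rw [con_tm, cf_tm, cf_tm, map_smul]

theorem cf_xx_mul (u : U) (α : Fin b →₀ ℕ) (w : BB R b U) :
    cf α (xx u * w) = ExteriorAlgebra.ι R u * cf α w := by
  induction w using tm_ind with
  | hadd u w hu hw => rw [mul_add, map_add, hu, hw, map_add, mul_add]
  | ht x p => rw [xx_mul_tm, cf_tm, cf_tm, mul_smul_comm]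

theorem cf_par (j : Fin b) (α : Fin b →₀ ℕ) (w : BB R b U) :
    cf α (par j w) = (α j + 1) • cf (α + Finsupp.single j 1) w := by
  induction w using tm_ind with
  | hadd u w hu hw => rw [map_add, map_add, hu, hw, map_add, smul_add]
  | ht x p =>
    rw [par_tm, cf_tm, cf_tm]
    induction p using MvPolynomial.induction_on' with
    | add p q hp hq =>
      rw [map_add, MvPolynomial.coeff_add, add_smul, hp, hq, MvPolynomial.coeff_add, ← smul_add,
        ← add_smul]
    | monomial β r =>
      rw [MvPolynomial.pderiv_monomial, MvPolynomial.coeff_monomial, MvPolynomial.coeff_monomial]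
      by_cases h : β = α + Finsupp.single j 1
      · subst h
        rw [if_pos rfl, if_pos]
        · rw [Finsupp.add_apply, Finsupp.single_eq_same, mul_comm, mul_smul,
            ← Nat.cast_smul_eq_nsmul R]
        · rw [add_tsub_cancel_right]
      · rw [if_neg h, zero_smul, smul_zero]
        by_cases h2 : β - Finsupp.single j 1 = α
        · rw [if_pos h2]
          have h3 : β j = 0 := by
            by_contra h3
            apply h
            rw [← h2, tsub_add_cancel_of_le]
            rw [Finsupp.single_le_iff]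
            omega
          rw [h3, Nat.cast_zero, mul_zero, zero_smul]
        · rw [if_neg h2, zero_smul]

theorem cf_sum (w : BB R b U) :
    ∃ s : Finset (Fin b →₀ ℕ), w = ∑ α ∈ s, tm (cf α w) (MvPolynomial.monomial α 1) ∧
      ∀ α ∉ s, cf α w = 0 := by
  classical
  induction w using tm_ind with
  | hadd u w hu hw =>
    obtain ⟨s, hs1, hs2⟩ := hu
    obtain ⟨t, ht1, ht2⟩ := hw
    refine ⟨s ∪ t, ?_, ?_⟩
    · have h1 : u = ∑ α ∈ s ∪ t, tm (cf α u) (MvPolynomial.monomial α 1) := by
        nth_rewrite 1 [hs1]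
        refine Finset.sum_subset Finset.subset_union_left fun α _ hα => ?_
        rw [hs2 α hα, zero_tm]
      have h2 : w = ∑ α ∈ s ∪ t, tm (cf α w) (MvPolynomial.monomial α 1) := by
        nth_rewrite 1 [ht1]
        refine Finset.sum_subset Finset.subset_union_right fun α _ hα => ?_
        rw [ht2 α hα, zero_tm]
      nth_rewrite 1 [h1, h2]
      rw [← Finset.sum_add_distrib]
      refine Finset.sum_congr rfl fun α _ => ?_
      rw [map_add, add_tm]
    · intro α hα
      rw [Finset.mem_union, not_or] at hα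
      rw [map_add, hs2 α hα.1, ht2 α hα.2, add_zero]
  | ht x p =>
    refine ⟨p.support, ?_, ?_⟩
    · have h : tm x p = tm x (∑ α ∈ p.support, MvPolynomial.monomial α (p.coeff α)) := by
        rw [← MvPolynomial.as_sum p]
      have h2 : ∀ s : Finset (Fin b →₀ ℕ), tm x (∑ α ∈ s, MvPolynomial.monomial α (p.coeff α)) =
          ∑ α ∈ s, tm (cf α (tm x p)) (MvPolynomial.monomial α 1) := by
        intro s
        induction s using Finset.induction_on with
        | empty => rw [Finset.sum_empty, Finset.sum_empty, tm_zero]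
        | insert a s ha ih =>
          rw [Finset.sum_insert ha, Finset.sum_insert ha, tm_add, ih, cf_tm, smul_tm, ← tm_smul,
            MvPolynomial.smul_monomial, smul_eq_mul, mul_one]
      nth_rewrite 1 [h]
      exact h2 _
    · intro α hα
      rw [cf_tm, MvPolynomial.notMem_support_iff.1 hα, zero_smul]

theorem cf_mem (C : Submodule R (ExteriorAlgebra R U)) (w : BB R b U) (hw : w ∈ CP b C)
    (α : Fin b →₀ ℕ) : cf α w ∈ C := by
  unfold CP at hw
  refine Submodule.span_induction (p := fun w _ => cf α w ∈ C) ?_ ?_ ?_ ?_ hw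
  · rintro _ ⟨x, hx, p, rfl⟩
    rw [cf_tm]
    exact Submodule.smul_mem _ _ hx
  · rw [map_zero]
    exact Submodule.zero_mem _
  · intro x y _ _ hx hy
    rw [map_add]
    exact Submodule.add_mem _ hx hy
  · intro r x _ hx
    rw [map_smul]
    exact Submodule.smul_mem _ _ hx

theorem mem_CP (C : Submodule R (ExteriorAlgebra R U)) (w : BB R b U)
    (hw : ∀ α, cf α w ∈ C) : w ∈ CP b C := by
  obtain ⟨s, hs, -⟩ := cf_sum w
  rw [hs]
  exact Submodule.sum_mem _ fun α _ => Submodule.subset_span ⟨_, hw α, _, rfl⟩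

theorem CP_dA {c : ℕ} (T : Dat R b c U) (C : Submodule R (ExteriorAlgebra R U))
    (h1 : ∀ x ∈ C, ctr T.phi x ∈ C) (h2 : ∀ u : U, ∀ x ∈ C, ExteriorAlgebra.ι R u * x ∈ C)
    (w : BB R b U) (hw : w ∈ CP b C) : T.dA w ∈ CP b C := by
  apply mem_CP
  intro α
  rw [dA_apply, map_add, map_sum, cf_con]
  refine Submodule.add_mem _ (h1 _ (cf_mem C w hw α)) (Submodule.sum_mem _ fun j _ => ?_)
  rw [cf_xx_mul, cf_par]
  exact h2 _ _ (Submodule.smul_of_tower_mem _ _ (cf_mem C w hw _))

end Pool.Agent.Helper44.QA
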