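import Mathlib
import Pool.Agent.Helper44.QA.Defs
import Pool.Agent.Helper44.QA.Rules
import Pool.Agent.Helper44.QA.Calc
import Pool.Agent.Helper44.QA.Leib

/-!
PROJECT QA, module QA-12. The ideal `range phi` and the homology.

PROOF. `phi_kill`: `x` is the class of `w` (`D w = 0`, `eps w = e w`), `D (xx (u, 0) * w) =
phi u • w - xx (u, 0) * D w = phi u • w` (`D_xx_mul`, the sum vanishes as the second component is
zero) and `eps (xx (u, 0) * w) = -e • (xx (u, 0) * w)`.
`of_boundary`: let `aug : BB R b V →ₐ[R] R` be the augmentation (all generators to zero):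
`Algebra.TensorProduct.lift` of `ExteriorAlgebra.algebraMapInv` and `MvPolynomial.aeval 0`
(commuting images), or `Algebra.TensorProduct.rid`/`lmul'` of `Algebra.TensorProduct.map`.
`aug (con m w) ∈ (image of m)`: for `m = phi ∘ fst`: `BB_ind`: `con m (xx v * w) = m v • w -
xx v * ..`, `aug` of it is `m v * aug w ∈ range phi`; `con m (XX j * w) = XX j * ..` has `aug = 0`.
`aug (xx _ * _) = 0`, `aug (inA (z k)) = 0` (`q k` quadratic: products of two `ι`; `rho k` without
constant term). So `aug (D w) ∈ range phi` by `D_apply`, and `aug (algebraMap R _ r) = r`.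
`of_kill`: the class of `1` in `HH T 1` (`D_one`, `eps 1 = 1`) is killed by `r`: `r • 1` is a boundary.
-/

set_option autoImplicit false

namespace Pool.Agent.Helper44.QA

open scoped TensorProduct

universe u

variable {R : Type u} [CommRing R] {b c : ℕ} {U : Type u} [AddCommGroup U] [Module R U]
  (T : Dat R b c U) (hT : Good T)

/-- The augmentation. -/
private noncomputable def aug (R : Type u) [CommRing R] (b : ℕ) (V : Type u) [AddCommGroup V]
    [Module R V] : BB R b V →ₐ[R] R :=
  (Algebra.TensorProduct.lift (ExteriorAlgebra.algebraMapInv (R := R) (M := V))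
    (MvPolynomial.aeval (fun _ => (0 : R))) (fun _ _ => mul_comm _ _) :
      ExteriorAlgebra R V ⊗[R] MvPolynomial (Fin b) R →ₐ[R] R)

private theorem aug_tm {V : Type u} [AddCommGroup V] [Module R V] (x : ExteriorAlgebra R V)
    (p : MvPolynomial (Fin b) R) :
    aug R b V (tm x p) = ExteriorAlgebra.algebraMapInv x * MvPolynomial.aeval (fun _ => (0 : R)) p :=
  Algebra.TensorProduct.lift_tmul _ _ _ _ _

private theorem aug_xx {V : Type u} [AddCommGroup V] [Module R V] (v : V) :
    aug R b V (xx v) = 0 := by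
  unfold xx
  rw [aug_tm]
  have : ExteriorAlgebra.algebraMapInv (ExteriorAlgebra.ι R v) = 0 := by
    unfold ExteriorAlgebra.algebraMapInv
    rw [ExteriorAlgebra.lift_ι_apply, LinearMap.zero_apply]
  rw [this, zero_mul]

private theorem aug_XX {V : Type u} [AddCommGroup V] [Module R V] (j : Fin b) :
    aug R b V (XX j) = 0 := by
  unfold XX
  rw [aug_tm, MvPolynomial.aeval_X, mul_zero]

private theorem aug_con {V : Type u} [AddCommGroup V] [Module R V] (m : V →ₗ[R] R)
    (w : BB R b V) : aug R b V (con m w) ∈ (LinearMap.range m : Ideal R) := by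
  induction w using BB_ind with
  | h1 => rw [con_one, map_zero]; exact Submodule.zero_mem _
  | hadd u w hu hw => rw [map_add, map_add]; exact Submodule.add_mem _ hu hw
  | hsmul r w hw => rw [map_smul, map_smul]; exact Submodule.smul_mem _ _ hw
  | hx v w hw =>
    rw [con_xx_mul, map_sub, map_mul, aug_xx, zero_mul, sub_zero, map_smul, smul_eq_mul, mul_comm]
    exact Submodule.smul_mem _ _ ⟨v, rfl⟩
  | hX j w hw => rw [con_XX_mul, map_mul, aug_XX, zero_mul]; exact Submodule.zero_mem _

include hT

theorem phi_kill (e : R) (u : U) (x : HH T e) : T.phi u • x = 0 := by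
  obtain ⟨⟨w, hw⟩, rfl⟩ := Submodule.Quotient.mk_surjective _ x
  rw [← Submodule.Quotient.mk_smul, Submodule.Quotient.mk_eq_zero]
  change T.phi u • w ∈ Bm _ _ _
  rw [mem_Zm] at hw
  obtain ⟨hw1, hw2⟩ := hw
  rw [mem_Bm]
  refine ⟨xx (u, 0) * w, ?_, ?_⟩
  · change eps R b _ _ = _
    have hw3 : eps R b _ w = e • w := hw2
    rw [map_mul, eps_xx, hw3, neg_mul, mul_smul_comm]
  · have h2 : ∑ k, ((u, 0) : U × (Fin c → R)).2 k • inA R b c U (T.z k) = 0 :=
      Finset.sum_eq_zero fun k _ => zero_smul _ _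
    rw [D_xx_mul T hT.quad, hw1, mul_zero, sub_zero, h2, zero_mul, add_zero]

theorem of_boundary (r : R) (w : BB R b (U × (Fin c → R)))
    (h : T.D w = algebraMap R (BB R b (U × (Fin c → R))) r) :
    r ∈ (LinearMap.range T.phi : Ideal R) := by
  have h1 : aug R b _ (T.D w) = r := by rw [h, AlgHom.commutes]; rfl
  rw [← h1, D_apply, map_add, map_add]
  have h2 : aug R b _ (∑ j, xx (T.s j, 0) * par j w) = 0 := by
    rw [map_sum]
    refine Finset.sum_eq_zero fun j _ => ?_
    rw [map_mul, aug_xx, zero_mul]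
  have hz : ∀ k, aug R b _ (inA R b c U (T.z k)) = 0 := by
    intro k
    unfold inA Dat.z
    rw [map_add, emb_inE, emb_inP, map_add, inP_apply, aug_tm, inE_apply, aug_tm, map_one, map_one,
      one_mul, mul_one]
    have h3 : (MvPolynomial.aeval (fun _ => (0 : R)) : MvPolynomial (Fin b) R →ₐ[R] R)
        (T.rho k) = 0 := by
      rw [MvPolynomial.aeval_zero', hT.cst k, map_zero]
    have h5 : ∀ q : ExteriorAlgebra R (U × (Fin c → R)),
        q ∈ (LinearMap.range (ExteriorAlgebra.ι R (M := U × (Fin c → R)))) ^ 2 →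
          ExteriorAlgebra.algebraMapInv q = 0 := by
      intro q hq
      rw [pow_two] at hq
      refine Submodule.mul_induction_on hq ?_ ?_
      · rintro _ ⟨v, rfl⟩ _ ⟨v', rfl⟩
        have : ExteriorAlgebra.algebraMapInv (ExteriorAlgebra.ι R v) = 0 := by
          unfold ExteriorAlgebra.algebraMapInv
          rw [ExteriorAlgebra.lift_ι_apply, LinearMap.zero_apply]
        rw [map_mul, this, zero_mul]
      · intro x y hx hy
        rw [map_add, hx, hy, add_zero]
    rw [h3, h5 _ (quad_map _ _ (hT.quad k)), add_zero]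
  have h6 : aug R b _ (∑ k, inA R b c U (T.z k) * con (lam R U (LinearMap.proj k)) w) = 0 := by
    rw [map_sum]
    refine Finset.sum_eq_zero fun k _ => ?_
    rw [map_mul, hz, zero_mul]
  rw [h2, h6, add_zero, add_zero]
  obtain ⟨v, hv⟩ := aug_con (T.phi ∘ₗ LinearMap.fst R U (Fin c → R)) w
  exact ⟨v.1, hv⟩

theorem of_kill (r : R) (h : ∀ x : HH T 1, r • x = 0) :
    r ∈ (LinearMap.range T.phi : Ideal R) := by
  have h1 : (1 : BB R b (U × (Fin c → R))) ∈ Zm T.D (eps R b _).toLinearMap (1 : R) := by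
    rw [mem_Zm]
    refine ⟨D_one T, ?_⟩
    change eps R b _ 1 = _
    rw [map_one, one_smul]
  have h2 := h (Submodule.Quotient.mk ⟨1, h1⟩)
  rw [← Submodule.Quotient.mk_smul, Submodule.Quotient.mk_eq_zero] at h2
  change r • (1 : BB R b (U × (Fin c → R))) ∈ Bm _ _ _ at h2
  rw [mem_Bm] at h2
  obtain ⟨v, -, hv⟩ := h2
  refine of_boundary T hT r v ?_
  rw [hv, Algebra.algebraMap_eq_smul_one]

end Pool.Agent.Helper44.QA
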