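import Mathlib
import Pool.Agent.Helper44.QA.Defs

/-!
PROJECT QA, module QA-09. Lengths of kernels and cokernels.

PROOF. `len_ker`: `l(N) = l(ker z) + l(range z) = l(range z) + l(N / range z)`
(`Module.length_eq_add_of_exact` for the two exact sequences; `ENat` cancellation as `l(N) ≠ ⊤`).
`len_nilp`: induction on `n`; show `l(N / range (z ^ n)) ≠ ⊤` for all `n`: `range (z ^ (n + 1)) ≤
range (z ^ n)`, and `z ^ n` induces a surjection `N / range z → range (z ^ n) / range (z ^ (n + 1))`;
`l(N / range (z ^ (n + 1))) ≤ l(range (z ^ n) / ..) + l(N / range (z ^ n))`. Alternatively: the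
kernel of the surjection `N / range (z ^ (n + 1)) → N / range z` is the image of `N / range (z ^ n)`
under the map induced by `z`. At the end `z ^ n = 0`.
`fin_exact`: `Module.Finite` of an extension (`Module.Finite.of_submodule_quotient`,
`Submodule.fg_of_fg_map_of_fg_inf_ker`, or `isNoetherian_of_range_eq_ker`).
-/

set_option autoImplicit false

namespace Pool.Agent.Helper44.QA

universe u

variable {R : Type u} [CommRing R] {N : Type u} [AddCommGroup N] [Module R N]

theorem len_ker (z : N →ₗ[R] N) (h : Module.length R N ≠ ⊤) :
    Module.length R (N ⧸ LinearMap.range z) = Module.length R (LinearMap.ker z) := by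
  have h1 := Module.length_eq_add_of_exact (LinearMap.ker z).subtype z.rangeRestrict
    (LinearMap.ker z).injective_subtype z.surjective_rangeRestrict (by
      rw [LinearMap.exact_iff, LinearMap.ker_rangeRestrict, Submodule.range_subtype])
  have h2 := Module.length_eq_add_of_exact (LinearMap.range z).subtype (LinearMap.range z).mkQ
    (LinearMap.range z).injective_subtype (LinearMap.range z).mkQ_surjective (by
      rw [LinearMap.exact_iff, Submodule.ker_mkQ, Submodule.range_subtype])
  have h3 : Module.length R (LinearMap.range z) ≠ ⊤ := by
    intro h4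
    rw [h4, top_add] at h2
    exact h h2
  rw [h2, add_comm] at h1
  exact ENat.add_left_injective_of_ne_top h3 h1

private theorem len_le {A B C : Type u} [AddCommGroup A] [Module R A]
    [AddCommGroup B] [Module R B] [AddCommGroup C] [Module R C] (f : A →ₗ[R] B) (g : B →ₗ[R] C)
    (h : LinearMap.range f = LinearMap.ker g) :
    Module.length R B ≤ Module.length R A + Module.length R C := by
  rw [Module.length_eq_add_of_exact (LinearMap.ker g).subtype g.rangeRestrict
    (LinearMap.ker g).injective_subtype g.surjective_rangeRestrict (by
      rw [LinearMap.exact_iff, LinearMap.ker_rangeRestrict, Submodule.range_subtype])]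
  refine add_le_add ?_ (Module.length_le_of_injective (LinearMap.range g).subtype
    (LinearMap.range g).injective_subtype)
  rw [← h]
  exact Module.length_le_of_surjective f.rangeRestrict f.surjective_rangeRestrict

theorem len_nilp (z : N →ₗ[R] N) (n : ℕ) (hz : z ^ n = 0)
    (h : Module.length R (N ⧸ LinearMap.range z) ≠ ⊤) : Module.length R N ≠ ⊤ := by
  have key : ∀ m : ℕ, Module.length R (N ⧸ LinearMap.range (z ^ m)) ≠ ⊤ := by
    intro m
    induction m with
    | zero =>
      have : Subsingleton (N ⧸ LinearMap.range (z ^ 0)) := by
        rw [Submodule.Quotient.subsingleton_iff, pow_zero]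
        exact LinearMap.range_id
      rw [Module.length_eq_zero]
      exact ENat.zero_ne_top
    | succ m ih =>
      have hle : LinearMap.range z ≤ (LinearMap.range (z ^ (m + 1))).comap (z ^ m) := by
        rintro _ ⟨x, rfl⟩
        exact ⟨x, by rw [pow_succ]; rfl⟩
      have hle' : LinearMap.range (z ^ (m + 1)) ≤ (LinearMap.range (z ^ m)).comap LinearMap.id := by
        rintro _ ⟨x, rfl⟩
        exact ⟨z x, by rw [pow_succ]; rfl⟩
      have h1 := len_le ((LinearMap.range z).mapQ (LinearMap.range (z ^ (m + 1))) (z ^ m) hle)
        ((LinearMap.range (z ^ (m + 1))).mapQ (LinearMap.range (z ^ m)) LinearMap.id hle') (by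
          ext x
          obtain ⟨x, rfl⟩ := Submodule.Quotient.mk_surjective _ x
          constructor
          · rintro ⟨y, hy⟩
            obtain ⟨y, rfl⟩ := Submodule.Quotient.mk_surjective _ y
            rw [← hy]
            show Submodule.Quotient.mk ((z ^ m) y) = 0
            rw [Submodule.Quotient.mk_eq_zero]
            exact ⟨y, rfl⟩
          · intro hx
            have h2 : Submodule.Quotient.mk (p := LinearMap.range (z ^ m)) x = 0 := hx
            rw [Submodule.Quotient.mk_eq_zero] at h2
            obtain ⟨y, hy⟩ := h2
            refine ⟨Submodule.Quotient.mk y, ?_⟩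
            show Submodule.Quotient.mk ((z ^ m) y) = _
            rw [hy])
      exact ne_top_of_le_ne_top (WithTop.add_ne_top.2 ⟨h, ih⟩) h1
  have h1 := key n
  rw [hz, LinearMap.range_zero] at h1
  rwa [(Submodule.quotEquivOfEqBot (⊥ : Submodule R N) rfl).length_eq] at h1

theorem fin_exact [IsNoetherianRing R] {A B C : Type u} [AddCommGroup A] [Module R A]
    [AddCommGroup B] [Module R B] [AddCommGroup C] [Module R C] (f : A →ₗ[R] B) (g : B →ₗ[R] C)
    (h : Function.Exact f g) (hA : Module.Finite R A) (hC : Module.Finite R C) :
    Module.Finite R B := by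
  have h1 : IsNoetherian R A := inferInstance
  have h2 : IsNoetherian R C := inferInstance
  have h3 : IsNoetherian R B := isNoetherian_of_range_eq_ker f g (LinearMap.exact_iff.1 h).symm
  exact inferInstance

end Pool.Agent.Helper44.QA
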