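import Mathlib
import Pool.Agent.Helper44.QA.Defs

/-!
PROJECT QA, module QA-10. Choice of a parameter.

PROOF. The set `Ass N` is finite (`associatedPrimes.finite`). By prime avoidance
(`Ideal.subset_union_prime` or `Ideal.subset_union_prime'`) there is `t` in the maximal ideal `m`
outside all `p ∈ Ass N`, `p ≠ m` (none of them contains `m`, as `p ≤ m` and `m ≤ p` would give
`p = m`). `K = ker (mt t N)`: a finite module; every `p ∈ Ass K` is in `Ass N` and contains `t`
(`t` kills `K`), so `p = m`. A finite module `K` over a noetherian local ring with `Ass K ⊆ {m}` has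
finite length: e.g. for a prime filtration (`IsNoetherianRing.exists_relSeries_isQuotientEquivQuotientPrime`)
is not enough; use: `Supp K ⊆ {m}` because minimal primes of the support are associated
(`Module.associatedPrimes.minimalPrimes_annihilator_subset_associatedPrimes` or similar), so
`m ^ n ≤ Ann K`, and then induct on the filtration `m ^ i K` (each quotient is a finite dimensional
vector space). ALTERNATIVE without associated primes of `K`: let `G = {x | ∃ n, m ^ n x = 0}`; as `N`
is noetherian `m ^ n G = 0` for some `n`, so `G` has finite length; `N / G` has no nonzero element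
killed by `m`, so `m ∉ Ass (N / G)`, and avoiding the primes of `Ass (N / G)` we get `t ∈ m` regular
on `N / G`, so `ker t ≤ G`. `fin_len` (a finite module killed by a power of `m` has finite length) is
used in both; e.g. it is a module over the artinian ring `R / m ^ n`
(`isArtinian_of_fg_of_artinian'`, `IsArtinianRing` of `R ⧸ m ^ n` since its only prime is maximal),
or by induction with `Module.length_eq_add_of_exact`.
-/

set_option autoImplicit false

namespace Pool.Agent.Helper44.QA

universe u

variable {R : Type u} [CommRing R] [IsLocalRing R] [IsNoetherianRing R] {N : Type u}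
  [AddCommGroup N] [Module R N]

/-- A finite module killed by a power of the maximal ideal has finite length. -/
theorem fin_len (h : Module.Finite R N) (n : ℕ)
    (hn : ∀ r ∈ IsLocalRing.maximalIdeal R ^ n, ∀ x : N, r • x = 0) :
    Module.length R N ≠ ⊤ := by
  classical
  rcases subsingleton_or_nontrivial N with hN | hN
  · rw [Module.length_eq_zero]
    exact ENat.zero_ne_top
  have hIt : IsLocalRing.maximalIdeal R ^ n ≠ ⊤ := by
    intro h1
    obtain ⟨x, hx⟩ := exists_ne (0 : N)
    have h2 := hn 1 (h1 ▸ Submodule.mem_top) x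
    rw [one_smul] at h2
    exact hx h2
  haveI : Nontrivial (R ⧸ IsLocalRing.maximalIdeal R ^ n) := Ideal.Quotient.nontrivial_iff.mpr hIt
  haveI := IsLocalRing.of_surjective' (Ideal.Quotient.mk (IsLocalRing.maximalIdeal R ^ n))
    Ideal.Quotient.mk_surjective
  haveI := IsLocalHom.of_surjective (Ideal.Quotient.mk (IsLocalRing.maximalIdeal R ^ n))
    Ideal.Quotient.mk_surjective
  haveI hart : IsArtinianRing (R ⧸ IsLocalRing.maximalIdeal R ^ n) := by
    rw [isArtinianRing_iff_isNilpotent_maximalIdeal]
    refine ⟨n, ?_⟩
    have h3 : (IsLocalRing.maximalIdeal R).map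
        (Ideal.Quotient.mk (IsLocalRing.maximalIdeal R ^ n)) =
        IsLocalRing.maximalIdeal (R ⧸ IsLocalRing.maximalIdeal R ^ n) := by
      ext x
      obtain ⟨x, rfl⟩ := Ideal.Quotient.mk_surjective x
      simp [sup_eq_left.mpr (IsLocalRing.le_maximalIdeal hIt)]
    rw [← h3, ← Ideal.map_pow, Ideal.map_quotient_self]
    rfl
  have htor : Module.IsTorsionBySet R N (IsLocalRing.maximalIdeal R ^ n : Ideal R) := by
    intro x r
    exact hn r.1 r.2 x
  letI := htor.module
  haveI : IsScalarTower R (R ⧸ IsLocalRing.maximalIdeal R ^ n) N := inferInstance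
  haveI : Module.Finite (R ⧸ IsLocalRing.maximalIdeal R ^ n) N :=
    Module.Finite.of_restrictScalars_finite R _ _
  rw [Module.length_eq_of_surjective (S := R) (R := R ⧸ IsLocalRing.maximalIdeal R ^ n)
    Ideal.Quotient.mk_surjective]
  exact Module.length_ne_top

/-- A module of finite length is killed by a power of the maximal ideal. -/
theorem len_kill (h : Module.length R N ≠ ⊤) :
    ∃ n : ℕ, ∀ r ∈ IsLocalRing.maximalIdeal R ^ n, ∀ x : N, r • x = 0 := by
  have h1 := isFiniteLength_iff_isNoetherian_isArtinian.mp (Module.length_ne_top_iff.mp h)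
  haveI := h1.1
  haveI := h1.2
  obtain ⟨n, hn⟩ := IsArtinian.monotone_stabilizes (R := R) (M := N)
    ⟨fun n => OrderDual.toDual (IsLocalRing.maximalIdeal R ^ n • (⊤ : Submodule R N)),
      fun a b hab => Submodule.smul_mono_left (Ideal.pow_le_pow_right hab)⟩
  have h2 : IsLocalRing.maximalIdeal R ^ n • (⊤ : Submodule R N) =
      IsLocalRing.maximalIdeal R ^ (n + 1) • (⊤ : Submodule R N) := hn (n + 1) (Nat.le_succ n)
  have h3 : IsLocalRing.maximalIdeal R ^ n • (⊤ : Submodule R N) = ⊥ := by
    refine Submodule.eq_bot_of_le_smul_of_le_jacobson_bot (IsLocalRing.maximalIdeal R) _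
      (IsNoetherian.noetherian _) ?_ (IsLocalRing.jacobson_eq_maximalIdeal ⊥ bot_ne_top).ge
    rw [← mul_smul, ← pow_succ', ← h2]
  refine ⟨n, fun r hr x => ?_⟩
  have h4 : r • x ∈ IsLocalRing.maximalIdeal R ^ n • (⊤ : Submodule R N) :=
    Submodule.smul_mem_smul hr Submodule.mem_top
  rw [h3] at h4
  exact h4

theorem param (h : Module.Finite R N) :
    ∃ t ∈ IsLocalRing.maximalIdeal R, Module.length R (LinearMap.ker (mt t N)) ≠ ⊤ := by
  have hfin : (associatedPrimes R N \ {IsLocalRing.maximalIdeal R}).Finite :=
    (associatedPrimes.finite R N).subset Set.sdiff_subset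
  have h1 : ¬ ((IsLocalRing.maximalIdeal R : Set R) ⊆
      ⋃ p ∈ associatedPrimes R N \ {IsLocalRing.maximalIdeal R}, (p : Set R)) := by
    intro h2
    obtain ⟨p, hp, hle⟩ := (Ideal.subset_union_prime_finite hfin (f := id) 0 0
      fun _ h _ _ ↦ h.1.1).1 h2
    exact hp.2 (le_antisymm (IsLocalRing.le_maximalIdeal hp.1.1.ne_top) hle)
  rw [Set.not_subset] at h1
  obtain ⟨t, ht, ht'⟩ := h1
  refine ⟨t, ht, ?_⟩
  have hrad : IsLocalRing.maximalIdeal R ≤
      (Module.annihilator R (LinearMap.ker (mt t N))).radical := by
    rw [← Ideal.sInf_minimalPrimes]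
    refine le_sInf fun p hp => ?_
    have h3 := Module.associatedPrimes.minimalPrimes_annihilator_subset_associatedPrimes R
      (LinearMap.ker (mt t N)) hp
    have h4 : p ∈ associatedPrimes R N :=
      associatedPrimes.subset_of_injective (Submodule.subtype_injective _) h3
    have h5 : t ∈ p := by
      refine hp.1.2 ?_
      rw [Module.mem_annihilator]
      intro x
      apply Subtype.ext
      exact x.2
    have h6 : p = IsLocalRing.maximalIdeal R := by
      by_contra h7
      refine ht' ?_
      simp only [Set.mem_iUnion]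
      exact ⟨p, ⟨h4, h7⟩, h5⟩
    rw [h6]
  obtain ⟨n, hn⟩ := Ideal.exists_pow_le_of_le_radical_of_fg hrad (IsNoetherian.noetherian _)
  refine fin_len (N := LinearMap.ker (mt t N)) inferInstance n fun r hr x => ?_
  exact Module.mem_annihilator.mp (hn hr) x

end Pool.Agent.Helper44.QA
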