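import Mathlib
import Pool.Agent.Helper44.QA.Defs
import Pool.Agent.Helper44.QA.Len
import Pool.Agent.Helper44.QA.Param

/-!
PROJECT QA, module QA-11. `l(ker t) < l(N / t N)` if `N` has infinite length.

PROOF. `K = ker t` on `N`. Put `K_n = ker (t ^ n)`; `N` is noetherian so `K_n = K_{n+1} =: G` for some
`n` (`monotone_stabilizes_iff_noetherian` or `LinearMap.eventually_iInf..`). `G` has finite length:
`l(K_{i+1}) ≤ l(K_i) + l(K)` (`t ^ i` maps `K_{i+1}` into `K` with kernel `K_i`). `t` is injective on
`N'' = N / G` (`t x ∈ G = K_n` gives `x ∈ K_{n+1} = G`), and `N'' ≠ 0` as `l(N) = ⊤`.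
`l(N'' / t N'') > 0` by Nakayama (`t ∈ m`, `N''` finite, `N'' ≠ 0`:
`Submodule.eq_bot_of_le_smul_of_le_jacobson_bot` or
`Submodule.top_ne_ideal_smul_of_le_jacobson_annihilator`, `IsLocalRing.jacobson_eq_maximalIdeal`).
Snake lemma by lengths: `K ≤ G`, so `l(K) = l(ker (t on G)) = l(G / t G)` (`len_ker`).
`G / t G → N / t N` is injective (if `g = t x` then `x ∈ G` as `t` is injective on `N''`), with
cokernel `N'' / t N''`: `l(N / t N) = l(G / t G) + l(N'' / t N'')`, and `l(G / t G) = l(K) ≠ ⊤`.
-/

set_option autoImplicit false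

namespace Pool.Agent.Helper44.QA

universe u

private lemma len_split {R : Type u} [CommRing R] {A B : Type u} [AddCommGroup A] [Module R A]
    [AddCommGroup B] [Module R B] (φ : A →ₗ[R] B) :
    Module.length R A = Module.length R (LinearMap.ker φ) + Module.length R (LinearMap.range φ) := by
  refine Module.length_eq_add_of_exact (LinearMap.ker φ).subtype φ.rangeRestrict
    (Submodule.subtype_injective _) φ.surjective_rangeRestrict ?_
  intro x
  constructor
  · intro h
    have h1 : φ x = 0 := by
      have := congrArg Subtype.val h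
      exact this
    exact ⟨⟨x, h1⟩, rfl⟩
  · rintro ⟨y, rfl⟩
    exact Subtype.ext y.2

/-- the kernels of the powers -/
private def Kk {R : Type u} [CommRing R] (t : R) (N : Type u) [AddCommGroup N] [Module R N] :
    ℕ →o Submodule R N where
  toFun n := LinearMap.ker (mt (t ^ n) N)
  monotone' := by
    intro a b hab x hx
    obtain ⟨k, rfl⟩ := Nat.exists_eq_add_of_le hab
    rw [LinearMap.mem_ker] at hx ⊢
    change t ^ (a + k) • x = 0
    change t ^ a • x = 0 at hx
    rw [add_comm, pow_add, mul_smul, hx, smul_zero]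

private lemma mem_Kk {R : Type u} [CommRing R] {t : R} {N : Type u} [AddCommGroup N] [Module R N] {n : ℕ}
    {x : N} : x ∈ Kk t N n ↔ t ^ n • x = 0 := LinearMap.mem_ker

private lemma len_Kk {R : Type u} [CommRing R] (t : R) (N : Type u) [AddCommGroup N] [Module R N]
    (h1 : Module.length R (LinearMap.ker (mt t N)) ≠ ⊤) (n : ℕ) : Module.length R (Kk t N n) ≠ ⊤ := by
  induction n with
  | zero =>
    have h2 : Kk t N 0 = ⊥ := by
      rw [Submodule.eq_bot_iff]
      intro x hx
      rw [mem_Kk, pow_zero, one_smul] at hx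
      exact hx
    rw [h2]
    have : Subsingleton (⊥ : Submodule R N) := inferInstance
    rw [Module.length_eq_zero]
    exact ENat.zero_ne_top
  | succ n ih =>
    have hmap : ∀ x ∈ Kk t N (n + 1), mt t N x ∈ Kk t N n := by
      intro x hx
      rw [mem_Kk] at hx ⊢
      change t ^ n • (t • x) = 0
      rw [smul_smul, ← pow_succ]
      exact hx
    obtain ⟨φ, hφ⟩ : ∃ φ : Kk t N (n + 1) →ₗ[R] Kk t N n, ∀ x, ((φ x : Kk t N n) : N) = t • (x : N) :=
      ⟨(mt t N).restrict hmap, fun x => rfl⟩
    rw [len_split φ]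
    have h3 : Module.length R (LinearMap.range φ) ≤ Module.length R (Kk t N n) :=
      Module.length_le_of_injective (LinearMap.range φ).subtype (Submodule.subtype_injective _)
    have h4 : Module.length R (LinearMap.ker φ) ≤ Module.length R (LinearMap.ker (mt t N)) := by
      have hval : ∀ x : LinearMap.ker φ, (x : Kk t N (n + 1)).1 ∈ LinearMap.ker (mt t N) := by
        intro x
        have h5 : φ x.1 = 0 := x.2
        rw [LinearMap.mem_ker]
        change t • (x : Kk t N (n + 1)).1 = 0
        rw [← hφ, h5]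
        rfl
      refine Module.length_le_of_injective
        (((Kk t N (n + 1)).subtype ∘ₗ (LinearMap.ker φ).subtype).codRestrict
          (LinearMap.ker (mt t N)) hval) ?_
      intro x y hxy
      have h9 : ((x : Kk t N (n + 1)) : N) = ((y : Kk t N (n + 1)) : N) :=
        congrArg (fun v : LinearMap.ker (mt t N) => (v : N)) hxy
      exact Subtype.ext (Subtype.ext h9)
    exact ne_top_of_le_ne_top (WithTop.add_ne_top.mpr ⟨h1, ih⟩) (add_le_add h4 h3)

theorem len_lt {R : Type u} [CommRing R] [IsLocalRing R] [IsNoetherianRing R] {N : Type u}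
    [AddCommGroup N] [Module R N] (h : Module.Finite R N) (t : R)
    (ht : t ∈ IsLocalRing.maximalIdeal R)
    (h1 : Module.length R (LinearMap.ker (mt t N)) ≠ ⊤) (h2 : Module.length R N = ⊤) :
    Module.length R (LinearMap.ker (mt t N)) <
      Module.length R (N ⧸ LinearMap.range (mt t N)) := by
  have hN : IsNoetherian R N := isNoetherian_of_isNoetherianRing_of_finite R N
  obtain ⟨n, hn⟩ := monotone_stabilizes_iff_noetherian.mpr hN (Kk t N)
  obtain ⟨G, hG⟩ : ∃ G : Submodule R N, G = Kk t N n := ⟨_, rfl⟩
  have hGlen : Module.length R G ≠ ⊤ := by rw [hG]; exact len_Kk t N h1 n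
  have hGt : ∀ x : N, t • x ∈ G → x ∈ G := by
    intro x hx
    rw [hG, mem_Kk, smul_smul, ← pow_succ] at hx
    rw [hG, hn (n + 1) (Nat.le_succ n), mem_Kk]
    exact hx
  have hGn : ∀ x : N, t • x = 0 → x ∈ G := by
    intro x hx
    exact hGt x (by rw [hx]; exact G.zero_mem)
  obtain ⟨P, hP⟩ : ∃ P : Submodule R N, P = LinearMap.range (mt t N) := ⟨_, rfl⟩
  obtain ⟨φ, hφ⟩ : ∃ φ : G →ₗ[R] (N ⧸ P), φ = P.mkQ ∘ₗ G.subtype := ⟨_, rfl⟩
  have hker : LinearMap.ker φ = LinearMap.range (mt t G) := by
    ext x
    rw [LinearMap.mem_ker, hφ]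
    change P.mkQ x.1 = 0 ↔ _
    rw [Submodule.mkQ_apply, Submodule.Quotient.mk_eq_zero, hP, LinearMap.mem_range, LinearMap.mem_range]
    constructor
    · rintro ⟨y, hy⟩
      have hy' : t • y = x.1 := hy
      have hyG : y ∈ G := hGt y (by rw [hy']; exact x.2)
      exact ⟨⟨y, hyG⟩, Subtype.ext hy'⟩
    · rintro ⟨y, hy⟩
      exact ⟨y.1, congrArg Subtype.val hy⟩
  have hl1 : Module.length R (LinearMap.range φ) = Module.length R (LinearMap.ker (mt t N)) := by
    have e1 : Module.length R (LinearMap.range φ) = Module.length R (G ⧸ LinearMap.range (mt t G)) := by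
      rw [← hker]
      exact (φ.quotKerEquivRange).symm.length_eq
    rw [e1, len_ker (mt t G) hGlen]
    have hval : ∀ x : LinearMap.ker (mt t G), (x : G).1 ∈ LinearMap.ker (mt t N) := fun x =>
      congrArg Subtype.val x.2
    refine le_antisymm ?_ ?_
    · refine Module.length_le_of_injective
        ((G.subtype ∘ₗ (LinearMap.ker (mt t G)).subtype).codRestrict (LinearMap.ker (mt t N)) hval) ?_
      intro x y hxy
      have h9 : ((x : G) : N) = ((y : G) : N) :=
        congrArg (fun v : LinearMap.ker (mt t N) => (v : N)) hxy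
      exact Subtype.ext (Subtype.ext h9)
    · refine Module.length_le_of_injective
        (((LinearMap.ker (mt t N)).subtype.codRestrict G (fun x => hGn x.1 x.2)).codRestrict
          (LinearMap.ker (mt t G)) (fun x => Subtype.ext x.2)) ?_
      intro x y hxy
      have h9 : (x : N) = (y : N) :=
        congrArg (fun v : LinearMap.ker (mt t G) => ((v : G) : N)) hxy
      exact Subtype.ext h9
  have hnontriv : Nontrivial ((N ⧸ P) ⧸ LinearMap.range φ) := by
    by_contra hcon
    have hsub : Subsingleton ((N ⧸ P) ⧸ LinearMap.range φ) := not_nontrivial_iff_subsingleton.mp hcon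
    have htop : LinearMap.range φ = ⊤ := Submodule.Quotient.subsingleton_iff.mp hsub
    have hle : (⊤ : Submodule R N) ≤ G ⊔ IsLocalRing.maximalIdeal R • (⊤ : Submodule R N) := by
      intro x _
      have h3 : P.mkQ x ∈ LinearMap.range φ := by rw [htop]; exact Submodule.mem_top
      obtain ⟨y, hy⟩ := h3
      rw [hφ] at hy
      have h4 : x - y.1 ∈ P := by
        rw [← Submodule.Quotient.mk_eq_zero, ← Submodule.mkQ_apply, map_sub, sub_eq_zero]
        exact hy.symm
      rw [hP] at h4
      obtain ⟨w, hw⟩ := h4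
      have h5 : x = y.1 + t • w := by
        have : t • w = x - y.1 := hw
        rw [this]
        abel
      rw [h5]
      exact Submodule.add_mem_sup y.2 (Submodule.smul_mem_smul ht Submodule.mem_top)
    have h6 := Submodule.le_of_le_smul_of_le_jacobson_bot (N := G) (N' := (⊤ : Submodule R N))
      (Module.finite_def.mp h) (by rw [IsLocalRing.jacobson_eq_maximalIdeal ⊥ bot_ne_top]) hle
    have h7 : G = ⊤ := top_le_iff.mp h6
    rw [h7, Module.length_top] at hGlen
    exact hGlen h2
  have hpos : 0 < Module.length R ((N ⧸ P) ⧸ LinearMap.range φ) := Module.length_pos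
  have hadd : Module.length R (N ⧸ P) = Module.length R (LinearMap.range φ) +
      Module.length R ((N ⧸ P) ⧸ LinearMap.range φ) :=
    Module.length_eq_add_of_exact (LinearMap.range φ).subtype (LinearMap.range φ).mkQ
      (Submodule.subtype_injective _) (Submodule.mkQ_surjective _)
      (LinearMap.exact_subtype_mkQ _)
  rw [← hP, hadd, hl1]
  have h8 : Module.length R (LinearMap.ker (mt t N)) < Module.length R (LinearMap.ker (mt t N)) + 1 :=
    (ENat.lt_add_one_iff h1).mpr le_rfl
  exact h8.trans_le (add_le_add le_rfl (Order.one_le_iff_pos.mpr hpos))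

end Pool.Agent.Helper44.QA
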