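import Mathlib
import Pool.Agent.Helper44.QA.Defs

/-!
PROJECT QA, module QA-01. The exact sequence of a complex `B = i M + y M`, `d y + y d = i z`.

PROOF (diagram chase; `e` is an arbitrary scalar, nothing else is needed).
* `i` maps `Zm dM εM e` to `Zm dB εB e` and boundaries to boundaries: map `F : H_e(M) → H_e(B)`.
* `π` maps `Zm dB εB e` to `Zm dM εM (-e)` (`εM (π u) = -π (εB u) = -e π u`), boundaries to
  boundaries: map `G : H_e(B) → H_{-e}(M)`.
* `F` kills the range of `z`: for `m' ∈ Zm dM εM e`, `i (z m') = dB (y m') + y (dM m') = dB (y m')`,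
  `εB (y m') = -y (εM m') = -e y m'`. So `F` factors through `f`.
* `f` injective: `m ∈ Z_e(M)`, `i m = dB u`, `εB u = -e u`. Put `m' = π u`: `εM m' = -π (εB u) = e m'`
  and `dM m' = -π (dB u) = -π (i m) = 0`. `u - y m' ∈ ker π`, so `u = y m' + i m''`; `i (εM m'') =
  εB (u - y m') = -e i m''`, so `εM m'' = -e m''`, and `i m = dB u = i (z m') - y (dM m') + i (dM m'')
  = i (z m' + dM m'')`, so `m = z m' + dM m''` and `[m] = z [m']` is in the range of `z`.
* `G` has values in `ker z`: `u ∈ Z_e(B)`, `m = π u`. Let `u - y m = i n` (it is in `ker π`). `0 = dB u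
  = i (z m) - y (dM m) + i (dM n)` and `dM m = -π (dB u) = 0`, so `z m = -dM n = dM (-n)`,
  `εM n = e n` (`i (εM n) = εB u + y (εM m) = e u - e y m = e i n`); this is a boundary of parity `-e`.
* exact at `H_e(B)`: `G F = 0` since `π i = 0`. If `π u = dM m'`, `εM m' = e m'` (a boundary for the
  parity `-e`), then `u' = u + dB (y m')` has `π u' = π u - dM (π (y m')) = 0`, so `u' = i m`,
  `m ∈ Z_e(M)` by injectivity of `i` (`dB (dB (y m')) = 0` follows from `dB (y m') = i (z m') - y (dM m')`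
  and `hyd`, `hzd`, `hdd`; or use `hdB`), and `[u] = [u'] = F [m]` as `εB (y m') = -e y m'`.
* `g` surjective onto `ker z`: `m' ∈ Z_{-e}(M)`, `z m' = dM m''`, `εM m'' = e m''`. `u = y m' - i m''`:
  `dB u = i (z m') - y (dM m') - i (dM m'') = 0`, `εB u = -y (εM m') - i (εM m'') = e u`, `π u = m'`.
-/

set_option autoImplicit false

namespace Pool.Agent.Helper44.QA

universe u

private lemma mk_zero {R : Type u} [CommRing R] {M : Type u} [AddCommGroup M] [Module R M]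
    {d ε : M →ₗ[R] M} {e : R} {m : M} (hm : m ∈ Zm d ε e) :
    (Submodule.Quotient.mk ⟨m, hm⟩ : Hm d ε e) = 0 ↔ m ∈ Bm d ε e := by
  rw [Submodule.Quotient.mk_eq_zero]
  rfl

private lemma mk_eq {R : Type u} [CommRing R] {M : Type u} [AddCommGroup M] [Module R M]
    {d ε : M →ₗ[R] M} {e : R} {m m' : M} (hm : m ∈ Zm d ε e) (hm' : m' ∈ Zm d ε e) :
    (Submodule.Quotient.mk ⟨m, hm⟩ : Hm d ε e) = Submodule.Quotient.mk ⟨m', hm'⟩ ↔
      m - m' ∈ Bm d ε e := by
  rw [Submodule.Quotient.eq]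
  rfl

theorem hx {R : Type u} [CommRing R] {M B : Type u} [AddCommGroup M] [Module R M]
    [AddCommGroup B] [Module R B] (dM εM : M →ₗ[R] M) (dB εB : B →ₗ[R] B) (i : M →ₗ[R] B)
    (π : B →ₗ[R] M) (y : M →ₗ[R] B) (z : M →ₗ[R] M)
    (hdM : ∀ m, dM (dM m) = 0) (hdB : ∀ w, dB (dB w) = 0)
    (hzd : ∀ m, z (dM m) = dM (z m)) (hze : ∀ m, z (εM m) = εM (z m))
    (hid : ∀ m, i (dM m) = dB (i m)) (hie : ∀ m, i (εM m) = εB (i m))
    (hpd : ∀ w, π (dB w) = -dM (π w)) (hpe : ∀ w, π (εB w) = -εM (π w))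
    (hye : ∀ m, εB (y m) = -y (εM m)) (hpy : ∀ m, π (y m) = m)
    (hinj : Function.Injective i) (hker : ∀ w, π w = 0 → ∃ m, i m = w) (hpi : ∀ m, π (i m) = 0)
    (hyd : ∀ m, dB (y m) = i (z m) - y (dM m)) (e : R) :
    ∃ (f : (Hm dM εM e ⧸ LinearMap.range (Hz dM εM z hzd hze e)) →ₗ[R] Hm dB εB e)
      (g : Hm dB εB e →ₗ[R] LinearMap.ker (Hz dM εM z hzd hze (-e))),
      Function.Injective f ∧ Function.Surjective g ∧ Function.Exact f g := by
  -- the maps of cycles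
  have hiZ : ∀ m ∈ Zm dM εM e, i m ∈ Zm dB εB e := by
    intro m hm
    rw [mem_Zm] at hm ⊢
    rw [← hid, ← hie, hm.1, hm.2, map_zero, map_smul]
    exact ⟨rfl, rfl⟩
  have hiB : ∀ m ∈ Bm dM εM e, i m ∈ Bm dB εB e := by
    intro m hm
    rw [mem_Bm] at hm ⊢
    obtain ⟨n, h1, h2⟩ := hm
    exact ⟨i n, by rw [← hie, h1, map_neg, map_smul], by rw [← hid, h2]⟩
  have hπZ : ∀ w ∈ Zm dB εB e, π w ∈ Zm dM εM (-e) := by
    intro w hw
    rw [mem_Zm] at hw ⊢
    constructor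
    · have h1 := hpd w
      rw [hw.1, map_zero] at h1
      exact neg_eq_zero.mp h1.symm
    · have h1 := hpe w
      rw [hw.2, map_smul] at h1
      rw [neg_smul, h1, neg_neg]
  have hπB : ∀ w ∈ Bm dB εB e, π w ∈ Bm dM εM (-e) := by
    intro w hw
    rw [mem_Bm] at hw ⊢
    obtain ⟨n, h1, h2⟩ := hw
    refine ⟨-π n, ?_, ?_⟩
    · have h3 := hpe n
      rw [h1, map_neg, map_smul] at h3
      rw [map_neg, ← h3, neg_smul, smul_neg, neg_neg]
    · rw [map_neg, ← hpd, h2]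
  have hyB : ∀ m ∈ Zm dM εM e, i (z m) ∈ Bm dB εB e := by
    intro m hm
    rw [mem_Zm] at hm
    rw [mem_Bm]
    refine ⟨y m, ?_, ?_⟩
    · rw [hye, hm.2, map_smul]
    · rw [hyd, hm.1, map_zero, sub_zero]
  obtain ⟨F, hF⟩ : ∃ F : Hm dM εM e →ₗ[R] Hm dB εB e, ∀ (m : M) (hm : m ∈ Zm dM εM e),
      F (Submodule.Quotient.mk ⟨m, hm⟩) = Submodule.Quotient.mk ⟨i m, hiZ m hm⟩ :=
    ⟨Submodule.mapQ _ _ (i.restrict hiZ) (fun x hx => hiB x.1 hx), fun m hm => rfl⟩
  obtain ⟨G, hG⟩ : ∃ G : Hm dB εB e →ₗ[R] Hm dM εM (-e), ∀ (w : B) (hw : w ∈ Zm dB εB e),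
      G (Submodule.Quotient.mk ⟨w, hw⟩) = Submodule.Quotient.mk ⟨π w, hπZ w hw⟩ :=
    ⟨Submodule.mapQ _ _ (π.restrict hπZ) (fun x hx => hπB x.1 hx), fun w hw => rfl⟩
  have hzZ : ∀ (e' : R) (m : M), m ∈ Zm dM εM e' → z m ∈ Zm dM εM e' := by
    intro e' m hm
    rw [mem_Zm] at hm ⊢
    rw [← hzd, ← hze, hm.1, hm.2, map_zero, map_smul]
    exact ⟨rfl, rfl⟩
  have hFz : LinearMap.range (Hz dM εM z hzd hze e) ≤ LinearMap.ker F := by
    rintro _ ⟨x, rfl⟩
    obtain ⟨⟨m, hm⟩, rfl⟩ := Submodule.Quotient.mk_surjective _ x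
    rw [LinearMap.mem_ker, Hz_mk dM εM z hzd hze e m hm (hzZ e m hm), hF, mk_zero]
    exact hyB m hm
  have hker0 : ∀ w, π w = 0 → ∃ n, i n = w := hker
  have hGz : ∀ x, G x ∈ LinearMap.ker (Hz dM εM z hzd hze (-e)) := by
    intro x
    obtain ⟨⟨w, hw⟩, rfl⟩ := Submodule.Quotient.mk_surjective _ x
    rw [LinearMap.mem_ker, hG, Hz_mk dM εM z hzd hze (-e) (π w) (hπZ w hw) (hzZ (-e) _ (hπZ w hw)), mk_zero,
      mem_Bm]
    have hπw := hπZ w hw
    rw [mem_Zm] at hπw hw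
    obtain ⟨n, hn⟩ := hker0 (w - y (π w)) (by rw [map_sub, hpy, sub_self])
    refine ⟨-n, ?_, ?_⟩
    · have h1 : εM n = e • n := by
        apply hinj
        rw [hie, hn, map_sub, hw.2, hye, hπw.2, map_smul, map_smul, hn, smul_sub, neg_smul, neg_neg]
      rw [map_neg, h1, neg_smul, smul_neg, neg_neg]
    · apply hinj
      rw [map_neg, map_neg, hid, hn, map_sub, hw.1, hyd, hπw.1, map_zero, sub_zero, zero_sub, neg_neg]
  refine ⟨Submodule.liftQ _ F hFz, G.codRestrict _ hGz, ?_, ?_, ?_⟩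
  · -- injective
    rw [← LinearMap.ker_eq_bot, LinearMap.ker_eq_bot']
    intro x hx
    obtain ⟨x', rfl⟩ := Submodule.Quotient.mk_surjective _ x
    obtain ⟨⟨m, hm⟩, rfl⟩ := Submodule.Quotient.mk_surjective _ x'
    rw [Submodule.liftQ_apply, hF, mk_zero, mem_Bm] at hx
    obtain ⟨u, hu1, hu2⟩ := hx
    rw [Submodule.Quotient.mk_eq_zero]
    have hm1 := hm
    rw [mem_Zm] at hm1
    have hm' : π u ∈ Zm dM εM e := by
      rw [mem_Zm]
      constructor
      · have h1 := hpd u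
        rw [hu2, hpi] at h1
        exact neg_eq_zero.mp h1.symm
      · have h1 := hpe u
        rw [hu1, map_neg, map_smul] at h1
        exact (neg_injective h1).symm
    have hm'1 := hm'
    rw [mem_Zm] at hm'1
    obtain ⟨n, hn⟩ := hker0 (u - y (π u)) (by rw [map_sub, hpy, sub_self])
    refine ⟨Submodule.Quotient.mk ⟨π u, hm'⟩, ?_⟩
    rw [Hz_mk dM εM z hzd hze e (π u) hm' (hzZ e _ hm'), mk_eq, mem_Bm]
    refine ⟨-n, ?_, ?_⟩
    · have h1 : εM n = -(e • n) := by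
        apply hinj
        rw [hie, hn, map_sub, hu1, hye, hm'1.2, map_smul, map_neg, map_smul, hn, smul_sub]
        abel
      rw [map_neg, h1, smul_neg]
    · apply hinj
      rw [map_neg, map_neg, hid, hn, map_sub, hu2, hyd, hm'1.1, map_zero, sub_zero, map_sub]
      abel
  · -- surjective
    rintro ⟨x, hx⟩
    obtain ⟨⟨m', hm'⟩, rfl⟩ := Submodule.Quotient.mk_surjective _ x
    rw [LinearMap.mem_ker, Hz_mk dM εM z hzd hze (-e) m' hm' (hzZ (-e) _ hm'), mk_zero, mem_Bm] at hx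
    obtain ⟨m'', h1, h2⟩ := hx
    rw [neg_smul, neg_neg] at h1
    have hm1 := hm'
    rw [mem_Zm] at hm1
    have hw : y m' - i m'' ∈ Zm dB εB e := by
      rw [mem_Zm]
      constructor
      · rw [map_sub, hyd, hm1.1, map_zero, sub_zero, ← hid, h2, sub_self]
      · rw [map_sub, hye, hm1.2, ← hie, h1, map_smul, map_smul, smul_sub, neg_smul, neg_neg]
    refine ⟨Submodule.Quotient.mk ⟨y m' - i m'', hw⟩, Subtype.ext ?_⟩
    rw [LinearMap.codRestrict_apply, hG]
    rw [mk_eq]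
    have h3 : π (y m' - i m'') - m' = 0 := by rw [map_sub, hpy, hpi, sub_zero, sub_self]
    rw [h3]
    exact Submodule.zero_mem _
  · -- exact
    intro x
    constructor
    · intro hx
      obtain ⟨⟨w, hw⟩, rfl⟩ := Submodule.Quotient.mk_surjective _ x
      have hx' : G (Submodule.Quotient.mk ⟨w, hw⟩) = 0 := congrArg Subtype.val hx
      rw [hG, mk_zero, mem_Bm] at hx'
      obtain ⟨m', h1, h2⟩ := hx'
      rw [neg_smul, neg_neg] at h1
      have hw1 := hw
      rw [mem_Zm] at hw1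
      have hπw := hπZ w hw
      rw [mem_Zm] at hπw
      obtain ⟨m, hm⟩ := hker0 (w + dB (y m')) (by rw [map_add, hpd, hpy, h2, add_neg_cancel])
      have hmZ : m ∈ Zm dM εM e := by
        rw [mem_Zm]
        constructor
        · apply hinj
          rw [hid, hm, map_add, hw1.1, hdB, map_zero, add_zero]
        · apply hinj
          have h3 : εB (dB (y m')) = e • dB (y m') := by
            rw [hyd, map_sub, ← hie, ← hze, h1, hye, h2, hπw.2, smul_sub, map_smul, map_smul, map_smul,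
              neg_smul, neg_neg]
          rw [hie, hm, map_add, hw1.2, h3, map_smul, hm, smul_add]
      refine ⟨Submodule.Quotient.mk (Submodule.Quotient.mk ⟨m, hmZ⟩), ?_⟩
      rw [Submodule.liftQ_apply, hF, mk_eq, mem_Bm]
      refine ⟨y m', ?_, ?_⟩
      · rw [hye, h1, map_smul]
      · rw [hm, add_sub_cancel_left]
    · rintro ⟨x', rfl⟩
      obtain ⟨x'', rfl⟩ := Submodule.Quotient.mk_surjective _ x'
      obtain ⟨⟨m, hm⟩, rfl⟩ := Submodule.Quotient.mk_surjective _ x''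
      apply Subtype.ext
      rw [Submodule.liftQ_apply, hF, LinearMap.codRestrict_apply, hG]
      change _ = (0 : Hm dM εM (-e))
      rw [mk_zero, hpi]
      exact Submodule.zero_mem _

end Pool.Agent.Helper44.QA
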