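import Mathlib
import Pool.Agent.Helper44.QA.Defs
import Pool.Agent.Helper44.QA.Rules
import Pool.Agent.Helper44.QA.Calc
import Pool.Agent.Helper44.QA.Leib
import Pool.Agent.Helper44.QA.HX

/-!
PROJECT QA, module QA-02. Adjoining one generator `τ` of degree one with `d τ = t`.

PROOF. `V = U × W`, `V' = (U × R) × W`, `W = Fin c → R`. `j : V → V'`, `(u, w) ↦ ((u, 0), w)`,
`p : V' → V`, `((u, r), w) ↦ (u, w)`, `p j = id`, `τ = ((0, 1), 0)`, `σ : V' → R`, `((u, r), w) ↦ r`,
`σ j = 0`, `σ τ = 1`, `j (p v) = v - σ v • τ`. `D = T.D`, `D' = (T.ext t).D`.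
Put `i = emb b j`, `π = emb b p ∘ con σ`, `y m = xx τ * i m`, `z = t •`. Facts:
(1) `D' (i w) = i (D w)`: by `D_apply`; `con_emb`, `par_emb`, `emb_xx`, and
    `inA ((T.ext t).z k) = i (inA (T.z k))` by `emb_inE`, `emb_inP`, `emb_emb`; the functionals
    composed with `j` are those of `T`.
(2) decomposition: `w' = i (emb b p w') + xx τ * i (emb b p (con σ w'))` for all `w'` (`BB_ind`; for
    `xx v * w'`: `i (emb b p (xx v)) = xx (j (p v)) = xx v - σ v • xx τ`,
    `con σ (xx v * w') = σ v • w' - xx v * con σ w'`, and `xx τ * xx τ = 0`,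
    `xx τ * xx v = -(xx v * xx τ)`).
(3) hence `con σ w' = 0` implies `w' = i (emb b p w')`; as `con σ (con σ w') = 0` (`con_self`),
    `i (π w') = con σ w'`. `con σ (i w) = 0` (`con_emb`, `σ j = 0`, `con_zero_left`).
(4) `con σ` anticommutes with `D'` (as in `con_D`: `σ ((T.ext t).s j, 0) = 0`,
    `con σ (inA ((T.ext t).z k)) = con σ (i _) = 0`, `con_mul`, `con_con`, `con_par`, `inA_z_even`).
    With (1), (3) and injectivity of `i` (`emb_injective`): `π (D' w') = -D (π w')`.
(5) `D' (y m) = t • i m - y (D m)` (`D_xx_mul`: `(T.ext t).phi (0, 1) = t`, `τ.2 = 0`, then (1)).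
    Parities: `eps_emb`, `eps_xx`, `con_eps`. `π (y m) = m`: `con σ (xx τ * i m) = i m - xx τ * 0`.
(6) `D' (D' w') = 0`: by (2) it suffices for `i w` and `xx τ * i w`: (1) and (5).
    `quad_map` gives the quadratic `q`; the constant terms are unchanged: `Good (T.ext t)`.
(7) apply `hx` with `z = mt t`; `Hz` of `t •` is `mt t` on homology (`LinearMap.ext`, on classes, `rfl`).
-/

set_option autoImplicit false

namespace Pool.Agent.Helper44.QA

universe u

variable {R : Type u} [CommRing R] {b c : ℕ} {U : Type u} [AddCommGroup U] [Module R U]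

private def tj (R : Type u) [CommRing R] (c : ℕ) (U : Type u) [AddCommGroup U] [Module R U] :
    (U × (Fin c → R)) →ₗ[R] ((U × R) × (Fin c → R)) :=
  (LinearMap.inl R U R).prodMap LinearMap.id

private def tp (R : Type u) [CommRing R] (c : ℕ) (U : Type u) [AddCommGroup U] [Module R U] :
    ((U × R) × (Fin c → R)) →ₗ[R] (U × (Fin c → R)) :=
  (LinearMap.fst R U R).prodMap LinearMap.id

private def ts (R : Type u) [CommRing R] (c : ℕ) (U : Type u) [AddCommGroup U] [Module R U] :
    ((U × R) × (Fin c → R)) →ₗ[R] R :=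
  LinearMap.snd R U R ∘ₗ LinearMap.fst R (U × R) (Fin c → R)

private def tt (R : Type u) [CommRing R] (c : ℕ) (U : Type u) [AddCommGroup U] [Module R U] :
    (U × R) × (Fin c → R) := ((0, 1), 0)

private theorem tp_tj : tp R c U ∘ₗ tj R c U = LinearMap.id := rfl

private theorem ts_tj : ts R c U ∘ₗ tj R c U = 0 := rfl

private theorem tj_tp (v : (U × R) × (Fin c → R)) :
    tj R c U (tp R c U v) = v - ts R c U v • tt R c U := by
  obtain ⟨⟨u, r⟩, w⟩ := v
  change (((u, 0), w) : (U × R) × (Fin c → R)) = ((u, r), w) - r • ((0, 1), 0)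
  refine Prod.ext (Prod.ext ?_ ?_) ?_
  · simp
  · simp
  · simp

/-- Decomposition. -/
private theorem dec (w : BB R b ((U × R) × (Fin c → R))) :
    w = emb b (tj R c U) (emb b (tp R c U) w) +
      xx (tt R c U) * emb b (tj R c U) (emb b (tp R c U) (con (ts R c U) w)) := by
  induction w using BB_ind with
  | h1 => rw [con_one, map_zero, map_zero, mul_zero, add_zero, map_one, map_one]
  | hadd u w hu hw =>
    rw [map_add, map_add, map_add, map_add, map_add, mul_add]
    nth_rewrite 1 [hu, hw]
    abel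
  | hsmul r w hw =>
    rw [map_smul, map_smul, map_smul, map_smul, map_smul, mul_smul_comm, ← smul_add, ← hw]
  | hx v w hw =>
    rw [map_mul, map_mul, emb_xx, emb_xx, tj_tp, con_xx_mul, map_sub, map_sub, map_smul, map_smul,
      map_mul, map_mul, emb_xx, emb_xx, tj_tp, mul_sub, mul_smul_comm]
    set A := emb b (tj R c U) (emb b (tp R c U) w) with hA
    set B := emb b (tj R c U) (emb b (tp R c U) (con (ts R c U) w)) with hB
    have h1 : (xx (v - ts R c U v • tt R c U) : BB R b _) =
        xx v - ts R c U v • xx (tt R c U) := by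
      rw [sub_eq_add_neg, ← neg_smul, xx_add, xx_smul, neg_smul, ← sub_eq_add_neg]
    rw [h1]
    nth_rewrite 1 [hw]
    rw [sub_mul, sub_mul, smul_mul_assoc, smul_mul_assoc, mul_add, mul_sub, mul_smul_comm,
      ← mul_assoc, ← mul_assoc, ← mul_assoc, xx_mul_self, zero_mul, smul_zero,
      xx_mul_xx_swap (tt R c U) v, neg_mul]
    abel
  | hX j w hw =>
    rw [map_mul, map_mul, emb_XX, emb_XX, con_XX_mul, map_mul, map_mul, emb_XX, emb_XX,
      ← mul_assoc, ← XX_mul_comm j (xx (tt R c U)), mul_assoc, ← mul_add, ← hw]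

private theorem ti_pi (w : BB R b ((U × R) × (Fin c → R))) :
    emb b (tj R c U) (emb b (tp R c U) (con (ts R c U) w)) = con (ts R c U) w := by
  have h := dec (con (ts R c U) w)
  rw [con_self, map_zero, map_zero, mul_zero, add_zero] at h
  exact h.symm

private theorem con_ti (w : BB R b (U × (Fin c → R))) :
    con (ts R c U) (emb b (tj R c U) w) = 0 := by
  rw [con_emb, ts_tj, con_zero_left, map_zero]

private theorem tj_inj : Function.Injective (emb b (tj R c U)) :=
  emb_injective _ (tp R c U) tp_tj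

private theorem z_ext (T : Dat R b c U) (t : R) (k : Fin c) :
    inA R b c (U × R) ((T.ext t).z k) = emb b (tj R c U) (inA R b c U (T.z k)) := by
  unfold inA
  rw [emb_emb]
  have h : (T.ext t).z k = emb b (LinearMap.inl R U R) (T.z k) := by
    unfold Dat.z
    rw [map_add, emb_inE, emb_inP]
    rfl
  rw [h, emb_emb]
  rfl

private theorem D_ti (T : Dat R b c U) (t : R) (w : BB R b (U × (Fin c → R))) :
    (T.ext t).D (emb b (tj R c U) w) = emb b (tj R c U) (T.D w) := by
  have hphi : ((T.ext t).phi ∘ₗ LinearMap.fst R (U × R) (Fin c → R)) ∘ₗ tj R c U =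
      T.phi ∘ₗ LinearMap.fst R U (Fin c → R) := by
    refine LinearMap.ext fun v => ?_
    change T.phi v.1 + t * 0 = T.phi v.1
    rw [mul_zero, add_zero]
  rw [D_apply, D_apply, map_add, map_add, map_sum, map_sum, con_emb, hphi]
  congr 1
  · congr 1
    refine Finset.sum_congr rfl fun j _ => ?_
    rw [par_emb, map_mul, emb_xx]
    rfl
  · refine Finset.sum_congr rfl fun k _ => ?_
    rw [z_ext, con_emb, map_mul]
    rfl

private theorem quad_ext (T : Dat R b c U) (hT : Good T) (t : R) (k : Fin c) :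
    (T.ext t).q k ∈ (LinearMap.range (ExteriorAlgebra.ι R (M := U × R))) ^ 2 :=
  quad_map _ _ (hT.quad k)

private theorem con_ts_D (T : Dat R b c U) (hT : Good T) (t : R)
    (w : BB R b ((U × R) × (Fin c → R))) :
    con (ts R c U) ((T.ext t).D w) = -(T.ext t).D (con (ts R c U) w) := by
  rw [D_apply, D_apply, map_add, map_add, map_sum, map_sum, neg_add, neg_add, con_con,
    ← Finset.sum_neg_distrib, ← Finset.sum_neg_distrib]
  congr 1
  · congr 1
    refine Finset.sum_congr rfl fun j _ => ?_
    have h : ts R c U ((T.ext t).s j, 0) = 0 := rfl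
    rw [con_xx_mul, con_par, h, zero_smul, zero_sub]
  · refine Finset.sum_congr rfl fun k _ => ?_
    have h : con (ts R c U) (inA R b c (U × R) ((T.ext t).z k)) = 0 := by
      rw [z_ext, con_ti]
    rw [con_mul, h, zero_mul, zero_add, (inA_z_even _ (quad_ext T hT t) k).1, con_con, mul_neg]

private theorem D_ty (T : Dat R b c U) (hT : Good T) (t : R) (w : BB R b (U × (Fin c → R))) :
    (T.ext t).D (xx (tt R c U) * emb b (tj R c U) w) =
      emb b (tj R c U) (t • w) - xx (tt R c U) * emb b (tj R c U) (T.D w) := by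
  rw [D_xx_mul _ (quad_ext T hT t), D_ti]
  have h1 : (T.ext t).phi (tt R c U).1 = t := by
    change T.phi 0 + t * 1 = t
    rw [map_zero, mul_one, zero_add]
  have h2 : ∑ k, (tt R c U).2 k • inA R b c (U × R) ((T.ext t).z k) = 0 :=
    Finset.sum_eq_zero fun k _ => zero_smul _ _
  rw [h1, h2, zero_mul, add_zero, map_smul]

theorem tau_good (T : Dat R b c U) (hT : Good T) (t : R) : Good (T.ext t) where
  sq w := by
    rw [dec w, map_add, map_add, D_ti, D_ti, hT.sq, map_zero, D_ty T hT, map_sub, D_ti, D_ty T hT,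
      hT.sq, map_zero, mul_zero, sub_zero, map_smul, sub_self, zero_add]
  quad := quad_ext T hT t
  cst k := hT.cst k

theorem tau (T : Dat R b c U) (hT : Good T) (t : R) (e : R) :
    ∃ (f : (HH T e ⧸ LinearMap.range (mt t (HH T e))) →ₗ[R] HH (T.ext t) e)
      (g : HH (T.ext t) e →ₗ[R] LinearMap.ker (mt t (HH T (-e)))),
      Function.Injective f ∧ Function.Surjective g ∧ Function.Exact f g := by
  have hHz : ∀ (e : R) (hd : ∀ m, mt t (BB R b (U × (Fin c → R))) (T.D m) = T.D (mt t _ m))
      (he : ∀ m, mt t (BB R b (U × (Fin c → R))) ((eps R b _).toLinearMap m) =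
        (eps R b _).toLinearMap (mt t _ m)),
      Hz T.D (eps R b (U × (Fin c → R))).toLinearMap (mt t _) hd he e = mt t (HH T e) := by
    intro e hd he
    refine LinearMap.ext fun x => ?_
    obtain ⟨⟨m, hm⟩, rfl⟩ := Submodule.Quotient.mk_surjective _ x
    rfl
  have hd : ∀ m, mt t (BB R b (U × (Fin c → R))) (T.D m) = T.D (mt t _ m) :=
    fun m => (map_smul T.D t m).symm
  have he : ∀ m, mt t (BB R b (U × (Fin c → R))) ((eps R b _).toLinearMap m) =
        (eps R b _).toLinearMap (mt t _ m) := fun m => (map_smul (eps R b _) t m).symm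
  have key := hx T.D (eps R b (U × (Fin c → R))).toLinearMap (T.ext t).D
    (eps R b ((U × R) × (Fin c → R))).toLinearMap (emb b (tj R c U)).toLinearMap
    ((emb b (tp R c U)).toLinearMap ∘ₗ con (ts R c U))
    (LinearMap.mulLeft R (xx (tt R c U)) ∘ₗ (emb b (tj R c U)).toLinearMap)
    (mt t _) hT.sq (tau_good T hT t).sq hd he (fun m => (D_ti T t m).symm)
    (fun m => (eps_emb _ m).symm) ?_ ?_ ?_ ?_ tj_inj ?_ ?_ ?_ e
  · rw [hHz, hHz] at key
    exact key
  · intro w
    apply tj_inj
    change emb b (tj R c U) (emb b (tp R c U) (con (ts R c U) ((T.ext t).D w))) =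
      emb b (tj R c U) (-T.D (emb b (tp R c U) (con (ts R c U) w)))
    rw [ti_pi, map_neg, ← D_ti, ti_pi, con_ts_D T hT]
  · intro w
    change emb b (tp R c U) (con (ts R c U) (eps R b _ w)) =
      -eps R b _ (emb b (tp R c U) (con (ts R c U) w))
    rw [con_eps, map_neg, eps_emb]
  · intro m
    change eps R b _ (xx (tt R c U) * emb b (tj R c U) m) =
      -(xx (tt R c U) * emb b (tj R c U) (eps R b _ m))
    rw [map_mul, eps_xx, eps_emb, neg_mul]
  · intro m
    change emb b (tp R c U) (con (ts R c U) (xx (tt R c U) * emb b (tj R c U) m)) = m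
    have h : ts R c U (tt R c U) = 1 := rfl
    rw [con_xx_mul, con_ti, mul_zero, sub_zero, h, one_smul, emb_emb, tp_tj, emb_id]
  · intro w hw
    refine ⟨emb b (tp R c U) w, ?_⟩
    change emb b (tp R c U) (con (ts R c U) w) = 0 at hw
    change emb b (tj R c U) (emb b (tp R c U) w) = w
    have h := dec w
    rw [hw, map_zero, mul_zero, add_zero] at h
    exact h.symm
  · intro m
    change emb b (tp R c U) (con (ts R c U) (emb b (tj R c U) m)) = 0
    rw [con_ti, map_zero]
  · intro m
    exact D_ty T hT t m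

end Pool.Agent.Helper44.QA
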