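import Mathlib
import Pool.Agent.Helper44.QA.Defs
import Pool.Agent.Helper44.QA.Tau
import Pool.Agent.Helper44.QA.Len
import Pool.Agent.Helper44.QA.Param
import Pool.Agent.Helper44.QA.ModL
import Pool.Agent.Helper44.QA.Aug

/-!
PROJECT QA, module QA-13. Extension to homology of finite length with `l(H_odd) < l(H_even)`.

PROOF. Noetherian induction on the ideal `J = range T.phi` (`IsNoetherian` well-founded `>`), for all
`U` and `T` simultaneously. If `l(HH T 1) ≠ ⊤`: take `U' = U`, `T' = T`. Otherwise let `t` be as in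
`param` for `N = HH T 1`: `t ∈ m`, `l(ker t) ≠ ⊤`. `t ∉ J`: otherwise `t` kills `N` (`phi_kill`) and
`ker t = N` has infinite length. `T₁ = T.ext t` on `U × R`: `range T₁.phi = J + t R > J`
(contains `t = T₁.phi (0, 1)` and `T.phi u = T₁.phi (u, 0)`), `Good` by `tau_good`, `T₁.rho = T.rho`.
`tau` with `e = 1`: `0 → N / t N → HH T₁ 1 → ker (t on HH T (-1)) → 0`: `HH T₁ 1` is finite
(`fin_exact`; the kernel is a submodule of a module of finite length). `tau` with `e = -1`
(`- -1 = 1`: transport with `neg_neg`, or generalise the scalar `e'` with `h : e' = 1`):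
`0 → HH T (-1) / t → HH T₁ (-1) → ker (t on N) → 0`, both ends of finite length.
If `l(HH T₁ 1) ≠ ⊤` then `l(N / t N) ≠ ⊤` and by `Module.length_eq_add_of_exact`, `len_ker` on
`HH T (-1)` (finite length, so `l(ker t) = l(coker t)`) and `len_lt` (`l(N) = ⊤`):
`l(HH T₁ (-1)) = l(HH T (-1) / t) + l(ker (t on N)) < l(ker (t on HH T (-1))) + l(N / t N)
= l(HH T₁ 1)`. So the hypotheses hold for `T₁`: induction hypothesis.
-/

set_option autoImplicit false

namespace Pool.Agent.Helper44.QA

universe u

theorem extend_aux {R : Type u} [CommRing R] [IsLocalRing R] [IsNoetherianRing R] {b c : ℕ}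
    (J : Ideal R) : ∀ (U : Type u) (_ : AddCommGroup U) (_ : Module R U)
    (_ : Module.Finite R U) (T : Dat R b c U), (LinearMap.range T.phi : Ideal R) = J →
    Good T → Module.Finite R (HH T 1) → Module.length R (HH T (-1)) ≠ ⊤ →
    (Module.length R (HH T 1) ≠ ⊤ →
      Module.length R (HH T (-1)) < Module.length R (HH T 1)) →
    ∃ (U' : Type u) (_ : AddCommGroup U') (_ : Module R U') (_ : Module.Finite R U')
      (T' : Dat R b c U'), Good T' ∧ T'.rho = T.rho ∧ Module.length R (HH T' 1) ≠ ⊤ ∧
        Module.length R (HH T' (-1)) < Module.length R (HH T' 1) := by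
  induction J using IsNoetherian.induction with
  | hgt J ih =>
  intro U iU iM hU T hJ hT h1 h2 h3
  by_cases hN : Module.length R (HH T 1) = ⊤
  swap
  · exact ⟨U, iU, iM, hU, T, hT, rfl, hN, h3 hN⟩
  obtain ⟨t, ht, htl⟩ := param (N := HH T 1) h1
  have htJ : t ∉ J := by
    intro h4
    rw [← hJ] at h4
    obtain ⟨u, hu⟩ := h4
    refine htl ?_
    have h5 : LinearMap.ker (mt t (HH T 1)) = ⊤ := by
      refine eq_top_iff.mpr fun x _ => ?_
      rw [LinearMap.mem_ker]
      change t • x = 0
      rw [← hu]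
      exact phi_kill T hT 1 u x
    rw [h5, Module.length_top, hN]
  have hJ1 : J < (LinearMap.range (T.ext t).phi : Ideal R) := by
    refine lt_of_le_of_ne ?_ ?_
    · rw [← hJ]
      rintro _ ⟨u, rfl⟩
      refine ⟨(u, 0), ?_⟩
      change T.phi u + t * 0 = T.phi u
      rw [mul_zero, add_zero]
    · intro h4
      refine htJ ?_
      rw [h4]
      refine ⟨(0, 1), ?_⟩
      change T.phi 0 + t * 1 = t
      rw [map_zero, mul_one, zero_add]
  obtain ⟨f, g, hf, hg, hfg⟩ := tau T hT t 1
  obtain ⟨f', g', hf', hg', hfg'⟩ := tau T hT t (-1)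
  have hfl := isFiniteLength_iff_isNoetherian_isArtinian.mp (Module.length_ne_top_iff.mp h2)
  have hno := hfl.1
  have hT1 := tau_good T hT t
  have hfin : Module.Finite R (HH (T.ext t) 1) :=
    fin_exact f g hfg inferInstance inferInstance
  have key : ∀ e : R, e = 1 → Module.length R (LinearMap.ker (mt t (HH T e))) =
      Module.length R (LinearMap.ker (mt t (HH T 1))) := by
    rintro _ rfl
    rfl
  have e1 : Module.length R (HH (T.ext t) (-1)) =
      Module.length R (HH T (-1) ⧸ LinearMap.range (mt t (HH T (-1)))) +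
      Module.length R (LinearMap.ker (mt t (HH T 1))) := by
    rw [← key (- -1) (neg_neg 1)]
    exact Module.length_eq_add_of_exact f' g' hf' hg' hfg'
  have e2 : Module.length R (HH (T.ext t) 1) =
      Module.length R (HH T 1 ⧸ LinearMap.range (mt t (HH T 1))) +
      Module.length R (LinearMap.ker (mt t (HH T (-1)))) :=
    Module.length_eq_add_of_exact f g hf hg hfg
  have e3 : Module.length R (HH T (-1) ⧸ LinearMap.range (mt t (HH T (-1)))) =
      Module.length R (LinearMap.ker (mt t (HH T (-1)))) := len_ker _ h2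
  have e4 : Module.length R (LinearMap.ker (mt t (HH T (-1)))) ≠ ⊤ := by
    intro h5
    have h6 := Module.length_le_of_injective (LinearMap.ker (mt t (HH T (-1)))).subtype
      (Submodule.subtype_injective _)
    rw [h5, top_le_iff] at h6
    exact h2 h6
  have e5 := len_lt h1 t ht htl hN
  obtain ⟨U', i1, i2, i3, T', hg1, hg2, hg3, hg4⟩ := ih _ hJ1 (U × R) inferInstance inferInstance
    inferInstance (T.ext t) rfl hT1 hfin
    (by
      rw [e1, e3]
      exact WithTop.add_ne_top.mpr ⟨e4, htl⟩)
    (fun _ => by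
      rw [e1, e2, e3, add_comm (Module.length R (HH T 1 ⧸ _))]
      exact (ENat.add_lt_add_iff_left e4).mpr e5)
  exact ⟨U', i1, i2, i3, T', hg1, hg2, hg3, hg4⟩

theorem extend {R : Type u} [CommRing R] [IsLocalRing R] [IsNoetherianRing R] {b c : ℕ}
    {U : Type u} [AddCommGroup U] [Module R U] (hU : Module.Finite R U) (T : Dat R b c U)
    (hT : Good T) (h1 : Module.Finite R (HH T 1)) (h2 : Module.length R (HH T (-1)) ≠ ⊤)
    (h3 : Module.length R (HH T 1) ≠ ⊤ →
      Module.length R (HH T (-1)) < Module.length R (HH T 1)) :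
    ∃ (U' : Type u) (_ : AddCommGroup U') (_ : Module R U') (_ : Module.Finite R U')
      (T' : Dat R b c U'), Good T' ∧ T'.rho = T.rho ∧ Module.length R (HH T' 1) ≠ ⊤ ∧
        Module.length R (HH T' (-1)) < Module.length R (HH T' 1) :=
  extend_aux _ U _ _ hU T rfl hT h1 h2 h3

end Pool.Agent.Helper44.QA
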