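import Mathlib
import Pool.Agent.Helper44.QA.Defs
import Pool.Agent.Helper44.QA.Rules
import Pool.Agent.Helper44.QA.Leib
import Pool.Agent.Helper44.QA.Coef

/-!
PROJECT QA, module QA-06. If `C` is acyclic for the contraction then `C ⊗ P` is acyclic for `dA`.

PROOF. Induction on `n`: every `w ∈ CP b C` with `dA w = 0` and `cf α w = 0` for all `α` of degree
`∑ j, α j ≥ n` (`Finsupp.degree`) is `dA v`, `v ∈ CP b C` (for `w` itself such an `n` exists by
`cf_sum`). `n = 0`: `w = 0` (`cf_sum`). Step from `n` to `n + 1`: for `|α| = n`, by `dA_apply`,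
`cf_con`, `cf_xx_mul`, `cf_par`: `0 = cf α (dA w) = ctr φ (cf α w) + ∑ j, ι (s j) * ((α j + 1) •
cf (α + single j 1) w) = ctr φ (cf α w)`. Choose `y α ∈ C` with `ctr φ (y α) = cf α w` for `|α| = n`
(and `y α = 0` for other `α`, and for `α` outside the finite set of `cf_sum`), let
`v = ∑ α, tm (y α) (monomial α 1)` over that finite set (of degree `n`). `v ∈ CP b C`,
`cf β v = y β`. For `|β| ≥ n`: `cf β (dA v) = ctr φ (y β) + ∑ j, .. cf (β + single j 1) v
= cf β w`, so `w - dA v` has no coefficients of degree `≥ n`, it lies in `CP b C` (`CP_dA`) and is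
a cycle (`hdA`). Induction hypothesis.
-/

set_option autoImplicit false

namespace Pool.Agent.Helper44.QA

universe u

private theorem cf_dA {R : Type u} [CommRing R] {b c : ℕ} {U : Type u} [AddCommGroup U]
    [Module R U] (T : Dat R b c U) (w : BB R b U) (α : Fin b →₀ ℕ) :
    cf α (T.dA w) = ctr T.phi (cf α w) +
      ∑ j, ExteriorAlgebra.ι R (T.s j) * ((α j + 1) • cf (α + Finsupp.single j 1) w) := by
  rw [dA_apply, map_add, map_sum, cf_con]
  congr 1
  refine Finset.sum_congr rfl fun j _ => ?_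
  rw [cf_xx_mul, cf_par]

private theorem cf_dA_top {R : Type u} [CommRing R] {b c : ℕ} {U : Type u} [AddCommGroup U]
    [Module R U] (T : Dat R b c U) (w : BB R b U) (n : ℕ)
    (hn : ∀ α : Fin b →₀ ℕ, n + 1 ≤ α.degree → cf α w = 0) (α : Fin b →₀ ℕ) (hα : n ≤ α.degree) :
    cf α (T.dA w) = ctr T.phi (cf α w) := by
  rw [cf_dA, Finset.sum_eq_zero, add_zero]
  intro j _
  rw [hn, smul_zero, mul_zero]
  rw [map_add, Finsupp.degree_single]
  omega

private theorem poly_aux {R : Type u} [CommRing R] {b c : ℕ} {U : Type u} [AddCommGroup U]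
    [Module R U] (T : Dat R b c U) (hdA : ∀ w, T.dA (T.dA w) = 0)
    (C : Submodule R (ExteriorAlgebra R U))
    (h1 : ∀ x ∈ C, ctr T.phi x ∈ C) (h2 : ∀ u : U, ∀ x ∈ C, ExteriorAlgebra.ι R u * x ∈ C)
    (h3 : ∀ x ∈ C, ctr T.phi x = 0 → ∃ y ∈ C, ctr T.phi y = x) (n : ℕ) :
    ∀ w : BB R b U, w ∈ CP b C → T.dA w = 0 →
      (∀ α : Fin b →₀ ℕ, n ≤ α.degree → cf α w = 0) → ∃ v ∈ CP b C, T.dA v = w := by
  classical
  induction n with
  | zero =>
    intro w _ _ hw
    obtain ⟨s, hs, -⟩ := cf_sum w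
    refine ⟨0, Submodule.zero_mem _, ?_⟩
    rw [hs, map_zero, Finset.sum_eq_zero]
    intro α _
    rw [hw α (Nat.zero_le _), zero_tm]
  | succ n ih =>
    intro w hw hw0 hwn
    have hex : ∀ α : Fin b →₀ ℕ, ∃ y ∈ C, (α.degree = n → ctr T.phi y = cf α w) ∧
        (α.degree ≠ n → y = 0) ∧ (cf α w = 0 → y = 0) := by
      intro α
      by_cases h : α.degree = n ∧ cf α w ≠ 0
      · have h4 : ctr T.phi (cf α w) = 0 := by
          rw [← cf_dA_top T w n hwn α h.1.ge, hw0, map_zero]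
        obtain ⟨y, hy, hy'⟩ := h3 _ (cf_mem C w hw α) h4
        exact ⟨y, hy, fun _ => hy', fun h5 => absurd h.1 h5, fun h5 => absurd h5 h.2⟩
      · refine ⟨0, Submodule.zero_mem _, ?_, fun _ => rfl, fun _ => rfl⟩
        intro h5
        have h6 : cf α w = 0 := by
          by_contra h7
          exact h ⟨h5, h7⟩
        rw [h6, map_zero]
    choose y hyC hy1 hy2 hy3 using hex
    obtain ⟨s, -, hs⟩ := cf_sum w
    set v : BB R b U := ∑ α ∈ s, tm (y α) (MvPolynomial.monomial α 1) with hv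
    have hvC : v ∈ CP b C :=
      Submodule.sum_mem _ fun α _ => Submodule.subset_span ⟨_, hyC α, _, rfl⟩
    have hcv : ∀ β, cf β v = y β := by
      intro β
      rw [hv, map_sum]
      have h5 : ∀ α ∈ s, cf β (tm (y α) (MvPolynomial.monomial α (1 : R))) =
          if α = β then y α else 0 := by
        intro α _
        rw [cf_tm, MvPolynomial.coeff_monomial]
        split_ifs
        · rw [one_smul]
        · rw [zero_smul]
      rw [Finset.sum_congr rfl h5, Finset.sum_ite_eq' s β]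
      split_ifs with h6
      · rfl
      · rw [hy3 β (hs β h6)]
    have hvn : ∀ α : Fin b →₀ ℕ, n + 1 ≤ α.degree → cf α v = 0 := by
      intro α hα
      rw [hcv]
      exact hy2 α (by omega)
    have hkey : ∀ α : Fin b →₀ ℕ, n ≤ α.degree → cf α (w - T.dA v) = 0 := by
      intro α hα
      rw [map_sub, cf_dA_top T v n hvn α hα, hcv]
      by_cases h5 : α.degree = n
      · rw [hy1 α h5, sub_self]
      · rw [hy2 α h5, map_zero, sub_zero]
        exact hwn α (by omega)
    obtain ⟨v', hv', hv''⟩ := ih (w - T.dA v)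
      (Submodule.sub_mem _ hw (CP_dA T C h1 h2 v hvC))
      (by rw [map_sub, hw0, hdA, sub_zero]) hkey
    refine ⟨v + v', Submodule.add_mem _ hvC hv', ?_⟩
    rw [map_add, hv'']
    abel

theorem poly {R : Type u} [CommRing R] {b c : ℕ} {U : Type u} [AddCommGroup U] [Module R U]
    (T : Dat R b c U) (hdA : ∀ w, T.dA (T.dA w) = 0) (C : Submodule R (ExteriorAlgebra R U))
    (h1 : ∀ x ∈ C, ctr T.phi x ∈ C) (h2 : ∀ u : U, ∀ x ∈ C, ExteriorAlgebra.ι R u * x ∈ C)
    (h3 : ∀ x ∈ C, ctr T.phi x = 0 → ∃ y ∈ C, ctr T.phi y = x)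
    (w : BB R b U) (hw : w ∈ CP b C) (hw0 : T.dA w = 0) : ∃ v ∈ CP b C, T.dA v = w := by
  obtain ⟨s, -, hs⟩ := cf_sum w
  refine poly_aux T hdA C h1 h2 h3 (s.sup Finsupp.degree + 1) w hw hw0 ?_
  intro α hα
  apply hs
  intro h
  have := Finset.le_sup (f := Finsupp.degree) h
  omega

end Pool.Agent.Helper44.QA
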