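import Mathlib
import Pool.Agent.Helper44.QA.Defs

/-!
PROJECT QA, module QA-03. The exterior algebra of a finitely generated module.

PROOF. `ext_nilp`: for a finitely generated submodule `N ≤ U` there is `n` with
`(N.map (ι R)) ^ n = ⊥`: `Submodule.fg_induction` (or induction on a finite spanning set): for
`N = span {v}`: square zero (`ι_sq_zero`, `Submodule.span_mul_span`). If `a ^ n = ⊥` and `a' ^ m = ⊥`
for `a = N.map ι`, `a' = N'.map ι`, then `a * a' = a' * a` (`ι v * ι v' = -(ι v' * ι v)`, membership
by `Submodule.mul_le`), so `(a + a') ^ (n + m) = ⊥` (`Commute.add_pow` in the idempotent semiring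
`Submodule R A`, or `Commute.add_pow_le...`, every term has a factor `a ^ n` or `a' ^ m`;
`Submodule.map_sup`, `Submodule.add_eq_sup`, `⊥ = 0`).
`ext_finite`: `⊤ = ⨆ i < n, (range ι) ^ i`: the right side `S` contains `1` (if `n > 0`; `n = 0`
means `⊥ = 1`, then everything is zero) and is closed under left multiplication with `range ι`
(`(range ι) ^ n = ⊥`), so it is `⊤` (`ExteriorAlgebra.induction` or `CliffordAlgebra.left_induction`).
Each `(range ι) ^ i` is finitely generated (`Submodule.FG.pow`, `Submodule.FG.map`), finite sups too.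
-/

set_option autoImplicit false

namespace Pool.Agent.Helper44.QA

universe u

variable (R : Type u) [CommRing R] (U : Type u) [AddCommGroup U] [Module R U] [Module.Finite R U]

private theorem comm_map {R : Type u} [CommRing R] {U : Type u} [AddCommGroup U] [Module R U]
    (N N' : Submodule R U) :
    N.map (ExteriorAlgebra.ι R) * N'.map (ExteriorAlgebra.ι R) =
      N'.map (ExteriorAlgebra.ι R) * N.map (ExteriorAlgebra.ι R) := by
  have key : ∀ N N' : Submodule R U, N.map (ExteriorAlgebra.ι R) * N'.map (ExteriorAlgebra.ι R) ≤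
      N'.map (ExteriorAlgebra.ι R) * N.map (ExteriorAlgebra.ι R) := by
    intro N N'
    rw [Submodule.mul_le]
    rintro _ ⟨u, hu, rfl⟩ _ ⟨v, hv, rfl⟩
    rw [eq_neg_of_add_eq_zero_left (ExteriorAlgebra.ι_add_mul_swap u v)]
    exact Submodule.neg_mem _ (Submodule.mul_mem_mul ⟨v, hv, rfl⟩ ⟨u, hu, rfl⟩)
  exact le_antisymm (key _ _) (key _ _)

private theorem nilp_fg {R : Type u} [CommRing R] {U : Type u} [AddCommGroup U] [Module R U]
    (N : Submodule R U) (hN : N.FG) : ∃ n : ℕ, (N.map (ExteriorAlgebra.ι R)) ^ n = 0 := by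
  refine Submodule.fg_induction
    (motive := fun (N : Submodule R U) _ => ∃ n : ℕ, (N.map (ExteriorAlgebra.ι R)) ^ n = 0)
    ?_ ?_ N hN
  · intro v
    refine ⟨2, ?_⟩
    rw [Submodule.map_span, Set.image_singleton, pow_two, Submodule.span_mul_span,
      Set.singleton_mul_singleton, ExteriorAlgebra.ι_sq_zero, Submodule.zero_eq_bot,
      Submodule.span_singleton_eq_bot]
  · rintro N N' _ _ ⟨n, hn⟩ ⟨n', hn'⟩
    refine ⟨n + n', ?_⟩
    rw [Submodule.map_sup, ← Submodule.add_eq_sup]
    have hc : Commute (N.map (ExteriorAlgebra.ι R)) (N'.map (ExteriorAlgebra.ι R)) :=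
      comm_map N N'
    rw [hc.add_pow]
    refine Finset.sum_eq_zero fun i hi => ?_
    by_cases h : n ≤ i
    · rw [pow_eq_zero_of_le h hn, zero_mul, zero_mul]
    · rw [pow_eq_zero_of_le (by omega) hn', mul_zero, zero_mul]

theorem ext_nilp :
    ∃ n : ℕ, (LinearMap.range (ExteriorAlgebra.ι R (M := U))) ^ n = ⊥ := by
  obtain ⟨n, hn⟩ := nilp_fg (⊤ : Submodule R U) Module.Finite.fg_top
  rw [Submodule.map_top] at hn
  exact ⟨n, hn⟩

theorem ext_finite : Module.Finite R (ExteriorAlgebra R U) := by
  obtain ⟨n, hn⟩ := ext_nilp R U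
  set L := LinearMap.range (ExteriorAlgebra.ι R (M := U)) with hL
  have hLfg : L.FG := by
    rw [hL, ← Submodule.map_top]
    exact Submodule.FG.map _ Module.Finite.fg_top
  have hS : (⨆ i ∈ Finset.range n, L ^ i : Submodule R (ExteriorAlgebra R U)) = ⊤ := by
    rw [eq_top_iff]
    have hstep : ∀ u : U, ∀ x ∈ (⨆ i ∈ Finset.range n, L ^ i : Submodule R (ExteriorAlgebra R U)),
        ExteriorAlgebra.ι R u * x ∈ (⨆ i ∈ Finset.range n, L ^ i) := by
      intro u x hx
      have h1 : (⨆ i ∈ Finset.range n, L ^ i : Submodule R (ExteriorAlgebra R U)) ≤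
          (⨆ i ∈ Finset.range n, L ^ i : Submodule R (ExteriorAlgebra R U)).comap
            (LinearMap.mulLeft R (ExteriorAlgebra.ι R u)) := by
        refine iSup₂_le fun i hi => ?_
        intro y hy
        rw [Submodule.mem_comap, LinearMap.mulLeft_apply]
        have h2 : ExteriorAlgebra.ι R u * y ∈ L ^ (i + 1) := by
          rw [pow_succ']
          exact Submodule.mul_mem_mul ⟨u, rfl⟩ hy
        by_cases h3 : i + 1 < n
        · have h5 : L ^ (i + 1) ≤ ⨆ i ∈ Finset.range n, L ^ i :=
            le_iSup₂_of_le (i + 1) (Finset.mem_range.2 h3) le_rfl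
          exact h5 h2
        · have h4 : i + 1 = n := by
            have := Finset.mem_range.1 hi
            omega
          rw [h4, hn, Submodule.mem_bot] at h2
          rw [h2]
          exact Submodule.zero_mem _
      exact h1 hx
    have hone : (1 : ExteriorAlgebra R U) ∈
        (⨆ i ∈ Finset.range n, L ^ i : Submodule R (ExteriorAlgebra R U)) := by
      have h1 : (1 : ExteriorAlgebra R U) ∈ L ^ 0 := by
        rw [pow_zero]
        exact Submodule.one_le.1 le_rfl
      by_cases h3 : 0 < n
      · have h5 : L ^ 0 ≤ ⨆ i ∈ Finset.range n, L ^ i :=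
          le_iSup₂_of_le 0 (Finset.mem_range.2 h3) le_rfl
        exact h5 h1
      · have h4 : n = 0 := by omega
        rw [h4] at hn
        rw [hn, Submodule.mem_bot] at h1
        rw [h1]
        exact Submodule.zero_mem _
    intro x _
    have hx : ∀ x y : ExteriorAlgebra R U,
        y ∈ (⨆ i ∈ Finset.range n, L ^ i : Submodule R (ExteriorAlgebra R U)) →
          x * y ∈ (⨆ i ∈ Finset.range n, L ^ i : Submodule R (ExteriorAlgebra R U)) := by
      intro x
      induction x using ExteriorAlgebra.induction with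
      | algebraMap r =>
        intro y hy
        rw [← Algebra.smul_def]
        exact Submodule.smul_mem _ _ hy
      | ι u => exact hstep u
      | mul a a' ha ha' =>
        intro y hy
        rw [mul_assoc]
        exact ha _ (ha' _ hy)
      | add a a' ha ha' =>
        intro y hy
        rw [add_mul]
        exact Submodule.add_mem _ (ha _ hy) (ha' _ hy)
    have := hx x 1 hone
    rwa [mul_one] at this
  constructor
  rw [← hS]
  exact Submodule.fg_biSup _ _ fun i _ => hLfg.pow i

end Pool.Agent.Helper44.QA
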