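import Mathlib
import Pool.Agent.Helper44.QA.Defs
import Pool.Agent.Helper44.QA.Rules
import Pool.Agent.Helper44.QA.Calc
import Pool.Agent.Helper44.QA.ExtFin

/-!
PROJECT QA, module QA-07. High powers of `Q + p` are deep (`Q` quadratic, `p` with coefficients in
`m`).

PROOF. `A = BB R b U`. `T k = m ^ k • (⊤ : Submodule R A)`; `T j * T k ≤ T (j + k)`: if `x ∈ T j`,
`y ∈ T k` then `x * y ∈ T (j + k)` (`Submodule.smul_induction_on` twice). `inP p ∈ T 1`: `p` is the
sum of `coeff α p • monomial α 1`. So `(inP p) ^ k ∈ T k`. `Q ^ n = 0` for some `n`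
(`(range ι) ^ (2 n) = ⊥`, `ext_nilp`, `pow_mul`, `Submodule.pow_mem_pow`). `inE Q` and `inP p` commute
(`inP_even`). By `Commute.add_pow`, for `N = n + l * s`: `(inE Q + inP p) ^ N = ∑ i,
(inE Q) ^ i * (inP p) ^ (N - i) * choose`, zero for `i ≥ n`, in `T (l s)` for `i < n` (`T k`
decreases). `m ^ (l s) ≤ I ^ s`, and `I ^ s • ⊤ ≤ CP b C`: for `r ∈ I ^ s`, `r • tm x p =
tm (r • x) p`, `r • x ∈ I ^ s • ⊤ ≤ C` (`Submodule.smul_induction_on`, `tm_ind`).
-/

set_option autoImplicit false

namespace Pool.Agent.Helper44.QA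

universe u

private theorem mulT {R A : Type u} [CommRing R] [Ring A] [Algebra R A] (m : Ideal R) (j k : ℕ)
    (x y : A) (hx : x ∈ m ^ j • (⊤ : Submodule R A)) (hy : y ∈ m ^ k • (⊤ : Submodule R A)) :
    x * y ∈ m ^ (j + k) • (⊤ : Submodule R A) := by
  refine Submodule.smul_induction_on hx ?_ ?_
  · intro r hr a _
    refine Submodule.smul_induction_on hy ?_ ?_
    · intro s hs c _
      rw [smul_mul_smul_comm, pow_add]
      exact Submodule.smul_mem_smul (Ideal.mul_mem_mul hr hs) Submodule.mem_top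
    · intro c d hc hd
      rw [mul_add]
      exact Submodule.add_mem _ hc hd
  · intro c d hc hd
    rw [add_mul]
    exact Submodule.add_mem _ hc hd

private theorem powT {R A : Type u} [CommRing R] [Ring A] [Algebra R A] (m : Ideal R)
    (x : A) (hx : x ∈ m • (⊤ : Submodule R A)) (k : ℕ) :
    x ^ k ∈ m ^ k • (⊤ : Submodule R A) := by
  induction k with
  | zero =>
    rw [pow_zero, pow_zero, Ideal.one_eq_top, Submodule.top_smul]
    exact Submodule.mem_top
  | succ k ih =>
    rw [pow_succ x]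
    refine mulT m k 1 _ _ ih ?_
    rwa [pow_one]

theorem pow {R : Type u} [CommRing R] {b : ℕ} {U : Type u} [AddCommGroup U] [Module R U]
    [Module.Finite R U] (m I : Ideal R) (l : ℕ) (hl : m ^ l ≤ I) (s : ℕ)
    (C : Submodule R (ExteriorAlgebra R U))
    (hC : I ^ s • (⊤ : Submodule R (ExteriorAlgebra R U)) ≤ C) (Q : ExteriorAlgebra R U)
    (hQ : Q ∈ (LinearMap.range (ExteriorAlgebra.ι R (M := U))) ^ 2)
    (p : MvPolynomial (Fin b) R) (hp : ∀ α, p.coeff α ∈ m) :
    ∃ N : ℕ, (inE R b U Q + inP R b U p) ^ N ∈ CP b C := by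
  obtain ⟨n, hn⟩ := ext_nilp R U
  have hQn : Q ^ n = 0 := by
    have h1 : Q ^ n ∈ ((LinearMap.range (ExteriorAlgebra.ι R (M := U))) ^ 2) ^ n :=
      Submodule.pow_mem_pow _ hQ n
    rw [← pow_mul, mul_comm, pow_mul, hn] at h1
    rcases Nat.eq_zero_or_pos 2 with h | h
    · omega
    · rw [Submodule.bot_pow (by norm_num)] at h1
      exact (Submodule.mem_bot R).1 h1
  have hpT : inP R b U p ∈ m • (⊤ : Submodule R (BB R b U)) := by
    have h1 : inP R b U p = ∑ α ∈ p.support, p.coeff α • inP R b U (MvPolynomial.monomial α 1) := by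
      have h2 : p = ∑ α ∈ p.support, p.coeff α • MvPolynomial.monomial α 1 := by
        nth_rewrite 1 [MvPolynomial.as_sum p]
        refine Finset.sum_congr rfl fun α _ => ?_
        rw [MvPolynomial.smul_monomial, smul_eq_mul, mul_one]
      nth_rewrite 1 [h2]
      rw [map_sum]
      refine Finset.sum_congr rfl fun α _ => ?_
      rw [map_smul]
    rw [h1]
    exact Submodule.sum_mem _ fun α _ => Submodule.smul_mem_smul (hp α) Submodule.mem_top
  have hIC : I ^ s • (⊤ : Submodule R (BB R b U)) ≤ CP b C := by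
    rw [Submodule.smul_le]
    intro r hr w _
    induction w using tm_ind with
    | hadd u w hu hw =>
      rw [smul_add]
      exact Submodule.add_mem _ (hu Submodule.mem_top) (hw Submodule.mem_top)
    | ht x q =>
      rw [← smul_tm]
      exact Submodule.subset_span ⟨_, hC (Submodule.smul_mem_smul hr Submodule.mem_top), _, rfl⟩
  have hcomm : Commute (inE R b U Q) (inP R b U p) := ((inP_even p).2 _).symm
  refine ⟨n + l * s, hIC ?_⟩
  rw [hcomm.add_pow]
  refine Submodule.sum_mem _ fun i hi => ?_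
  rw [← Nat.cast_comm, ← nsmul_eq_mul]
  refine Submodule.smul_of_tower_mem _ _ ?_
  by_cases h : n ≤ i
  · have h2 : inE R b U Q ^ i = 0 := by
      rw [← map_pow, pow_eq_zero_of_le h hQn, map_zero]
    rw [h2, zero_mul]
    exact Submodule.zero_mem _
  · have h3 := powT m _ hpT (n + l * s - i)
    have h4 : inE R b U Q ^ i * inP R b U p ^ (n + l * s - i) ∈
        m ^ (0 + (n + l * s - i)) • (⊤ : Submodule R (BB R b U)) := by
      refine mulT m 0 _ _ _ ?_ h3
      rw [pow_zero, Ideal.one_eq_top, Submodule.top_smul]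
      exact Submodule.mem_top
    refine Submodule.smul_mono_left ?_ h4
    calc m ^ (0 + (n + l * s - i)) ≤ m ^ (l * s) := Ideal.pow_le_pow_right (by omega)
      _ = (m ^ l) ^ s := pow_mul _ _ _
      _ ≤ I ^ s := Ideal.pow_right_mono hl s

end Pool.Agent.Helper44.QA
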