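import Mathlib
import Pool.Agent.Helper44.QA.Defs
import Pool.Agent.Helper44.QA.ExtFin

/-!
PROJECT QA, module QA-04. A deep acyclic subcomplex of a Koszul complex (Artin-Rees).

PROOF. `E = ExteriorAlgebra R U`, `L = range (ι R)`, `q = range φ` (an ideal), `δ = ctr φ`,
`G i = L ^ i * ⊤` (submodules of `E`), `G i = ⊥` for `i ≥ n` (`ext_nilp`), `L * G i = G (i + 1)`.
`F s = ⨆ i, q ^ (s - i) • G i` (natural subtraction).
(1) `q`-filtration (`Ideal.Filtration`): `F (s + 1) ≤ F s` (`q ^ (s + 1 - i) ≤ q ^ (s - i)`),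
    `q • F s ≤ F (s + 1)`. Stable: for `s ≥ n` and `i < n`: `q ^ (s + 1 - i) • G i =
    q • (q ^ (s - i) • G i)`, and `G i = ⊥` for `i ≥ n`, so `F (s + 1) ≤ q • F s`.
(2) `δ (G i) ≤ q • G (i - 1) ⊔ G i` by induction on `i`: `δ (ι u * w) = φ u • w - ι u * δ w`
    (`CliffordAlgebra.contractLeft_ι_mul`), `φ u ∈ q`. So `δ (F s) ≤ F s` (`δ` is linear; for `i ≤ s`,
    `q ^ (s - i) • q • G (i - 1) = q ^ (s - (i - 1)) • G (i - 1)` if `1 ≤ i`; for `i > s` it is clear).
    `L * F s ≤ F (s + 1) ≤ F s`.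
(3) Artin-Rees: the filtration `Z ⊓ F s`, `Z = ker δ`, is a `q`-filtration (`q • (Z ⊓ F s) ≤
    Z ⊓ F (s + 1)`) below `F`, `E` is a finite module (`ext_finite`): it is stable by
    `Ideal.Filtration.Stable.of_le`: for some `s₀`: `Z ⊓ F (s₀ + 1) = q • (Z ⊓ F s₀)`.
(4) `C = F (s₀ + 1)`, `s = s₀ + 1`: `q ^ s • ⊤ = q ^ s • G 0 ≤ C`. If `x ∈ C`, `δ x = 0`, then
    `x ∈ q • (Z ⊓ F s₀)`; by `Submodule.smul_induction_on`: for `f = φ u` and `ζ ∈ Z ⊓ F s₀`:
    `f • ζ = δ (ι u * ζ)`, `ι u * ζ ∈ F (s₀ + 1)`; sums are clear.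
-/

set_option autoImplicit false

namespace Pool.Agent.Helper44.QA

universe u

private theorem smr {R M : Type*} [CommRing R] [AddCommGroup M] [Module R M] {I : Ideal R}
    {N P : Submodule R M} (h : N ≤ P) : I • N ≤ I • P := Submodule.smul_mono le_rfl h

theorem rees {R : Type u} [CommRing R] [IsNoetherianRing R] {U : Type u} [AddCommGroup U]
    [Module R U] [Module.Finite R U] (φ : U →ₗ[R] R) :
    ∃ (C : Submodule R (ExteriorAlgebra R U)) (s : ℕ),
      (LinearMap.range φ : Ideal R) ^ s • (⊤ : Submodule R (ExteriorAlgebra R U)) ≤ C ∧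
      (∀ x ∈ C, ctr φ x ∈ C) ∧ (∀ u : U, ∀ x ∈ C, ExteriorAlgebra.ι R u * x ∈ C) ∧
      (∀ x ∈ C, ctr φ x = 0 → ∃ y ∈ C, ctr φ y = x) := by
  obtain ⟨n, hn⟩ := ext_nilp R U
  have hfin : Module.Finite R (ExteriorAlgebra R U) := ext_finite R U
  obtain ⟨q, hq⟩ : ∃ q : Ideal R, q = LinearMap.range φ := ⟨_, rfl⟩
  rw [← hq]
  obtain ⟨L, hL⟩ : ∃ L : Submodule R (ExteriorAlgebra R U),
    L = LinearMap.range (ExteriorAlgebra.ι R (M := U)) := ⟨_, rfl⟩
  rw [← hL] at hn
  obtain ⟨G, hG⟩ : ∃ G : ℕ → Submodule R (ExteriorAlgebra R U), ∀ i, G i = L ^ i * ⊤ :=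
    ⟨fun i => L ^ i * ⊤, fun _ => rfl⟩
  have G0 : G 0 = ⊤ := by rw [hG, pow_zero, one_mul]
  have Gs : ∀ i, L * G i = G (i + 1) := by
    intro i
    rw [hG, hG, pow_succ', mul_assoc]
  have Gn : ∀ i, n ≤ i → G i = ⊥ := by
    intro i hi
    obtain ⟨k, rfl⟩ := Nat.exists_eq_add_of_le hi
    rw [hG, pow_add, hn, ← Submodule.zero_eq_bot, zero_mul, zero_mul]
  have hιL : ∀ u, ExteriorAlgebra.ι R u ∈ L := by
    intro u
    rw [hL]
    exact ⟨u, rfl⟩
  have hφ : ∀ u, φ u ∈ q := by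
    intro u
    rw [hq]
    exact ⟨u, rfl⟩
  -- the derivation on the pieces
  have hδ : ∀ i, (G i).map (ctr φ) ≤ q • G (i - 1) ⊔ G i := by
    intro i
    induction i with
    | zero => rw [G0]; exact le_top.trans le_sup_right
    | succ i ih =>
      rw [← Gs, Submodule.map_le_iff_le_comap, Submodule.mul_le]
      intro l hl w hw
      rw [hL] at hl
      obtain ⟨u, rfl⟩ := hl
      rw [Submodule.mem_comap]
      have h1 : ctr φ (ExteriorAlgebra.ι R u * w) = φ u • w - ExteriorAlgebra.ι R u * ctr φ w :=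
        CliffordAlgebra.contractLeft_ι_mul (Q := (0 : QuadraticForm R U)) φ u w
      rw [h1]
      refine Submodule.sub_mem _ ?_ ?_
      · exact Submodule.mem_sup_left (Submodule.smul_mem_smul (hφ u) hw)
      · have h2 := ih (Submodule.mem_map_of_mem (f := ctr φ) hw)
        rw [Submodule.mem_sup] at h2
        obtain ⟨a, ha, a', ha', h3⟩ := h2
        rw [← h3, mul_add]
        refine Submodule.add_mem _ (Submodule.mem_sup_left ?_) (Submodule.mem_sup_right ?_)
        · have h4 : (q • G (i - 1)).map (LinearMap.mulLeft R (ExteriorAlgebra.ι R u)) ≤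
              q • G (i + 1 - 1) := by
            rw [Submodule.map_smul'']
            refine smr ?_
            rw [Submodule.map_le_iff_le_comap]
            intro x hx
            rw [Submodule.mem_comap, LinearMap.mulLeft_apply]
            rcases Nat.eq_zero_or_pos i with h0 | h0
            · subst h0
              rw [show 0 + 1 - 1 = 0 from rfl, G0]
              exact Submodule.mem_top
            · have h5 := Submodule.mul_mem_mul (hιL u) hx
              rw [Gs, show i - 1 + 1 = i by omega] at h5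
              exact h5
          exact h4 ⟨a, ha, rfl⟩
        · exact Submodule.mul_mem_mul (hιL u) ha'
  -- the filtration
  obtain ⟨F, hF⟩ : ∃ F : ℕ → Submodule R (ExteriorAlgebra R U),
      ∀ s, F s = ⨆ i, q ^ (s - i) • G i := ⟨fun s => ⨆ i, q ^ (s - i) • G i, fun _ => rfl⟩
  have Fle : ∀ s i, q ^ (s - i) • G i ≤ F s := by
    intro s i
    rw [hF]
    exact le_iSup (fun i => q ^ (s - i) • G i) i
  have F1 : ∀ s, F (s + 1) ≤ F s := by
    intro s
    rw [hF, hF]
    exact iSup_mono fun i => Submodule.smul_mono_left (Ideal.pow_le_pow_right (by omega))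
  have F2 : ∀ s, q • F s ≤ F (s + 1) := by
    intro s
    rw [hF s, Submodule.smul_iSup]
    refine iSup_le fun i => ?_
    rw [← mul_smul, ← pow_succ']
    exact (Submodule.smul_mono_left (Ideal.pow_le_pow_right (by omega))).trans (Fle (s + 1) i)
  have F3 : ∀ s, n ≤ s → q • F s = F (s + 1) := by
    intro s hs
    refine le_antisymm (F2 s) ?_
    rw [hF (s + 1)]
    refine iSup_le fun i => ?_
    rcases le_or_gt n i with hi | hi
    · rw [Gn i hi, Submodule.smul_bot]
      exact bot_le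
    · rw [show s + 1 - i = (s - i) + 1 by omega, pow_succ', mul_smul]
      exact smr (Fle s i)
  have F4 : ∀ s, (F s).map (ctr φ) ≤ F s := by
    intro s
    rw [hF s, Submodule.map_iSup, ← hF s]
    refine iSup_le fun i => ?_
    rw [Submodule.map_smul'']
    refine (smr (hδ i)).trans ?_
    rw [Submodule.smul_sup]
    refine sup_le ?_ (Fle s i)
    rw [← mul_smul, ← pow_succ]
    exact (Submodule.smul_mono_left (Ideal.pow_le_pow_right (by omega))).trans (Fle s (i - 1))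
  have F5 : ∀ s u, (F s).map (LinearMap.mulLeft R (ExteriorAlgebra.ι R u)) ≤ F (s + 1) := by
    intro s u
    rw [hF s, Submodule.map_iSup]
    refine iSup_le fun i => ?_
    rw [Submodule.map_smul'']
    have h1 := Fle (s + 1) (i + 1)
    rw [show s + 1 - (i + 1) = s - i by omega] at h1
    refine (smr ?_).trans h1
    rw [Submodule.map_le_iff_le_comap]
    intro x hx
    rw [Submodule.mem_comap, LinearMap.mulLeft_apply, ← Gs]
    exact Submodule.mul_mem_mul (hιL u) hx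
  -- Artin-Rees
  let FF : q.Filtration (ExteriorAlgebra R U) := ⟨F, F1, F2⟩
  let ZZ : q.Filtration (ExteriorAlgebra R U) :=
    ⟨fun _ => LinearMap.ker (ctr φ), fun _ => le_rfl, fun _ => Submodule.smul_le_right⟩
  have hst : FF.Stable := ⟨n, fun s hs => F3 s hs⟩
  have hst2 : (FF ⊓ ZZ).Stable := hst.inter_right ZZ
  obtain ⟨s₀, hs₀⟩ := hst2
  have h1 : q • (F s₀ ⊓ LinearMap.ker (ctr φ)) = F (s₀ + 1) ⊓ LinearMap.ker (ctr φ) :=
    hs₀ s₀ le_rfl
  refine ⟨F (s₀ + 1), s₀ + 1, ?_, ?_, ?_, ?_⟩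
  · have h2 := Fle (s₀ + 1) 0
    rw [G0, Nat.sub_zero] at h2
    exact h2
  · intro x hx
    exact F4 _ ⟨x, hx, rfl⟩
  · intro u x hx
    exact F1 _ (F5 _ u ⟨x, hx, rfl⟩)
  · intro x hx hx0
    have h2 : x ∈ q • (F s₀ ⊓ LinearMap.ker (ctr φ)) := by
      rw [h1]
      exact ⟨hx, hx0⟩
    refine Submodule.smul_induction_on h2 ?_ ?_
    · intro r hr ζ hζ
      rw [hq] at hr
      obtain ⟨u, rfl⟩ := hr
      refine ⟨ExteriorAlgebra.ι R u * ζ, F5 _ u ⟨ζ, hζ.1, rfl⟩, ?_⟩
      have h3 : ctr φ (ExteriorAlgebra.ι R u * ζ) = φ u • ζ - ExteriorAlgebra.ι R u * ctr φ ζ :=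
        CliffordAlgebra.contractLeft_ι_mul (Q := (0 : QuadraticForm R U)) φ u ζ
      rw [h3, LinearMap.mem_ker.mp hζ.2, mul_zero, sub_zero]
    · rintro x y ⟨x', hx', rfl⟩ ⟨y', hy', rfl⟩
      exact ⟨x' + y', Submodule.add_mem _ hx' hy', map_add _ _ _⟩

end Pool.Agent.Helper44.QA
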