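import Mathlib
import Pool.Agent.Helper44.QA.Defs
import Pool.Agent.Helper44.QA.Rules
import Pool.Agent.Helper44.QA.Calc
import Pool.Agent.Helper44.QA.Leib
import Pool.Agent.Helper44.QA.Rees
import Pool.Agent.Helper44.QA.Poly
import Pool.Agent.Helper44.QA.Pow

/-!
PROJECT QA, module QA-08. A power of `z` is a boundary in the subalgebra.

PROOF. `z = ∑ k, cc k • T.z k = inE (∑ cc k • q k) + inP (∑ cc k • rho k)`, `Z = inA z`.
`D (xx (0, cc)) = Z` (`D_xx_mul` with `w = 1`, `D_one`, `map_sum`), so `D Z = 0` (`hT.sq`), and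
`eps Z = Z` (`inA_z_even`), so `D (Z ^ N) = 0` for all `N` by `D_mul` (induction). `inA (dA (z ^ N)) =
D (inA (z ^ N)) = D (Z ^ N) = 0` (`D_inA`), so `dA (z ^ N) = 0` (`inA_injective`).
`dA (dA w) = 0` in the same way. Take `C`, `s` from `rees T.phi`, `N` from `pow` with
`I = range T.phi`, `v` from `poly`.
-/

set_option autoImplicit false

namespace Pool.Agent.Helper44.QA

universe u

variable {R : Type u} [CommRing R] {b c : ℕ} {U : Type u} [AddCommGroup U] [Module R U]

theorem dA_sq (T : Dat R b c U) (hT : Good T) (w : BB R b U) : T.dA (T.dA w) = 0 := by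
  apply inA_injective (c := c)
  rw [← D_inA, ← D_inA, hT.sq, map_zero]

/-- The differential of the element `∑ cc k • Y_k`. -/
theorem D_y (T : Dat R b c U) (hT : Good T) (cc : Fin c → R) :
    T.D (xx ((0, cc) : U × (Fin c → R))) = inA R b c U (∑ k, cc k • T.z k) := by
  have h := D_xx_mul T hT.quad ((0, cc) : U × (Fin c → R)) 1
  rw [mul_one, mul_one, D_one, mul_zero, sub_zero, map_zero, zero_smul, zero_add] at h
  rw [h, map_sum]
  refine Finset.sum_congr rfl fun k _ => ?_
  rw [map_smul]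

theorem nilp [IsNoetherianRing R] [Module.Finite R U] (T : Dat R b c U) (hT : Good T)
    (m : Ideal R) (l : ℕ) (hl : m ^ l ≤ (LinearMap.range T.phi : Ideal R)) (cc : Fin c → R)
    (hcc : ∀ α, (∑ k, cc k • T.rho k).coeff α ∈ m) :
    ∃ (N : ℕ) (v : BB R b U), T.dA v = (∑ k, cc k • T.z k) ^ N := by
  obtain ⟨C, s, hC, h1, h2, h3⟩ := rees T.phi
  have hz : (∑ k, cc k • T.z k) =
      inE R b U (∑ k, cc k • T.q k) + inP R b U (∑ k, cc k • T.rho k) := by
    rw [map_sum, map_sum, ← Finset.sum_add_distrib]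
    refine Finset.sum_congr rfl fun k _ => ?_
    unfold Dat.z
    rw [smul_add, map_smul, map_smul]
  have hQ : (∑ k, cc k • T.q k) ∈ (LinearMap.range (ExteriorAlgebra.ι R (M := U))) ^ 2 :=
    Submodule.sum_mem _ fun k _ => Submodule.smul_mem _ _ (hT.quad k)
  obtain ⟨N, hN⟩ := pow m (LinearMap.range T.phi : Ideal R) l hl s C hC _ hQ _ hcc
  rw [← hz] at hN
  have hZe : eps R b _ (inA R b c U (∑ k, cc k • T.z k)) = inA R b c U (∑ k, cc k • T.z k) := by
    rw [map_sum, map_sum]
    refine Finset.sum_congr rfl fun k _ => ?_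
    rw [map_smul, map_smul, (inA_z_even T hT.quad k).1]
  have hDZ : T.D (inA R b c U (∑ k, cc k • T.z k)) = 0 := by rw [← D_y T hT, hT.sq]
  have hDN : ∀ n : ℕ, T.D (inA R b c U (∑ k, cc k • T.z k) ^ n) = 0 := by
    intro n
    induction n with
    | zero => rw [pow_zero, D_one]
    | succ n ih => rw [pow_succ', D_mul T hT.quad, hDZ, ih, zero_mul, mul_zero, add_zero]
  have hdA : T.dA ((∑ k, cc k • T.z k) ^ N) = 0 := by
    apply inA_injective (c := c)
    rw [← D_inA, map_pow, hDN, map_zero]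
  obtain ⟨v, -, hv⟩ := poly T (dA_sq T hT) C h1 h2 h3 _ hN hdA
  exact ⟨N, v, hv⟩

end Pool.Agent.Helper44.QA
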