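import Mathlib
import Pool.Agent.Helper44.QA.Defs
import Pool.Agent.Helper44.QA.Rules
import Pool.Agent.Helper44.QA.Calc
import Pool.Agent.Helper44.QA.Leib
import Pool.Agent.Helper44.QA.HX
import Pool.Agent.Helper44.QA.Len
import Pool.Agent.Helper44.QA.Nilp

/-!
PROJECT QA, module QA-14. If a power of `z = d y` is a boundary then `l(H_even) = l(H_odd)`.

PROOF. `V = U × W`, `μ = lam R U m`, `μ (0, cc) = 1`, `Y = xx (0, cc)`, `z = ∑ cc k • T.z k`,
`Z = inA z` (even, central: `inA_z_even`, sums), `M = ker (con μ)`, a submodule of `B = BB R b V`.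
Apply `hx` with: `i` the inclusion of `M`, `π w = con μ w` (in `M` by `con_self`), `y m = Y * m`,
`z m = Z * m` (in `M`: `con_mul`, `con μ Z = 0` as in `con_D`, `eps Z = Z`), `dM`, `εM` the
restrictions of `T.D`, `eps` (`con_D`, `con_eps`). `π (y m) = m - Y * con μ m = m` (`con_xx_mul`);
`dB (y m) = Z * m - Y * T.D m` (`D_mul` with `D_y`, `eps_xx`), `π i = 0`, and `π w = 0` means `w ∈ M`.
`Z ^ N` acts as zero on `H_e(M)`, for every `e`: let `v' = inA v`, `D v' = Z ^ N` (`D_inA`); with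
`v'' = (1/2) (v' - eps v')` (`2` is invertible): `D v'' = Z ^ N` (`D_eps`, `eps Z = Z`), `eps v'' =
-v''`. For a cycle `m ∈ M`, `eps m = e m`: `D (v'' * m) = Z ^ N * m` (`D_mul`), `eps (v'' * m) =
-e v'' * m`, and `v'' * m ∈ M` (`con_mul`, `con μ (inA _) = 0`). So `z_* ^ N = 0` on `H_e(M)`.
By `hx`, `f` is injective, so `l(H_e(M) / z) ≤ l(HH T e) ≠ ⊤` for `e = 1, -1`, so `l(H_e(M)) ≠ ⊤`
(`len_nilp`), `l(H_e(M) / z) = l(ker z)` (`len_ker`), and by `Module.length_eq_add_of_exact`
`l(HH T 1) = l(ker z on H_1(M)) + l(ker z on H_{-1}(M)) = l(HH T (-1))` (`- -1 = 1`).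
-/

set_option autoImplicit false

namespace Pool.Agent.Helper44.QA

universe u

theorem Hz_pow {R : Type u} [CommRing R] {M : Type u} [AddCommGroup M] [Module R M]
    (d ε z : M →ₗ[R] M) (hd : ∀ m, z (d m) = d (z m)) (he : ∀ m, z (ε m) = ε (z m)) (e : R)
    (m : M) (hm : m ∈ Zm d ε e) (n : ℕ) :
    ∃ hm' : (z ^ n) m ∈ Zm d ε e,
      (Hz d ε z hd he e ^ n) (Submodule.Quotient.mk ⟨m, hm⟩) =
        Submodule.Quotient.mk ⟨(z ^ n) m, hm'⟩ := by
  induction n with
  | zero => exact ⟨hm, rfl⟩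
  | succ n ih =>
    obtain ⟨h1, h2⟩ := ih
    have h3 : z ((z ^ n) m) ∈ Zm d ε e := by
      rw [mem_Zm] at h1 ⊢
      rw [← hd, ← he, h1.1, h1.2, map_zero, map_smul]
      exact ⟨rfl, rfl⟩
    have h4 : (z ^ (n + 1)) m = z ((z ^ n) m) := by
      rw [pow_succ']
      rfl
    refine ⟨h4 ▸ h3, ?_⟩
    have h5 : (Hz d ε z hd he e ^ (n + 1)) (Submodule.Quotient.mk ⟨m, hm⟩) =
        Hz d ε z hd he e ((Hz d ε z hd he e ^ n) (Submodule.Quotient.mk ⟨m, hm⟩)) := by
      rw [pow_succ']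
      rfl
    rw [h5, h2, Hz_mk d ε z hd he e _ h1 h3]
    congr 2
    exact h4.symm

theorem ystep {R : Type u} [CommRing R] [Algebra ℚ R] {b c : ℕ} {U : Type u} [AddCommGroup U]
    [Module R U] (T : Dat R b c U) (hT : Good T) (cc : Fin c → R) (m : (Fin c → R) →ₗ[R] R)
    (hm : m cc = 1) (N : ℕ) (v : BB R b U) (hv : T.dA v = (∑ k, cc k • T.z k) ^ N)
    (h1 : Module.length R (HH T 1) ≠ ⊤) (h2 : Module.length R (HH T (-1)) ≠ ⊤) :
    Module.length R (HH T 1) = Module.length R (HH T (-1)) := by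
  obtain ⟨Z, hZ⟩ : ∃ Z, Z = inA R b c U (∑ k, cc k • T.z k) := ⟨_, rfl⟩
  obtain ⟨Y, hY⟩ : ∃ Y : BB R b (U × (Fin c → R)), Y = xx ((0, cc) : U × (Fin c → R)) := ⟨_, rfl⟩
  obtain ⟨μ, hμ⟩ : ∃ μ, μ = lam R U m := ⟨_, rfl⟩
  have hZe : eps R b _ Z = Z := by
    rw [hZ, map_sum, map_sum]
    refine Finset.sum_congr rfl fun k _ => ?_
    rw [map_smul, map_smul, (inA_z_even T hT.quad k).1]
  have hDY : T.D Y = Z := by rw [hY, hZ, D_y T hT]
  have hDZ : T.D Z = 0 := by rw [← hDY, hT.sq]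
  have hcA : ∀ w : BB R b U, con μ (inA R b c U w) = 0 := by
    intro w
    unfold inA
    rw [hμ, con_emb]
    have h0 : lam R U m ∘ₗ LinearMap.inl R U (Fin c → R) = 0 := by
      refine LinearMap.ext fun x => ?_
      exact map_zero m
    rw [h0, con_zero_left, map_zero]
  have hcZ : con μ Z = 0 := by rw [hZ, hcA]
  have hcD : ∀ w, con μ (T.D w) = -T.D (con μ w) := by
    intro w
    rw [hμ, con_D T hT.quad]
  have hcY : ∀ w, con μ (Y * w) = w - Y * con μ w := by
    intro w
    rw [hY, con_xx_mul]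
    have h0 : μ ((0, cc) : U × (Fin c → R)) = 1 := by
      rw [hμ]
      exact hm
    rw [h0, one_smul]
  have hDYw : ∀ w, T.D (Y * w) = Z * w - Y * T.D w := by
    intro w
    rw [D_mul T hT.quad, hDY, hY, eps_xx, neg_mul, sub_eq_add_neg]
  have hDZw : ∀ w, T.D (Z * w) = Z * T.D w := by
    intro w
    rw [D_mul T hT.quad, hDZ, zero_mul, zero_add, hZe]
  let M : Submodule R (BB R b (U × (Fin c → R))) := LinearMap.ker (con μ)
  have hM : ∀ w, w ∈ M ↔ con μ w = 0 := fun w => LinearMap.mem_ker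
  let dM : M →ₗ[R] M := T.D.restrict (p := M) (q := M) (fun w hw => by
    rw [hM] at hw ⊢
    rw [hcD, hw, map_zero, neg_zero])
  let εM : M →ₗ[R] M := (eps R b (U × (Fin c → R))).toLinearMap.restrict (p := M) (q := M)
    (fun w hw => by
      rw [hM] at hw ⊢
      rw [AlgHom.toLinearMap_apply, con_eps, hw, map_zero, neg_zero])
  let z : M →ₗ[R] M := (LinearMap.mulLeft R Z).restrict (p := M) (q := M) (fun w hw => by
    rw [hM] at hw ⊢
    rw [LinearMap.mulLeft_apply, con_mul, hcZ, hw, zero_mul, mul_zero, add_zero])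
  let π : BB R b (U × (Fin c → R)) →ₗ[R] M := (con μ).codRestrict M (fun w => by
    rw [hM, con_self])
  let y : M →ₗ[R] BB R b (U × (Fin c → R)) := LinearMap.mulLeft R Y ∘ₗ M.subtype
  have hdM : ∀ w : M, ((dM w : M) : BB R b (U × (Fin c → R))) = T.D w := fun w => rfl
  have hεM : ∀ w : M, ((εM w : M) : BB R b (U × (Fin c → R))) =
    (eps R b (U × (Fin c → R))).toLinearMap w := fun w => rfl
  have hzM : ∀ w : M, ((z w : M) : BB R b (U × (Fin c → R))) = Z * w := fun w => rfl
  have hπM : ∀ w, ((π w : M) : BB R b (U × (Fin c → R))) = con μ w := fun w => rfl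
  have hyM : ∀ w : M, y w = Y * w := fun w => rfl
  have hzd : ∀ w, z (dM w) = dM (z w) := by
    intro w
    apply Subtype.ext
    rw [hzM, hdM, hdM, hzM, hDZw]
  have hze : ∀ w, z (εM w) = εM (z w) := by
    intro w
    apply Subtype.ext
    rw [hzM, hεM, hεM, hzM, AlgHom.toLinearMap_apply, AlgHom.toLinearMap_apply, map_mul, hZe]
  have key : ∀ e : R, ∃ (f : (Hm dM εM e ⧸ LinearMap.range (Hz dM εM z hzd hze e)) →ₗ[R]
      Hm T.D (eps R b (U × (Fin c → R))).toLinearMap e)
      (g : Hm T.D (eps R b (U × (Fin c → R))).toLinearMap e →ₗ[R]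
        LinearMap.ker (Hz dM εM z hzd hze (-e))),
      Function.Injective f ∧ Function.Surjective g ∧ Function.Exact f g := by
    refine hx dM εM T.D (eps R b (U × (Fin c → R))).toLinearMap M.subtype π y z ?_ ?_ hzd hze
      ?_ ?_ ?_ ?_ ?_ ?_ ?_ ?_ ?_ ?_
    · intro w
      apply Subtype.ext
      rw [hdM, hdM, hT.sq]
      rfl
    · exact hT.sq
    · intro w
      rfl
    · intro w
      rfl
    · intro w
      apply Subtype.ext
      rw [hπM, hcD]
      rfl
    · intro w
      apply Subtype.ext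
      rw [hπM, AlgHom.toLinearMap_apply, con_eps]
      rfl
    · intro w
      rw [hyM, hyM, hεM, AlgHom.toLinearMap_apply, AlgHom.toLinearMap_apply, map_mul, hY, eps_xx,
        neg_mul]
    · intro w
      apply Subtype.ext
      rw [hπM, hyM, hcY, (hM _).mp w.2, mul_zero, sub_zero]
    · exact Subtype.val_injective
    · intro w hw
      have h0 : con μ w = 0 := congrArg Subtype.val hw
      exact ⟨⟨w, (hM w).mpr h0⟩, rfl⟩
    · intro w
      apply Subtype.ext
      rw [hπM]
      exact (hM _).mp w.2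
    · intro w
      rw [hyM, hyM, hDYw]
      rfl
  -- nilpotency
  have hnil : ∀ e : R, (Hz dM εM z hzd hze e) ^ N = 0 := by
    intro e
    refine LinearMap.ext fun x => ?_
    obtain ⟨⟨w, hw⟩, rfl⟩ := Submodule.Quotient.mk_surjective _ x
    obtain ⟨hw', h3⟩ := Hz_pow dM εM z hzd hze e w hw N
    rw [h3, LinearMap.zero_apply, Submodule.Quotient.mk_eq_zero, Submodule.mem_comap,
      Submodule.subtype_apply, mem_Bm]
    have hzN : ∀ n : ℕ, (((z ^ n) w : M) : BB R b (U × (Fin c → R))) = Z ^ n * w := by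
      intro n
      induction n with
      | zero => rw [pow_zero, pow_zero, one_mul]; rfl
      | succ n ih =>
        rw [pow_succ', pow_succ', mul_assoc, ← ih, ← hzM]
        rfl
    rw [mem_Zm] at hw
    have hw1 : T.D w = 0 := by
      have := congrArg Subtype.val hw.1
      exact this
    have hw2 : eps R b (U × (Fin c → R)) w = e • (w : BB R b (U × (Fin c → R))) := by
      have := congrArg Subtype.val hw.2
      exact this
    have h2inv : ∃ h : R, h + h = 1 := by
      refine ⟨algebraMap ℚ R (1 / 2), ?_⟩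
      rw [← map_add]
      norm_num
    obtain ⟨h, hh⟩ := h2inv
    have hZN : eps R b _ (Z ^ N) = Z ^ N := by rw [map_pow, hZe]
    have hDv : T.D (inA R b c U v) = Z ^ N := by
      rw [D_inA, hv, map_pow, ← hZ]
    obtain ⟨v'', hv''⟩ : ∃ v'', v'' = h • (inA R b c U v - eps R b _ (inA R b c U v)) := ⟨_, rfl⟩
    have hD'' : T.D v'' = Z ^ N := by
      rw [hv'', map_smul, map_sub, D_eps T hT.quad, hDv, hZN, sub_neg_eq_add, smul_add,
        ← add_smul, hh, one_smul]
    have he'' : eps R b _ v'' = -v'' := by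
      rw [hv'', map_smul, map_sub, eps_eps, ← smul_neg, neg_sub]
    have hc'' : con μ v'' = 0 := by
      rw [hv'', map_smul, map_sub, con_eps, hcA, map_zero, neg_zero, sub_zero, smul_zero]
    have hvw : con μ (v'' * (w : BB R b (U × (Fin c → R)))) = 0 := by
      rw [con_mul, hc'', (hM _).mp w.2, zero_mul, mul_zero, add_zero]
    refine ⟨⟨v'' * (w : BB R b (U × (Fin c → R))), (hM _).mpr hvw⟩, ?_, ?_⟩
    · apply Subtype.ext
      rw [hεM]
      change eps R b (U × (Fin c → R)) (v'' * (w : BB R b (U × (Fin c → R)))) =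
        -(e • (v'' * (w : BB R b (U × (Fin c → R)))))
      rw [map_mul, he'', hw2, neg_mul, mul_smul_comm]
    · apply Subtype.ext
      rw [hdM, hzN]
      change T.D (v'' * (w : BB R b (U × (Fin c → R)))) = _
      rw [D_mul T hT.quad, hD'', hw1, mul_zero, add_zero]
  obtain ⟨f, g, hf, hg, hfg⟩ := key 1
  obtain ⟨f', g', hf', hg', hfg'⟩ := key (-1)
  have a1 : Module.length R (Hm dM εM 1 ⧸ LinearMap.range (Hz dM εM z hzd hze 1)) ≠ ⊤ := by
    intro h0
    have h3 := Module.length_le_of_injective f hf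
    rw [h0, top_le_iff] at h3
    exact h1 h3
  have a2 : Module.length R (Hm dM εM (-1) ⧸ LinearMap.range (Hz dM εM z hzd hze (-1))) ≠ ⊤ := by
    intro h0
    have h3 := Module.length_le_of_injective f' hf'
    rw [h0, top_le_iff] at h3
    exact h2 h3
  have b1 := len_ker (Hz dM εM z hzd hze 1) (len_nilp _ N (hnil 1) a1)
  have b2 := len_ker (Hz dM εM z hzd hze (-1)) (len_nilp _ N (hnil (-1)) a2)
  have c1 := Module.length_eq_add_of_exact f g hf hg hfg
  have c2 := Module.length_eq_add_of_exact f' g' hf' hg' hfg'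
  have key2 : ∀ e : R, e = 1 → Module.length R (LinearMap.ker (Hz dM εM z hzd hze e)) =
      Module.length R (LinearMap.ker (Hz dM εM z hzd hze 1)) := by
    rintro _ rfl
    rfl
  rw [key2 (- -1) (neg_neg 1), b2] at c2
  rw [b1] at c1
  change Module.length R (Hm T.D (eps R b (U × (Fin c → R))).toLinearMap 1) =
    Module.length R (Hm T.D (eps R b (U × (Fin c → R))).toLinearMap (-1))
  rw [c1, c2, add_comm]

end Pool.Agent.Helper44.QA
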