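import Mathlib
import Pool.Agent.Helper44.QA.Defs
import Pool.Agent.Helper44.QA.Len
import Pool.Agent.Helper44.QA.Param
import Pool.Agent.Helper44.QA.Aug
import Pool.Agent.Helper44.QA.Nilp
import Pool.Agent.Helper44.QA.Extend
import Pool.Agent.Helper44.QA.YStep

/-!
PROJECT QA, module QA-15. The contradiction.

PROOF. `extend` gives `T'` on `U'`. `l(HH T' 1) ≠ ⊤`, so by `len_kill` a power `m ^ n` of the maximal
ideal kills `HH T' 1`, so `m ^ n ≤ range T'.phi` (`of_kill`). `nilp` (`T'.rho = T.rho`) gives `N`, `v`.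
`ystep` with `m = (cc k0)⁻¹ • proj k0` (`cc k0` a unit): `l(HH T' 1) = l(HH T' (-1))`, contradiction
(`l(HH T' (-1)) < l(HH T' 1) ≠ ⊤`).
-/

set_option autoImplicit false

namespace Pool.Agent.Helper44.QA

universe u

theorem core {R : Type u} [CommRing R] [IsLocalRing R] [IsNoetherianRing R] [Algebra ℚ R]
    {b c : ℕ} {U : Type u} [AddCommGroup U] [Module R U] (hU : Module.Finite R U)
    (T : Dat R b c U) (hT : Good T) (h1 : Module.Finite R (HH T 1))
    (h2 : Module.length R (HH T (-1)) ≠ ⊤)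
    (h3 : Module.length R (HH T 1) ≠ ⊤ →
      Module.length R (HH T (-1)) < Module.length R (HH T 1))
    (cc : Fin c → R) (k0 : Fin c) (hk : IsUnit (cc k0))
    (hcc : ∀ α, (∑ k, cc k • T.rho k).coeff α ∈ IsLocalRing.maximalIdeal R) : False := by
  obtain ⟨U', _, _, hU', T', hT', hrho, h4, h5⟩ := extend hU T hT h1 h2 h3
  obtain ⟨n, hn⟩ := len_kill h4
  have hl : IsLocalRing.maximalIdeal R ^ n ≤ (LinearMap.range T'.phi : Ideal R) :=
    fun r hr => of_kill T' hT' r (hn r hr)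
  rw [← hrho] at hcc
  obtain ⟨N, v, hv⟩ := nilp T' hT' _ n hl cc hcc
  obtain ⟨u, hu⟩ := hk
  have h6 := ystep T' hT' cc ((↑u⁻¹ : R) • LinearMap.proj k0) (by
    rw [LinearMap.smul_apply, LinearMap.proj_apply, ← hu, smul_eq_mul, Units.inv_mul]) N v hv h4
    (ne_top_of_lt h5)
  rw [h6] at h5
  exact lt_irrefl _ h5

end Pool.Agent.Helper44.QA
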