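import Mathlib
import Pool.Agent.Helper44.QA.Defs
import Pool.Agent.Helper44.QA.Rules
import Pool.Agent.Helper44.QA.Calc
import Pool.Agent.Helper44.QA.Leib
import Pool.Agent.Helper44.QA.Aug

/-!
PROJECT QA, module QA-16. The homology of a resolution.

PROOF. `start_odd`: let `w` be a cycle with `eps w = -w`, `w = algebraMap ρ + D v`. Apply `eps`:
`-w = algebraMap ρ - D (eps v)` (`D_eps`), so `2 w = D (v + eps v)`, `w = D (1/2 (v + eps v))`, and
`v + eps v` is even: the class of `w` in `HH T (-1)` is zero; so it is a subsingleton, length `0`.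
`start_even`: a cycle `w` with `eps w = w`: `w = algebraMap ρ + D v`, `w = algebraMap ρ - D (eps v)`,
so `w = ρ • 1 + D (1/2 (v - eps v))`: the class of `w` is `ρ` times the class of `1`: generated by one
element. `start_pos`: the class of `1` is not zero: otherwise `1 = D v` and `1 ∈ range T.phi ≤ m`
(`of_boundary`); so `0 < l(HH T 1)` (`Module.length_pos_iff`).
-/

set_option autoImplicit false

namespace Pool.Agent.Helper44.QA

universe u

variable {R : Type u} [CommRing R] [Algebra ℚ R] {b c : ℕ} {U : Type u} [AddCommGroup U]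
  [Module R U] (T : Dat R b c U) (hT : Good T)
  (hex : ∀ w, T.D w = 0 → ∃ (ρ : R) (v : BB R b (U × (Fin c → R))),
    w = algebraMap R (BB R b (U × (Fin c → R))) ρ + T.D v)

private theorem half (x : BB R b (U × (Fin c → R))) : algebraMap ℚ R (1 / 2) • (x + x) = x := by
  rw [← two_smul R x, smul_smul]
  have : algebraMap ℚ R (1 / 2) * 2 = 1 := by
    have h3 : (2 : R) = algebraMap ℚ R 2 := (map_ofNat _ 2).symm
    rw [h3, ← map_mul]
    norm_num
  rw [this, one_smul]

include hT hex

theorem start_odd : Module.length R (HH T (-1)) = 0 := by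
  rw [Module.length_eq_zero_iff]
  refine subsingleton_of_forall_eq 0 fun x => ?_
  obtain ⟨⟨w, hw⟩, rfl⟩ := Submodule.Quotient.mk_surjective _ x
  rw [Submodule.Quotient.mk_eq_zero]
  change w ∈ Bm _ _ _
  rw [mem_Zm] at hw
  obtain ⟨hw1, hw2⟩ := hw
  obtain ⟨ρ, v, h⟩ := hex w hw1
  have h2 : -w = algebraMap R _ ρ - T.D (eps R b _ v) := by
    rw [neg_one_smul] at hw2
    rw [← hw2, h]
    change eps R b _ _ = _
    rw [map_add, D_eps T hT.quad, sub_neg_eq_add, AlgHom.commutes]
  have h3 : w + w = T.D v + T.D (eps R b _ v) := by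
    have : w - -w = (algebraMap R _ ρ + T.D v) - (algebraMap R _ ρ - T.D (eps R b _ v)) := by
      rw [← h2, ← h]
    rw [sub_neg_eq_add] at this
    rw [this]
    abel
  rw [mem_Bm]
  refine ⟨algebraMap ℚ R (1 / 2) • (v + eps R b _ v), ?_, ?_⟩
  · change eps R b _ _ = _
    rw [map_smul, map_add, eps_eps, neg_one_smul, neg_neg, add_comm]
  · rw [map_smul, map_add, ← h3, half]

theorem start_even : Module.Finite R (HH T 1) := by
  have h1 : (1 : BB R b (U × (Fin c → R))) ∈ Zm T.D (eps R b _).toLinearMap (1 : R) := by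
    rw [mem_Zm]
    refine ⟨D_one T, ?_⟩
    change eps R b _ 1 = _
    rw [map_one, one_smul]
  refine Module.Finite.of_surjective (LinearMap.toSpanSingleton R (HH T 1)
    (Submodule.Quotient.mk ⟨1, h1⟩)) ?_
  intro x
  obtain ⟨⟨w, hw⟩, rfl⟩ := Submodule.Quotient.mk_surjective _ x
  have hw' := hw
  rw [mem_Zm] at hw'
  obtain ⟨hw1, hw2⟩ := hw'
  obtain ⟨ρ, v, h⟩ := hex w hw1
  refine ⟨ρ, ?_⟩
  rw [LinearMap.toSpanSingleton_apply, ← Submodule.Quotient.mk_smul, eq_comm,
    ← sub_eq_zero, ← Submodule.Quotient.mk_sub, Submodule.Quotient.mk_eq_zero]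
  change w - ρ • 1 ∈ Bm _ _ _
  have h2 : w = algebraMap R _ ρ - T.D (eps R b _ v) := by
    rw [one_smul] at hw2
    nth_rewrite 1 [← hw2]
    rw [h]
    change eps R b _ _ = _
    rw [map_add, D_eps T hT.quad, sub_neg_eq_add, AlgHom.commutes]
  rw [mem_Bm]
  refine ⟨algebraMap ℚ R (1 / 2) • (v - eps R b _ v), ?_, ?_⟩
  · change eps R b _ _ = _
    rw [map_smul, map_sub, eps_eps, one_smul, ← smul_neg, neg_sub]
  · have h3 : T.D v - T.D (eps R b _ v) = (w - ρ • 1) + (w - ρ • 1) := by
      rw [← Algebra.algebraMap_eq_smul_one]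
      have h4 : w - algebraMap R _ ρ = T.D v := by
        nth_rewrite 1 [h]
        abel
      have h5 : w - algebraMap R _ ρ = -T.D (eps R b _ v) := by
        nth_rewrite 1 [h2]
        abel
      nth_rewrite 1 [h4]
      rw [h5, sub_eq_add_neg]
    rw [map_smul, map_sub, h3, half]

omit hex [Algebra ℚ R] in
theorem start_pos [IsLocalRing R]
    (hm : (LinearMap.range T.phi : Ideal R) ≤ IsLocalRing.maximalIdeal R) :
    0 < Module.length R (HH T 1) := by
  rw [Module.length_pos_iff]
  have h1 : (1 : BB R b (U × (Fin c → R))) ∈ Zm T.D (eps R b _).toLinearMap (1 : R) := by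
    rw [mem_Zm]
    refine ⟨D_one T, ?_⟩
    change eps R b _ 1 = _
    rw [map_one, one_smul]
  refine ⟨Submodule.Quotient.mk ⟨1, h1⟩, 0, ?_⟩
  intro h
  rw [Submodule.Quotient.mk_eq_zero] at h
  change (1 : BB R b (U × (Fin c → R))) ∈ Bm _ _ _ at h
  rw [mem_Bm] at h
  obtain ⟨v, -, hv⟩ := h
  have h2 := of_boundary T hT 1 v (by rw [hv, map_one])
  exact (IsLocalRing.mem_maximalIdeal _).1 (hm h2) isUnit_one

end Pool.Agent.Helper44.QA
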