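import Mathlib
import Pool.Agent.Helper44.QA.Defs
import Pool.Agent.Helper44.QA.Rules
import Pool.Agent.Helper44.QA.Calc
import Pool.Agent.Helper44.QA.Leib

/-!
PROJECT QA, module QA-17. A derivation is determined by its values on the generators.

PROOF. `BB_ind` for the statement `d w = T.D w`. `d 1 = 0` from `d (1 * 1) = d 1 * 1 + eps 1 * d 1`.
Products: `leib` for `d`, `D_mul` for `T.D`, and the values on `xx v`, `XX j`: `T.D (XX j) =
xx (T.s j, 0)` (`D_XX_mul` with `w = 1`), `T.D (xx v) = algebraMap (T.phi v.1) + ∑ k, v.2 k •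
inA (T.z k)` (`D_xx_mul` with `w = 1`), and `v = (v.1, 0) + ∑ k, v.2 k • (0, Pi.single k 1)`
(`xx_add`, `xx_smul`), so `d (xx v)` has the same value.
-/

set_option autoImplicit false

namespace Pool.Agent.Helper44.QA

universe u

theorem uniq {R : Type u} [CommRing R] {b c : ℕ} {U : Type u} [AddCommGroup U] [Module R U]
    (T : Dat R b c U) (hq : ∀ k, T.q k ∈ (LinearMap.range (ExteriorAlgebra.ι R (M := U))) ^ 2)
    (d : BB R b (U × (Fin c → R)) →ₗ[R] BB R b (U × (Fin c → R)))
    (leib : ∀ u w, d (u * w) = d u * w + eps R b _ u * d w)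
    (hx : ∀ u : U, d (xx (u, 0)) = algebraMap R _ (T.phi u))
    (hX : ∀ j, d (XX j) = xx (T.s j, 0))
    (hY : ∀ k, d (xx (0, Pi.single k 1)) = inA R b c U (T.z k)) (w : BB R b (U × (Fin c → R))) :
    d w = T.D w := by
  have hd1 : d 1 = 0 := by
    have h1 := leib 1 1
    rw [map_one (eps R b (U × (Fin c → R))), mul_one, mul_one, one_mul] at h1
    have h2 : d 1 + d 1 = d 1 + 0 := by rw [← h1, add_zero]
    exact add_left_cancel h2
  have hxx : ∀ v : U × (Fin c → R), d (xx v) =
      algebraMap R _ (T.phi v.1) + ∑ k, v.2 k • inA R b c U (T.z k) := by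
    intro v
    have h1 : v = (v.1, 0) + ∑ k, v.2 k • ((0, Pi.single k 1) : U × (Fin c → R)) := by
      refine Prod.ext ?_ ?_
      · rw [Prod.fst_add, Prod.fst_sum]
        simp
      · rw [Prod.snd_add, Prod.snd_sum]
        funext i
        simp [Pi.single_apply]
    have h2 : (xx v : BB R b (U × (Fin c → R))) = xx (v.1, 0) +
        ∑ k, v.2 k • xx ((0, Pi.single k 1) : U × (Fin c → R)) := by
      have h3 : ∀ s : Finset (Fin c), (xx (∑ k ∈ s, v.2 k • ((0, Pi.single k 1) : U × (Fin c → R))) :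
          BB R b (U × (Fin c → R))) = ∑ k ∈ s, v.2 k • xx ((0, Pi.single k 1) : U × (Fin c → R)) := by
        intro s
        induction s using Finset.cons_induction with
        | empty => rw [Finset.sum_empty, Finset.sum_empty, xx_zero]
        | cons a s ha ih => rw [Finset.sum_cons, Finset.sum_cons, xx_add, xx_smul, ih]
      rw [← h3, ← xx_add, ← h1]
    rw [h2, map_add, map_sum, hx]
    congr 1
    refine Finset.sum_congr rfl fun k _ => ?_
    rw [map_smul, hY]
  refine BB_ind (p := fun w => d w = T.D w) ?_ ?_ ?_ ?_ ?_ w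
  · rw [hd1, D_one]
  · intro u w hu hw
    rw [map_add, map_add, hu, hw]
  · intro r w hw
    rw [map_smul, map_smul, hw]
  · intro v w hw
    rw [leib, hxx, eps_xx, hw, D_xx_mul T hq, neg_mul, ← sub_eq_add_neg, add_mul, Algebra.smul_def]
  · intro j w hw
    rw [leib, hX, eps_XX, hw, D_XX_mul]

end Pool.Agent.Helper44.QA
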