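import Mathlib
import Pool.Agent.Helper44.QA.Defs
import Pool.Agent.Helper44.QA.Rules
import Pool.Agent.Helper44.QA.Calc
import Pool.Agent.Helper44.QA.Leib
import Pool.Agent.Helper44.QA.Core
import Pool.Agent.Helper44.QA.Start
import Pool.Agent.Helper44.QA.Uniq

/-!
PROJECT QA, module QA-18. The main theorem, in plain terms.
-/

set_option autoImplicit false

open scoped TensorProduct

namespace Pool.Agent.Helper44.QA

noncomputable section

universe u

/-- The free graded commutative `R`-algebra `R[x, X, Y]` on `a` variables `x` of degree one, `b`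
variables `X` of degree two and `c` variables `Y` of degree three. -/
abbrev FreeGC (R : Type u) [CommRing R] (a b c : ℕ) : Type u :=
  BB R b ((Fin a → R) × (Fin c → R))

section

variable (R : Type u) [CommRing R] (a b c : ℕ)

/-- The variables of degree one. -/
def x1 (i : Fin a) : FreeGC R a b c := xx (Pi.single i 1, 0)

/-- The variables of degree two. -/
def x2 (j : Fin b) : FreeGC R a b c := XX j

/-- The variables of degree three. -/
def x3 (k : Fin c) : FreeGC R a b c := xx (0, Pi.single k 1)

end

/-- The ring structure of the tensor product of algebras (Mathlib). -/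
abbrev tRing (R : Type u) [CommRing R] (b : ℕ) (V : Type u) [AddCommGroup V] [Module R V] :
    Ring (BB R b V) :=
  (Algebra.TensorProduct.instRing : Ring (ExteriorAlgebra R V ⊗[R] MvPolynomial (Fin b) R))

/-- The algebra structure of the tensor product of algebras (Mathlib). -/
abbrev tAlg (R : Type u) [CommRing R] (b : ℕ) (V : Type u) [AddCommGroup V] [Module R V] :
    @Algebra R (BB R b V) _ (tRing R b V).toSemiring :=
  (Algebra.TensorProduct.leftAlgebra :
    Algebra R (ExteriorAlgebra R V ⊗[R] MvPolynomial (Fin b) R))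

/-- Let `B` be an `R`-algebra, graded commutative with odd elements `x i` of degree one, even
elements `X j` of degree two and odd elements `Y k` of degree three. `d` is an `R`-linear derivation
(Leibniz rule for products with the generators) of degree `-1` with `d d = 0`, `d (x i)` in the
maximal ideal and homology concentrated in degree zero (every cycle is a scalar plus a boundary);
`r` is the linear part `Y → X` of `d`. -/
structure IsDG {R : Type u} [CommRing R] [IsLocalRing R] {a b c : ℕ} {B : Type u} [Ring B]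
    [Algebra R B] (x : Fin a → B) (X : Fin b → B) (Y : Fin c → B) (d : B → B)
    (r : Fin c → Fin b → R) : Prop where
  lin : IsLinearMap R d
  sq : ∀ w, d (d w) = 0
  one : d 1 = 0
  leib1 : ∀ i w, d (x i * w) = d (x i) * w - x i * d w
  leib2 : ∀ j w, d (X j * w) = d (X j) * w + X j * d w
  leib3 : ∀ k w, d (Y k * w) = d (Y k) * w - Y k * d w
  deg1 : ∀ i, ∃ f ∈ IsLocalRing.maximalIdeal R, d (x i) = f • 1
  deg2 : ∀ j, ∃ s : Fin a → R, d (X j) = ∑ i, s i • x i
  deg3 : ∀ k, ∃ q : Fin a → Fin a → R,
    d (Y k) = (∑ i, ∑ l, q i l • (x i * x l)) + ∑ j, r k j • X j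
  exact : ∀ w, d w = 0 → ∃ (ρ : R) (v : B), w = ρ • 1 + d v

/-- `d` makes the free graded commutative algebra `R[x, X, Y]` (with the multiplication of the
tensor product of algebras) a DG algebra which is a resolution of `S = R / (d x_1, ..., d x_a)`; `r` is
the linear part `Y → X` of `d`. -/
def IsModel {R : Type u} [CommRing R] [IsLocalRing R] {a b c : ℕ}
    (d : FreeGC R a b c → FreeGC R a b c) (r : Fin c → Fin b → R) : Prop :=
  @IsDG R _ _ a b c (FreeGC R a b c) (tRing R b _) (tAlg R b _) (x1 R a b c) (x2 R a b c)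
    (x3 R a b c) d r

variable {R : Type u} [CommRing R] {a b c : ℕ}

private theorem xx_sum (u : Fin a → R) :
    (xx ((u, 0) : (Fin a → R) × (Fin c → R)) : BB R b _) = ∑ i, u i • x1 R a b c i := by
  have h1 : ((u, 0) : (Fin a → R) × (Fin c → R)) =
      ∑ i, u i • ((Pi.single i 1, 0) : (Fin a → R) × (Fin c → R)) := by
    refine Prod.ext ?_ ?_
    · rw [Prod.fst_sum]
      refine (pi_eq_sum_univ' u).trans (Finset.sum_congr rfl fun i _ => ?_)
      change _ = u i • (Pi.single i (1 : R) : Fin a → R)
      congr 1
    · rw [Prod.snd_sum]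
      simp
  let L : ((Fin a → R) × (Fin c → R)) →ₗ[R] BB R b ((Fin a → R) × (Fin c → R)) :=
    { toFun := xx
      map_add' := xx_add
      map_smul' := xx_smul }
  change L (u, 0) = _
  rw [h1, map_sum]
  refine Finset.sum_congr rfl fun i _ => ?_
  rw [map_smul]
  rfl

private theorem xx_sum3 (u : Fin c → R) :
    (xx ((0, u) : (Fin a → R) × (Fin c → R)) : BB R b _) = ∑ k, u k • x3 R a b c k := by
  have h1 : ((0, u) : (Fin a → R) × (Fin c → R)) =
      ∑ k, u k • ((0, Pi.single k 1) : (Fin a → R) × (Fin c → R)) := by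
    refine Prod.ext ?_ ?_
    · rw [Prod.fst_sum]
      simp
    · rw [Prod.snd_sum]
      refine (pi_eq_sum_univ' u).trans (Finset.sum_congr rfl fun i _ => ?_)
      change _ = u i • (Pi.single i (1 : R) : Fin c → R)
      congr 1
  let L : ((Fin a → R) × (Fin c → R)) →ₗ[R] BB R b ((Fin a → R) × (Fin c → R)) :=
    { toFun := xx
      map_add' := xx_add
      map_smul' := xx_smul }
  change L (0, u) = _
  rw [h1, map_sum]
  refine Finset.sum_congr rfl fun i _ => ?_
  rw [map_smul]
  rfl

private theorem xx_gen (v : (Fin a → R) × (Fin c → R)) :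
    (xx v : BB R b _) = (∑ i, v.1 i • x1 R a b c i) + ∑ k, v.2 k • x3 R a b c k := by
  rw [← xx_sum, ← xx_sum3, ← xx_add]
  congr 1
  refine Prod.ext ?_ ?_
  · exact (add_zero _).symm
  · exact (zero_add _).symm

/-- The Leibniz rule from the Leibniz rule for generators. -/
private theorem leib_of [IsLocalRing R] (d : FreeGC R a b c →ₗ[R] FreeGC R a b c)
    (r : Fin c → Fin b → R)
    (hd : IsDG (B := FreeGC R a b c) (x1 R a b c) (x2 R a b c) (x3 R a b c) d r)
    (u w : FreeGC R a b c) : d (u * w) = d u * w + eps R b _ u * d w := by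
  induction u using BB_ind with
  | h1 => rw [one_mul, hd.one, zero_mul, zero_add, map_one, one_mul]
  | hadd u u' hu hu' =>
    rw [add_mul, map_add, hu, hu', map_add, map_add, add_mul, add_mul]
    abel
  | hsmul r u hu =>
    rw [smul_mul_assoc, map_smul, hu, map_smul, map_smul, smul_mul_assoc, smul_mul_assoc, smul_add]
  | hx v u hu =>
    have key : ∀ t : FreeGC R a b c, d (xx v * t) = d (xx v) * t - xx v * d t := by
      intro t
      rw [xx_gen v, add_mul, map_add, map_add, add_mul, add_mul, Finset.sum_mul, Finset.sum_mul,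
        map_sum, map_sum, map_sum, map_sum, Finset.sum_mul, Finset.sum_mul, Finset.sum_mul,
        Finset.sum_mul]
      have h1 : ∑ i, d (v.1 i • x1 R a b c i * t) =
          (∑ i, d (v.1 i • x1 R a b c i) * t) - ∑ i, v.1 i • x1 R a b c i * d t := by
        rw [← Finset.sum_sub_distrib]
        refine Finset.sum_congr rfl fun i _ => ?_
        rw [smul_mul_assoc, map_smul, map_smul, hd.leib1, smul_sub, smul_mul_assoc,
          smul_mul_assoc]
      have h3 : ∑ k, d (v.2 k • x3 R a b c k * t) =
          (∑ k, d (v.2 k • x3 R a b c k) * t) - ∑ k, v.2 k • x3 R a b c k * d t := by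
        rw [← Finset.sum_sub_distrib]
        refine Finset.sum_congr rfl fun k _ => ?_
        rw [smul_mul_assoc, map_smul, map_smul, hd.leib3, smul_sub, smul_mul_assoc,
          smul_mul_assoc]
      rw [h1, h3]
      abel
    rw [mul_assoc, key, hu, key, map_mul, eps_xx, mul_add, sub_mul, mul_assoc, mul_assoc, neg_mul,
      neg_mul, mul_assoc]
    abel
  | hX j u hu =>
    have key : ∀ t : FreeGC R a b c, d (XX j * t) = d (XX j) * t + XX j * d t := hd.leib2 j
    rw [mul_assoc, key, hu, key, map_mul, eps_XX, mul_add, add_mul, mul_assoc, mul_assoc,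
      mul_assoc]
    abel

private theorem main_aux [IsLocalRing R] [IsNoetherianRing R] [Algebra ℚ R]
    (d : FreeGC R a b c →ₗ[R] FreeGC R a b c) (r : Fin c → Fin b → R)
    (hd : IsDG (B := FreeGC R a b c) (x1 R a b c) (x2 R a b c) (x3 R a b c) d r)
    (v : Fin c → IsLocalRing.ResidueField R)
    (hv : ∀ j, ∑ k, v k * IsLocalRing.residue R (r k j) = 0) : v = 0 := by
  choose f hf hx using hd.deg1
  choose s hs using hd.deg2
  choose q hq using hd.deg3
  let T : Dat R b c (Fin a → R) :=
    { phi := ∑ i, f i • LinearMap.proj i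
      s := s
      q := fun k => ∑ i, ∑ i', q k i i' •
        (ExteriorAlgebra.ι R (Pi.single i 1 : Fin a → R) *
          ExteriorAlgebra.ι R (Pi.single i' 1 : Fin a → R))
      rho := fun k => ∑ j, r k j • MvPolynomial.X j }
  have hphi : ∀ u, T.phi u = ∑ i, u i * f i := by
    intro u
    change (∑ i, f i • LinearMap.proj i : (Fin a → R) →ₗ[R] R) u = _
    rw [LinearMap.sum_apply]
    refine Finset.sum_congr rfl fun i _ => ?_
    rw [LinearMap.smul_apply, LinearMap.proj_apply, smul_eq_mul, mul_comm]
  have hquad : ∀ k, T.q k ∈ (LinearMap.range (ExteriorAlgebra.ι R (M := Fin a → R))) ^ 2 := by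
    intro k
    change (∑ i, ∑ i', q k i i' • (ExteriorAlgebra.ι R (Pi.single i 1 : Fin a → R) *
      ExteriorAlgebra.ι R (Pi.single i' 1 : Fin a → R))) ∈ _
    refine Submodule.sum_mem _ fun i _ => Submodule.sum_mem _ fun i' _ =>
      Submodule.smul_mem _ _ ?_
    rw [pow_two]
    exact Submodule.mul_mem_mul ⟨_, rfl⟩ ⟨_, rfl⟩
  have hT : ∀ w, d w = T.D w := by
    refine uniq T hquad d (leib_of d r hd) ?_ ?_ ?_
    · intro u
      have h3 : ∀ i, d (u i • x1 R a b c i) = algebraMap R _ (u i * f i) := by
        intro i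
        rw [map_smul, hx, Algebra.algebraMap_eq_smul_one, smul_smul]
      rw [xx_sum u, map_sum, Finset.sum_congr rfl fun i _ => h3 i, ← map_sum, hphi]
    · intro j
      change d (XX j) = xx (s j, 0)
      rw [xx_sum (s j)]
      exact hs j
    · intro k
      refine (hq k).trans ?_
      have h4 : inA R b c (Fin a → R) (T.z k) =
          inE R b _ (ExteriorAlgebra.map (LinearMap.inl R (Fin a → R) (Fin c → R)) (T.q k)) +
            inP R b _ (T.rho k) := by
        unfold inA Dat.z
        rw [map_add, emb_inE, emb_inP]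
      rw [h4]
      congr 1
      · change _ = inE R b _ (ExteriorAlgebra.map (LinearMap.inl R (Fin a → R) (Fin c → R))
          (∑ i, ∑ i', q k i i' • (ExteriorAlgebra.ι R (Pi.single i 1 : Fin a → R) *
            ExteriorAlgebra.ι R (Pi.single i' 1 : Fin a → R))))
        rw [map_sum, map_sum]
        refine Finset.sum_congr rfl fun i _ => ?_
        rw [map_sum, map_sum]
        refine Finset.sum_congr rfl fun i' _ => ?_
        rw [map_smul, map_smul, map_mul, map_mul, ExteriorAlgebra.map_apply_ι,
          ExteriorAlgebra.map_apply_ι]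
        rfl
      · change _ = inP R b _ (∑ j, r k j • MvPolynomial.X j)
        rw [map_sum]
        refine Finset.sum_congr rfl fun j _ => ?_
        rw [map_smul]
        rfl
  have hG : Good T :=
    { sq := fun w => by rw [← hT, ← hT]; exact hd.sq w
      quad := hquad
      cst := fun k => by
        change MvPolynomial.constantCoeff (∑ j, r k j • MvPolynomial.X j) = 0
        rw [map_sum]
        refine Finset.sum_eq_zero fun j _ => ?_
        rw [MvPolynomial.constantCoeff_smul, MvPolynomial.constantCoeff_X, smul_zero] }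
  have hex : ∀ w, T.D w = 0 → ∃ (ρ : R) (v : BB R b ((Fin a → R) × (Fin c → R))),
      w = algebraMap R _ ρ + T.D v := by
    intro w hw
    rw [← hT] at hw
    obtain ⟨ρ, v, h⟩ := hd.exact w hw
    exact ⟨ρ, v, by rw [← hT, Algebra.algebraMap_eq_smul_one]; exact h⟩
  have hm : (LinearMap.range T.phi : Ideal R) ≤ IsLocalRing.maximalIdeal R := by
    rintro _ ⟨u, rfl⟩
    rw [hphi]
    exact Ideal.sum_mem _ fun i _ => Ideal.mul_mem_left _ _ (hf i)
  have h0 := start_odd T hG hex
  by_contra hne
  obtain ⟨k0, hk0⟩ := Function.ne_iff.1 hne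
  choose cc hcc using fun k => IsLocalRing.residue_surjective (R := R) (v k)
  have hu : IsUnit (cc k0) := by
    by_contra h
    apply hk0
    rw [← hcc k0]
    exact (IsLocalRing.residue_eq_zero_iff _).2 ((IsLocalRing.mem_maximalIdeal _).2 h)
  refine core (R := R) (b := b) (c := c) inferInstance T hG (start_even T hG hex) (by rw [h0]; simp)
    (fun _ => by rw [h0]; exact start_pos T hG hm) cc k0 hu ?_
  intro α
  have h5 : ∀ j, ∑ k, cc k * r k j ∈ IsLocalRing.maximalIdeal R := by
    intro j
    rw [← IsLocalRing.residue_eq_zero_iff, map_sum]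
    refine (Finset.sum_congr rfl fun k _ => ?_).trans (hv j)
    rw [map_mul, hcc]
  have h6 : (∑ k, cc k • T.rho k) =
      ∑ j, (∑ k, cc k * r k j) • (MvPolynomial.X j : MvPolynomial (Fin b) R) := by
    change (∑ k, cc k • ∑ j, r k j • (MvPolynomial.X j : MvPolynomial (Fin b) R)) = _
    simp only [Finset.smul_sum, smul_smul]
    rw [Finset.sum_comm]
    refine Finset.sum_congr rfl fun j _ => ?_
    rw [Finset.sum_smul]
  rw [h6, MvPolynomial.coeff_sum]
  refine Ideal.sum_mem _ fun j _ => ?_
  rw [MvPolynomial.coeff_smul, smul_eq_mul]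
  exact Ideal.mul_mem_right _ _ (h5 j)

theorem main [IsLocalRing R] [IsNoetherianRing R] [Algebra ℚ R]
    (d : FreeGC R a b c → FreeGC R a b c) (r : Fin c → Fin b → R)
    (hd : IsModel d r) (v : Fin c → IsLocalRing.ResidueField R)
    (hv : ∀ j, ∑ k, v k * IsLocalRing.residue R (r k j) = 0) : v = 0 := by
  have h : IsDG (B := FreeGC R a b c) (x1 R a b c) (x2 R a b c) (x3 R a b c) d r := hd
  exact main_aux (h.lin.mk' d) r h v hv

end

end Pool.Agent.Helper44.QA
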